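import Mathlib
import Pool.Agent.Helper15.DimerBase

open MeasureTheory Set Filter Topology Helper15.Dimer
open scoped ContDiff RealInnerProductSpace

namespace Helper67.Dimer

set_option linter.unusedSectionVars false

variable {E : Type*} [NormedAddCommGroup E] [InnerProductSpace ℝ E] [FiniteDimensional ℝ E]
  [MeasurableSpace E] [BorelSpace E]

theorem measurableSet_Em (g₁ g₂ : E → E) (hg₁ : Measurable g₁) (hg₂ : Measurable g₂) (m : E) :
    MeasurableSet {x | m ∈ segment ℝ (g₁ x) (g₂ x)} := by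
  have : {x | m ∈ segment ℝ (g₁ x) (g₂ x)} =
      {x | dist (g₁ x) m + dist m (g₂ x) = dist (g₁ x) (g₂ x)} := by
    ext x
    simp only [Set.mem_ofPred_eq]
    rw [mem_segment_iff_wbtw, dist_add_dist_eq_iff]
  rw [this]
  exact measurableSet_eq_fun ((hg₁.dist measurable_const).add (measurable_const.dist hg₂))
    (hg₁.dist hg₂)

theorem sm_app {S : E → ℝ} (hS : ContDiff ℝ ∞ S) {h : E → E} (hh : Measurable h) :
    StronglyMeasurable fun x => fderiv ℝ S x (h x) := by
  have h1 : StronglyMeasurable (fderiv ℝ S) :=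
    (hS.continuous_fderiv (by simp)).stronglyMeasurable
  have h2 : StronglyMeasurable h := hh.stronglyMeasurable
  have hc : Continuous fun q : (E →L[ℝ] ℝ) × E => q.1 q.2 :=
    isBoundedBilinearMap_apply.continuous
  exact hc.comp_stronglyMeasurable (h1.prodMk h2)

theorem int_mul {ζ : E → ℝ} (hζ : Continuous ζ) (hζc : HasCompactSupport ζ) {F G : E → ℝ}
    (hF : AEStronglyMeasurable F volume) (hG : Continuous G) (hFG : ∀ x, |F x| ≤ G x) :
    Integrable (fun x => ζ x * F x) := by
  have h1 : Integrable (fun x => ζ x * G x) :=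
    (hζ.mul hG).integrable_of_hasCompactSupport hζc.mul_right
  refine h1.mono (hζ.aestronglyMeasurable.mul hF) (ae_of_all _ fun x => ?_)
  simp only [norm_mul, Real.norm_eq_abs]
  have := hFG x
  have h2 : |F x| ≤ |G x| := this.trans (le_abs_self _)
  exact mul_le_mul_of_nonneg_left h2 (abs_nonneg _)

theorem int_app {ζ : E → ℝ} (hζ : Continuous ζ) (hζc : HasCompactSupport ζ) {S : E → ℝ}
    (hS : ContDiff ℝ ∞ S) {h : E → E} (hh : Measurable h) {C : ℝ} (hC : ∀ x, ‖h x‖ ≤ C) :
    Integrable (fun x => ζ x * fderiv ℝ S x (h x)) := by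
  refine int_mul hζ hζc (sm_app hS hh).aestronglyMeasurable
    (G := fun x => ‖fderiv ℝ S x‖ * C) ?_ ?_
  · exact (hS.continuous_fderiv (by simp)).norm.mul continuous_const
  · intro x
    calc |fderiv ℝ S x (h x)| ≤ ‖fderiv ℝ S x‖ * ‖h x‖ := (fderiv ℝ S x).le_opNorm _
      _ ≤ _ := mul_le_mul_of_nonneg_left (hC x) (norm_nonneg _)

/-- separation of two sets -/
def Sep (ζ : E → ℝ) (h : E → E) (A B : Set E) : Prop :=
  ∀ ϱ : ℝ, 0 < ϱ → ∃ S : E → ℝ, ContDiff ℝ ∞ S ∧ (∀ x, 0 ≤ S x ∧ S x ≤ 1) ∧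
      ∫ x, ζ x * |fderiv ℝ S x (h x)| ≤ ϱ ∧
      ∫ x in A, ζ x * (1 - S x) ≤ ϱ ∧
      ∫ x in B, ζ x * S x ≤ ϱ

theorem Sep.symm {ζ : E → ℝ} {h : E → E} {A B : Set E} (H : Sep ζ h A B) : Sep ζ h B A := by
  intro ϱ hϱ
  obtain ⟨S, hS, h01, h1, h2, h3⟩ := H ϱ hϱ
  refine ⟨fun x => 1 - S x, contDiff_const.sub hS, fun x => ⟨by linarith [(h01 x).2],
    by linarith [(h01 x).1]⟩, ?_, ?_, ?_⟩
  · have : ∀ x, |fderiv ℝ (fun x => 1 - S x) x (h x)| = |fderiv ℝ S x (h x)| := by
      intro x
      rw [fderiv_const_sub]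
      simp
    simp only [this]
    exact h1
  · simpa using h3
  · exact h2

theorem sep_empty (ζ : E → ℝ) (h : E → E) (B : Set E) : Sep ζ h ∅ B := by
  intro ϱ hϱ
  refine ⟨fun _ => 0, contDiff_const, fun x => by simp, ?_, ?_, ?_⟩
  · simp [hϱ.le]
  · simp [hϱ.le]
  · simp [hϱ.le]

theorem setInt_union_le {A B : Set E} {f : E → ℝ} (hf : Integrable f) (hf0 : ∀ x, 0 ≤ f x) :
    ∫ x in A ∪ B, f x ≤ (∫ x in A, f x) + ∫ x in B, f x := by
  rw [← integral_add_measure hf.integrableOn hf.integrableOn]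
  refine integral_mono_measure (Measure.restrict_union_le _ _) (ae_of_all _ hf0) ?_
  exact (hf.restrict (s := A)).add_measure (hf.restrict (s := B))

theorem sep_union {ζ : E → ℝ} (hζ : Continuous ζ) (hζc : HasCompactSupport ζ)
    (hζ0 : ∀ x, 0 ≤ ζ x) {h : E → E} (hh : Measurable h) {C : ℝ} (hC : ∀ x, ‖h x‖ ≤ C)
    {A₁ A₂ B : Set E} (H₁ : Sep ζ h A₁ B) (H₂ : Sep ζ h A₂ B) : Sep ζ h (A₁ ∪ A₂) B := by
  intro ϱ hϱ
  obtain ⟨S, hS, hS01, a1, a2, a3⟩ := H₁ (ϱ / 2) (by positivity)
  obtain ⟨T, hT, hT01, b1, b2, b3⟩ := H₂ (ϱ / 2) (by positivity)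
  have hSd : Differentiable ℝ S := hS.differentiable (by simp)
  have hTd : Differentiable ℝ T := hT.differentiable (by simp)
  have hint : ∀ {U : E → ℝ}, ContDiff ℝ ∞ U → Integrable fun x => ζ x * |fderiv ℝ U x (h x)| := by
    intro U hU
    have := (int_app hζ hζc hU hh hC).abs
    refine this.congr (ae_of_all _ fun x => ?_)
    simp only [abs_mul, abs_of_nonneg (hζ0 x)]
  have hintc : ∀ {U : E → ℝ}, Continuous U → Integrable fun x => ζ x * U x := by
    intro U hU
    exact (hζ.mul hU).integrable_of_hasCompactSupport hζc.mul_right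
  refine ⟨fun x => 1 - (1 - S x) * (1 - T x), by fun_prop, fun x => ⟨?_, ?_⟩, ?_, ?_, ?_⟩
  · have := hS01 x; have := hT01 x
    nlinarith
  · have := hS01 x; have := hT01 x
    nlinarith
  · have key : ∀ x, ζ x * |fderiv ℝ (fun x => 1 - (1 - S x) * (1 - T x)) x (h x)| ≤
        ζ x * |fderiv ℝ S x (h x)| + ζ x * |fderiv ℝ T x (h x)| := by
      intro x
      have e : fderiv ℝ (fun x => 1 - (1 - S x) * (1 - T x)) x (h x) =
          (1 - T x) * fderiv ℝ S x (h x) + (1 - S x) * fderiv ℝ T x (h x) := by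
        have d1 : HasFDerivAt (fun x => 1 - S x) (-fderiv ℝ S x) x :=
          (hSd x).hasFDerivAt.const_sub 1
        have d2 : HasFDerivAt (fun x => 1 - T x) (-fderiv ℝ T x) x :=
          (hTd x).hasFDerivAt.const_sub 1
        have d3 := (d1.fun_mul d2).const_sub 1
        rw [d3.fderiv]
        simp
      rw [e, ← mul_add]
      refine mul_le_mul_of_nonneg_left ?_ (hζ0 x)
      refine (abs_add_le _ _).trans ?_
      rw [abs_mul, abs_mul]
      have := hS01 x; have := hT01 x
      have q1 : |1 - T x| ≤ 1 := by rw [abs_le]; constructor <;> linarith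
      have q2 : |1 - S x| ≤ 1 := by rw [abs_le]; constructor <;> linarith
      have := mul_le_mul_of_nonneg_right q1 (abs_nonneg (fderiv ℝ S x (h x)))
      have := mul_le_mul_of_nonneg_right q2 (abs_nonneg (fderiv ℝ T x (h x)))
      linarith
    have hU : ContDiff ℝ ∞ (fun x => 1 - (1 - S x) * (1 - T x)) := by fun_prop
    calc _ ≤ ∫ x, (ζ x * |fderiv ℝ S x (h x)| + ζ x * |fderiv ℝ T x (h x)|) :=
          integral_mono (hint hU) ((hint hS).add (hint hT)) key
      _ = (∫ x, ζ x * |fderiv ℝ S x (h x)|) + ∫ x, ζ x * |fderiv ℝ T x (h x)| :=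
          integral_add (hint hS) (hint hT)
      _ ≤ ϱ := by linarith
  · have i0 : Integrable fun x => ζ x * (1 - (1 - (1 - S x) * (1 - T x))) :=
      hintc (by fun_prop)
    have p0 : ∀ x, 0 ≤ ζ x * (1 - (1 - (1 - S x) * (1 - T x))) := by
      intro x
      refine mul_nonneg (hζ0 x) ?_
      have := hS01 x; have := hT01 x
      have : 0 ≤ (1 - S x) * (1 - T x) := mul_nonneg (by linarith) (by linarith)
      linarith
    refine (setInt_union_le i0 p0).trans ?_
    have c1 : ∫ x in A₁, ζ x * (1 - (1 - (1 - S x) * (1 - T x))) ≤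
        ∫ x in A₁, ζ x * (1 - S x) := by
      refine integral_mono i0.integrableOn (hintc (by fun_prop)).integrableOn fun x => ?_
      refine mul_le_mul_of_nonneg_left ?_ (hζ0 x)
      have := hS01 x; have := hT01 x
      nlinarith
    have c2 : ∫ x in A₂, ζ x * (1 - (1 - (1 - S x) * (1 - T x))) ≤
        ∫ x in A₂, ζ x * (1 - T x) := by
      refine integral_mono i0.integrableOn (hintc (by fun_prop)).integrableOn fun x => ?_
      refine mul_le_mul_of_nonneg_left ?_ (hζ0 x)
      have := hS01 x; have := hT01 x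
      nlinarith
    linarith
  · have i0 : Integrable fun x => ζ x * (1 - (1 - S x) * (1 - T x)) :=
      hintc (by fun_prop)
    calc _ ≤ ∫ x in B, (ζ x * S x + ζ x * T x) := by
          refine integral_mono i0.integrableOn
            ((hintc (by fun_prop)).integrableOn.add (hintc (by fun_prop)).integrableOn)
            fun x => ?_
          show ζ x * (1 - (1 - S x) * (1 - T x)) ≤ ζ x * S x + ζ x * T x
          rw [← mul_add]
          refine mul_le_mul_of_nonneg_left ?_ (hζ0 x)
          have := hS01 x; have := hT01 x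
          nlinarith
      _ = (∫ x in B, ζ x * S x) + ∫ x in B, ζ x * T x :=
          integral_add (hintc (by fun_prop)).integrableOn (hintc (by fun_prop)).integrableOn
      _ ≤ ϱ := by linarith

theorem sep_biUnion {ζ : E → ℝ} (hζ : Continuous ζ) (hζc : HasCompactSupport ζ)
    (hζ0 : ∀ x, 0 ≤ ζ x) {h : E → E} (hh : Measurable h) {C : ℝ} (hC : ∀ x, ‖h x‖ ≤ C)
    {α : Type*} (s : Finset α) (A : α → Set E) {B : Set E} (H : ∀ i ∈ s, Sep ζ h (A i) B) :
    Sep ζ h (⋃ i ∈ s, A i) B := by
  classical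
  induction s using Finset.induction_on with
  | empty => simpa using sep_empty ζ h B
  | insert a s ha ih =>
    rw [Finset.set_biUnion_insert]
    refine sep_union hζ hζc hζ0 hh hC (H a (Finset.mem_insert_self a s)) (ih ?_)
    exact fun i hi => H i (Finset.mem_insert_of_mem hi)

/-- grid point -/
noncomputable def grid (v w : E) (n k : ℕ) : E := v + ((k : ℝ) / n) • (w - v)

theorem grid_mem_open {v w : E} {n k : ℕ} (hk0 : 0 < k) (hkn : k < n) :
    grid v w n k ∈ openSegment ℝ v w := by
  have hn : (0 : ℝ) < n := by exact_mod_cast (hk0.trans hkn)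
  rw [openSegment_eq_image']
  refine ⟨(k : ℝ) / n, ⟨by positivity, ?_⟩, rfl⟩
  rw [div_lt_one hn]
  exact_mod_cast hkn

theorem grid_between {v w : E} {n : ℕ} (hn : 0 < n) {s t : ℝ} (hs : 0 ≤ s) (ht : t ≤ 1)
    (hst : s + 1 / n < t) :
    ∃ k : ℕ, 0 < k ∧ k < n ∧ grid v w n k ∈ segment ℝ (v + s • (w - v)) (v + t • (w - v)) := by
  have hn' : (0 : ℝ) < n := by exact_mod_cast hn
  refine ⟨⌊(n : ℝ) * s⌋₊ + 1, Nat.succ_pos _, ?_, ?_⟩
  · have h1 : ((⌊(n : ℝ) * s⌋₊ : ℕ) : ℝ) ≤ n * s := Nat.floor_le (by positivity)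
    have h2 : (n : ℝ) * (s + 1 / n) < n * t := mul_lt_mul_of_pos_left hst hn'
    have h3 : (n : ℝ) * (s + 1 / n) = n * s + 1 := by field_simp
    have h4 : (n : ℝ) * t ≤ n := by nlinarith
    have : ((⌊(n : ℝ) * s⌋₊ + 1 : ℕ) : ℝ) < n := by
      push_cast
      linarith
    exact_mod_cast this
  · set k := ⌊(n : ℝ) * s⌋₊ + 1 with hk
    have h1 : (n : ℝ) * s < (k : ℝ) := by
      have := Nat.lt_floor_add_one ((n : ℝ) * s)
      rw [hk]
      push_cast
      exact this
    have h2 : (k : ℝ) ≤ n * s + 1 := by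
      have := Nat.floor_le (a := (n : ℝ) * s) (by positivity)
      rw [hk]
      push_cast
      linarith
    have h3 : s < (k : ℝ) / n := by
      rw [lt_div_iff₀ hn']
      linarith
    have h4 : (k : ℝ) / n < t := by
      refine lt_of_le_of_lt ?_ hst
      rw [div_le_iff₀ hn']
      have : (s + 1 / (n : ℝ)) * n = n * s + 1 := by field_simp
      rw [this]
      exact h2
    have hts : 0 < t - s := by linarith
    rw [segment_eq_image']
    refine ⟨((k : ℝ) / n - s) / (t - s), ⟨?_, ?_⟩, ?_⟩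
    · apply div_nonneg <;> linarith
    · rw [div_le_one hts]
      linarith
    · unfold grid
      have e : v + t • (w - v) - (v + s • (w - v)) = (t - s) • (w - v) := by
        rw [sub_smul]
        abel
      simp only [e, smul_smul]
      rw [div_mul_cancel₀ _ hts.ne', add_assoc, ← add_smul]
      congr 2
      ring

theorem exists_grid {v w a b : E} {n : ℕ} (hn : 0 < n) (ha : a ∈ segment ℝ v w)
    (hb : b ∈ segment ℝ v w) (hab : ‖w - v‖ < n * ‖a - b‖) :
    ∃ k : ℕ, 0 < k ∧ k < n ∧ grid v w n k ∈ segment ℝ a b := by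
  have hn' : (0 : ℝ) < n := by exact_mod_cast hn
  rw [segment_eq_image'] at ha hb
  obtain ⟨s, ⟨hs0, hs1⟩, rfl⟩ := ha
  obtain ⟨t, ⟨ht0, ht1⟩, rfl⟩ := hb
  have e : v + s • (w - v) - (v + t • (w - v)) = (s - t) • (w - v) := by
    rw [sub_smul]
    abel
  rw [e, norm_smul, Real.norm_eq_abs] at hab
  have hpos : 0 < ‖w - v‖ := by
    by_contra hcon
    have : ‖w - v‖ = 0 := le_antisymm (not_lt.mp hcon) (norm_nonneg _)
    rw [this] at hab
    simp at hab
  have h1 : 1 < n * |s - t| := by
    by_contra hcon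
    push Not at hcon
    have := mul_le_mul_of_nonneg_right hcon hpos.le
    nlinarith
  have h2 : 1 / (n : ℝ) < |s - t| := by
    rw [div_lt_iff₀ hn']
    linarith
  rcases le_total s t with hst | hst
  · rw [abs_of_nonpos (by linarith)] at h2
    exact grid_between hn hs0 ht1 (by linarith)
  · rw [abs_of_nonneg (by linarith)] at h2
    obtain ⟨k, hk0, hkn, hk⟩ := grid_between (v := v) (w := w) hn ht0 hs1 (s := t) (t := s)
      (by linarith)
    refine ⟨k, hk0, hkn, ?_⟩
    rw [segment_symm]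
    exact hk

theorem exists_cutoff {K Ω : Set E} (hK : IsCompact K) (hΩ : IsOpen Ω) (hKΩ : K ⊆ Ω) :
    ∃ ζ : E → ℝ, Test ζ ∧ (∀ x, 0 ≤ ζ x) ∧ (∀ x, ζ x ≤ 1) ∧ tsupport ζ ⊆ Ω ∧
      ∀ x ∈ K, ζ x = 1 := by
  obtain ⟨L, hL, hKL, hLΩ⟩ := exists_compact_between hK hΩ hKΩ
  obtain ⟨f, hf1, hf0, hf⟩ := exists_contMDiffMap_one_nhds_of_subset_interior
    (n := (⊤ : ℕ∞)) (modelWithCornersSelf ℝ E) hK.isClosed hKL
  have hsupp : Function.support (f : E → ℝ) ⊆ L := by
    intro x hx
    by_contra hxL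
    exact hx (hf0 x hxL)
  have hts : tsupport (f : E → ℝ) ⊆ L := closure_minimal hsupp hL.isClosed
  refine ⟨f, ⟨f.contMDiff.contDiff, ?_⟩, fun x => (hf x).1, fun x => (hf x).2,
    hts.trans hLΩ, fun x hx => ?_⟩
  · exact HasCompactSupport.of_support_subset_isCompact hL hsupp
  · have := hf1.self_of_nhdsSet
    exact this x hx

theorem type_divergence_free {ι : Type*} [Fintype ι] (v w : ι → E) (hvw : ∀ j, v j ≠ w j)
    (hdisj : ∀ j k, j ≠ k → ∀ m ∈ openSegment ℝ (v j) (w j), m ∉ segment ℝ (v k) (w k))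
    (Ω : Set E) (hΩ : IsOpen Ω) (hΩb : Bornology.IsBounded Ω)
    (g₁ g₂ : E → E) (hg₁ : Measurable g₁) (hg₂ : Measurable g₂)
    (C : ℝ) (hC : ∀ x, ‖g₁ x - g₂ x‖ ≤ C)
    (hdiv : ∀ ψ : E → ℝ, Test ψ → tsupport ψ ⊆ Ω → ∫ x, fderiv ℝ ψ x (g₁ x - g₂ x) = 0)
    (htype : ∀ᵐ x, x ∈ Ω → g₁ x ≠ g₂ x →
      ∃ j, g₁ x ∈ segment ℝ (v j) (w j) ∧ g₂ x ∈ segment ℝ (v j) (w j))
    (hsep : ∀ j k, j ≠ k → ∀ m ∈ openSegment ℝ (v j) (w j), ∀ m' ∈ openSegment ℝ (v k) (w k),
      ∀ ζ : E → ℝ, Test ζ → (∀ x, 0 ≤ ζ x) → tsupport ζ ⊆ Ω → ∀ ϱ : ℝ, 0 < ϱ →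
      ∃ S : E → ℝ, ContDiff ℝ ∞ S ∧ (∀ x, 0 ≤ S x ∧ S x ≤ 1) ∧
      ∫ x, ζ x * |fderiv ℝ S x (g₁ x - g₂ x)| ≤ ϱ ∧
      ∫ x in {x | m ∈ segment ℝ (g₁ x) (g₂ x)}, ζ x * (1 - S x) ≤ ϱ ∧
      ∫ x in {x | m' ∈ segment ℝ (g₁ x) (g₂ x)}, ζ x * S x ≤ ϱ)
    (j : ι) (ψ : E → ℝ) (hψ : Test ψ) (hψΩ : tsupport ψ ⊆ Ω) :
    ∫ x in {x | g₁ x ≠ g₂ x ∧ g₁ x ∈ segment ℝ (v j) (w j) ∧ g₂ x ∈ segment ℝ (v j) (w j)},
      fderiv ℝ ψ x (g₁ x - g₂ x) = 0 := by
  classical
  have hhm : Measurable fun x => g₁ x - g₂ x := hg₁.sub hg₂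
  have hC0 : 0 ≤ C := (norm_nonneg _).trans (hC 0)
  obtain ⟨ζ, hζ, hζ0, hζ1, hζΩ, hζψ⟩ := exists_cutoff (K := tsupport ψ) hψ.2 hΩ hψΩ
  obtain ⟨Mψ, hMψ⟩ : ∃ M : ℝ, ∀ x, |ψ x| ≤ M := by
    obtain ⟨M, hM⟩ := hψ.1.continuous.bounded_above_of_compact_support hψ.2
    exact ⟨M, fun x => hM x⟩
  have hMψ0 : 0 ≤ Mψ := (abs_nonneg _).trans (hMψ 0)
  have hcf : Continuous (fderiv ℝ ψ) := continuous_fderiv_test hψ
  have hcfs : HasCompactSupport (fderiv ℝ ψ) := hψ.2.fderiv ℝ
  obtain ⟨M, hM⟩ : ∃ M : ℝ, ∀ x, ‖fderiv ℝ ψ x‖ ≤ M :=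
    hcf.bounded_above_of_compact_support hcfs
  have hM0 : 0 ≤ M := (norm_nonneg _).trans (hM 0)
  set h : E → E := fun x => g₁ x - g₂ x with hh
  set F : E → ℝ := fun x => fderiv ℝ ψ x (h x) with hF
  set Ej : Set E := {x | g₁ x ≠ g₂ x ∧ g₁ x ∈ segment ℝ (v j) (w j) ∧
    g₂ x ∈ segment ℝ (v j) (w j)} with hEj
  have hEjm : MeasurableSet Ej := by
    have s1 : MeasurableSet (segment ℝ (v j) (w j)) := by
      have : IsCompact (segment ℝ (v j) (w j)) := by
        rw [segment_eq_image']
        exact isCompact_Icc.image (by fun_prop)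
      exact this.measurableSet
    have s2 : MeasurableSet {x | g₁ x ≠ g₂ x} := (measurableSet_eq_fun hg₁ hg₂).compl
    exact s2.inter ((hg₁ s1).inter (hg₂ s1))
  have hFsm : StronglyMeasurable F := sm_app hψ.1 hhm
  have hF0 : ∀ x, x ∉ tsupport ψ → F x = 0 := by
    intro x hx
    have : fderiv ℝ ψ x = 0 := by
      by_contra hne
      exact hx (support_fderiv_subset ℝ hne)
    simp [hF, this]
  have hFM : ∀ x, |F x| ≤ M * ‖h x‖ := fun x =>
    ((fderiv ℝ ψ x).le_opNorm _).trans (mul_le_mul_of_nonneg_right (hM x) (norm_nonneg _))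
  have hFint : Integrable F := by
    have := int_app hζ.1.continuous hζ.2 hψ.1 hhm hC
    refine this.congr (ae_of_all _ fun x => ?_)
    by_cases hx : x ∈ tsupport ψ
    · simp [hζψ x hx, hF, hh]
    · have := hF0 x hx
      simp only [hF] at this ⊢
      rw [this, mul_zero]
  rw [← integral_indicator hEjm]
  -- main estimate
  have main : ∀ η : ℝ, 0 < η → ∀ ϱ : ℝ, 0 < ϱ →
      |∫ x, Ej.indicator F x| ≤ Mψ * ϱ + (M * C * ϱ + M * C * ϱ +
        M * η * (volume (tsupport ψ)).toReal) := by
    intro η hη ϱ hϱ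
    obtain ⟨n, hn0, hn⟩ : ∃ n : ℕ, 0 < n ∧ ∀ l, ‖w l - v l‖ < n * η := by
      obtain ⟨n, hn⟩ := exists_nat_gt (∑ l, ‖w l - v l‖ / η)
      refine ⟨n, ?_, fun l => ?_⟩
      · have : (0 : ℝ) < n := lt_of_le_of_lt (Finset.sum_nonneg fun l _ => by positivity) hn
        exact_mod_cast this
      · have h1 : ‖w l - v l‖ / η ≤ ∑ l, ‖w l - v l‖ / η :=
          Finset.single_le_sum (f := fun l => ‖w l - v l‖ / η) (fun l _ => by positivity)
            (Finset.mem_univ l)
        have := lt_of_le_of_lt h1 hn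
        rwa [div_lt_iff₀ hη] at this
    set Em : ι → ℕ → Set E := fun l k => {x | grid (v l) (w l) n k ∈ segment ℝ (g₁ x) (g₂ x)}
      with hEm
    have hEmm : ∀ l k, MeasurableSet (Em l k) := fun l k => measurableSet_Em g₁ g₂ hg₁ hg₂ _
    set A : Set E := ⋃ k ∈ Finset.Ioo 0 n, Em j k with hA
    set B : Set E := ⋃ l ∈ Finset.univ.erase j, ⋃ k ∈ Finset.Ioo 0 n, Em l k with hB
    have hAm : MeasurableSet A := Finset.measurableSet_biUnion _ fun k _ => hEmm j k
    have hBm : MeasurableSet B := Finset.measurableSet_biUnion _ fun l _ =>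
      Finset.measurableSet_biUnion _ fun k _ => hEmm l k
    have hAB : Sep ζ h A B := by
      refine sep_biUnion hζ.1.continuous hζ.2 hζ0 hhm hC _ _ fun k hk => ?_
      refine Sep.symm ?_
      refine sep_biUnion hζ.1.continuous hζ.2 hζ0 hhm hC _ _ fun l hl => ?_
      refine sep_biUnion hζ.1.continuous hζ.2 hζ0 hhm hC _ _ fun k' hk' => ?_
      rw [Finset.mem_Ioo] at hk hk'
      have hlj : l ≠ j := Finset.ne_of_mem_erase hl
      intro ϱ hϱ
      exact hsep l j hlj _ (grid_mem_open hk'.1 hk'.2) _ (grid_mem_open hk.1 hk.2) ζ hζ hζ0 hζΩ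
        ϱ hϱ
    obtain ⟨S, hS, hS01, s1, s2, s3⟩ := hAB ϱ hϱ
    -- the product test function
    have hprod : ∫ x, (S x * F x + ψ x * fderiv ℝ S x (h x)) = 0 := by
      have ht : Test fun x => ψ x * S x := ⟨hψ.1.mul hS, hψ.2.mul_right⟩
      have hts : tsupport (fun x => ψ x * S x) ⊆ Ω :=
        (closure_mono (Function.support_mul_subset_left _ _)).trans hψΩ
      have := hdiv _ ht hts
      rw [← this]
      refine integral_congr_ae (ae_of_all _ fun x => ?_)
      have d1 := (hψ.1.differentiable (by simp) x).hasFDerivAt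
      have d2 := (hS.differentiable (by simp) x).hasFDerivAt
      have d3 := (d1.fun_mul d2).fderiv
      simp only
      rw [d3]
      simp [hF, hh]
      ring
    have iSF : Integrable fun x => S x * F x := by
      refine hFint.mono (hS.continuous.aestronglyMeasurable.mul hFsm.aestronglyMeasurable)
        (ae_of_all _ fun x => ?_)
      rw [norm_mul, Real.norm_eq_abs, abs_of_nonneg (hS01 x).1]
      exact mul_le_of_le_one_left (norm_nonneg _) (hS01 x).2
    have iψS : Integrable fun x => ψ x * fderiv ℝ S x (h x) :=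
      int_app hψ.1.continuous hψ.2 hS hhm hC
    have iζS : Integrable fun x => ζ x * |fderiv ℝ S x (h x)| := by
      have := (int_app hζ.1.continuous hζ.2 hS hhm hC).abs
      refine this.congr (ae_of_all _ fun x => ?_)
      simp only [abs_mul, abs_of_nonneg (hζ0 x)]
    rw [integral_add iSF iψS] at hprod
    have b1 : |∫ x, ψ x * fderiv ℝ S x (h x)| ≤ Mψ * ϱ := by
      have : ‖∫ x, ψ x * fderiv ℝ S x (h x)‖ ≤ ∫ x, Mψ * (ζ x * |fderiv ℝ S x (h x)|) := by
        refine norm_integral_le_of_norm_le (iζS.const_mul _) (ae_of_all _ fun x => ?_)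
        rw [norm_mul, Real.norm_eq_abs, Real.norm_eq_abs]
        by_cases hx : x ∈ tsupport ψ
        · rw [hζψ x hx, one_mul]
          exact mul_le_mul_of_nonneg_right (hMψ x) (abs_nonneg _)
        · have : ψ x = 0 := image_eq_zero_of_notMem_tsupport hx
          rw [this, abs_zero, zero_mul]
          exact mul_nonneg hMψ0 (mul_nonneg (hζ0 x) (abs_nonneg _))
      rw [Real.norm_eq_abs, integral_const_mul] at this
      exact this.trans (mul_le_mul_of_nonneg_left s1 hMψ0)
    have b2 : |∫ x, (S x * F x - Ej.indicator F x)| ≤ M * C * ϱ + M * C * ϱ +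
        M * η * (volume (tsupport ψ)).toReal := by
      have hK : IsCompact (tsupport ψ) := hψ.2
      have hfin : volume (tsupport ψ) ≠ ⊤ := hK.measure_lt_top.ne
      have iA : Integrable (A.indicator fun x => ζ x * (1 - S x)) :=
        ((hζ.1.continuous.mul (continuous_const.sub hS.continuous)).integrable_of_hasCompactSupport
          hζ.2.mul_right).indicator hAm
      have iB : Integrable (B.indicator fun x => ζ x * S x) :=
        ((hζ.1.continuous.mul hS.continuous).integrable_of_hasCompactSupport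
          hζ.2.mul_right).indicator hBm
      have iK : Integrable ((tsupport ψ).indicator fun _ : E => M * η) :=
        (integrable_indicator_iff hK.measurableSet).2 (integrableOn_const hfin)
      have : ‖∫ x, (S x * F x - Ej.indicator F x)‖ ≤
          ∫ x, (M * C * A.indicator (fun x => ζ x * (1 - S x)) x +
            M * C * B.indicator (fun x => ζ x * S x) x +
            (tsupport ψ).indicator (fun _ => M * η) x) := by
        refine norm_integral_le_of_norm_le (((iA.const_mul _).add (iB.const_mul _)).add iK) ?_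
        filter_upwards [htype] with x hx
        have nA : 0 ≤ A.indicator (fun x => ζ x * (1 - S x)) x :=
          indicator_nonneg (fun x _ => mul_nonneg (hζ0 x) (by linarith [(hS01 x).2])) x
        have nB : 0 ≤ B.indicator (fun x => ζ x * S x) x :=
          indicator_nonneg (fun x _ => mul_nonneg (hζ0 x) (hS01 x).1) x
        have hMC : 0 ≤ M * C := mul_nonneg hM0 hC0
        by_cases hxK : x ∈ tsupport ψ
        · rw [indicator_of_mem hxK]
          have hxΩ : x ∈ Ω := hψΩ hxK
          by_cases hη' : ‖h x‖ < η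
          · have h1 : |F x| ≤ M * η := (hFM x).trans
              (mul_le_mul_of_nonneg_left hη'.le hM0)
            have h2 : ‖S x * F x - Ej.indicator F x‖ ≤ |F x| := by
              rw [Real.norm_eq_abs]
              by_cases hxE : x ∈ Ej
              · rw [indicator_of_mem hxE]
                have : S x * F x - F x = -((1 - S x) * F x) := by ring
                rw [this, abs_neg, abs_mul, abs_of_nonneg (by linarith [(hS01 x).2])]
                exact mul_le_of_le_one_left (abs_nonneg _) (by linarith [(hS01 x).1])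
              · rw [indicator_of_notMem hxE, sub_zero, abs_mul, abs_of_nonneg (hS01 x).1]
                exact mul_le_of_le_one_left (abs_nonneg _) (hS01 x).2
            have := mul_nonneg hMC nA
            have := mul_nonneg hMC nB
            linarith
          · rw [not_lt] at hη'
            have hne : g₁ x ≠ g₂ x := by
              intro heq
              have : h x = 0 := by simp [hh, heq]
              rw [this, norm_zero] at hη'
              linarith
            have hFC : |F x| ≤ M * C := (hFM x).trans (mul_le_mul_of_nonneg_left (hC x) hM0)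
            have grid' : ∀ l, g₁ x ∈ segment ℝ (v l) (w l) → g₂ x ∈ segment ℝ (v l) (w l) →
                ∃ k ∈ Finset.Ioo 0 n, x ∈ Em l k := by
              intro l h1 h2
              obtain ⟨k, hk0, hkn, hk⟩ := exists_grid (v := v l) (w := w l) hn0 h1 h2
                (lt_of_lt_of_le (hn l) (mul_le_mul_of_nonneg_left hη' (by positivity)))
              exact ⟨k, Finset.mem_Ioo.2 ⟨hk0, hkn⟩, hk⟩
            have hMη : 0 ≤ M * η := mul_nonneg hM0 hη.le
            by_cases hxE : x ∈ Ej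
            · have hxA : x ∈ A := by
                obtain ⟨k, hk, hxk⟩ := grid' j hxE.2.1 hxE.2.2
                exact mem_biUnion (x := k) hk hxk
              rw [indicator_of_mem hxE, indicator_of_mem hxA, hζψ x hxK, one_mul]
              have e : S x * F x - F x = -((1 - S x) * F x) := by ring
              rw [e, norm_neg, norm_mul, Real.norm_eq_abs, Real.norm_eq_abs,
                abs_of_nonneg (by linarith [(hS01 x).2])]
              have := mul_nonneg hMC nB
              have := mul_le_mul_of_nonneg_left hFC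
                (show 0 ≤ 1 - S x by linarith [(hS01 x).2])
              linarith
            · have hxB : x ∈ B := by
                obtain ⟨l, hl1, hl2⟩ := hx hxΩ hne
                have hlj : l ≠ j := by
                  rintro rfl
                  exact hxE ⟨hne, hl1, hl2⟩
                obtain ⟨k, hk, hxk⟩ := grid' l hl1 hl2
                refine mem_biUnion (x := l) (Finset.mem_erase.2 ⟨hlj, Finset.mem_univ l⟩) ?_
                exact mem_biUnion (x := k) hk hxk
              rw [indicator_of_notMem hxE, indicator_of_mem hxB, hζψ x hxK, one_mul, sub_zero,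
                norm_mul, Real.norm_eq_abs, Real.norm_eq_abs, abs_of_nonneg (hS01 x).1]
              have := mul_nonneg hMC nA
              have := mul_le_mul_of_nonneg_left hFC (hS01 x).1
              linarith
        · have hFx := hF0 x hxK
          have : Ej.indicator F x = 0 := by
            by_cases hxE : x ∈ Ej
            · rw [indicator_of_mem hxE, hFx]
            · rw [indicator_of_notMem hxE]
          rw [indicator_of_notMem hxK, hFx, this]
          simp only [mul_zero, sub_zero, norm_zero, add_zero]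
          exact add_nonneg (mul_nonneg hMC nA) (mul_nonneg hMC nB)
      rw [Real.norm_eq_abs] at this
      refine this.trans ?_
      have iAB : Integrable fun x => M * C * A.indicator (fun x => ζ x * (1 - S x)) x +
            M * C * B.indicator (fun x => ζ x * S x) x := (iA.const_mul _).add (iB.const_mul _)
      rw [integral_add iAB iK,
        integral_add (iA.const_mul _) (iB.const_mul _), integral_const_mul, integral_const_mul,
        integral_indicator hAm, integral_indicator hBm, integral_indicator hK.measurableSet,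
        setIntegral_const, smul_eq_mul, measureReal_def]
      have hMC : 0 ≤ M * C := mul_nonneg hM0 hC0
      have := mul_le_mul_of_nonneg_left s2 hMC
      have := mul_le_mul_of_nonneg_left s3 hMC
      linarith
    have iE : Integrable (Ej.indicator F) := hFint.indicator hEjm
    rw [integral_sub iSF iE] at b2
    rw [abs_le] at b1 b2 ⊢
    constructor
    · linarith [b1.1, b1.2, b2.1, b2.2]
    · linarith [b1.1, b1.2, b2.1, b2.2]
  -- conclusion
  by_contra hne
  have hpos : 0 < |∫ x, Ej.indicator F x| := abs_pos.2 hne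
  set K : ℝ := Mψ + (M * C + M * C + M * (volume (tsupport ψ)).toReal) with hK
  have hK0 : 0 ≤ K := by positivity
  have := main (|∫ x, Ej.indicator F x| / (2 * (K + 1))) (by positivity)
    (|∫ x, Ej.indicator F x| / (2 * (K + 1))) (by positivity)
  set I := |∫ x, Ej.indicator F x| with hI
  have e : Mψ * (I / (2 * (K + 1))) + (M * C * (I / (2 * (K + 1))) + M * C * (I / (2 * (K + 1))) +
      M * (I / (2 * (K + 1))) * (volume (tsupport ψ)).toReal) = K * (I / (2 * (K + 1))) := by
    rw [hK]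
    ring
  rw [e] at this
  have h2 : K * (I / (2 * (K + 1))) ≤ I / 2 := by
    rw [mul_div_assoc', div_le_div_iff₀ (by positivity) (by positivity)]
    nlinarith
  linarith

end Helper67.Dimer
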