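import Pool.Agent.Helper47.RR.Defs

/-!
# The Hurwitz inequality via the cotrace of Weil differentials (module RR-D2)
-/

set_option autoImplicit false
set_option linter.style.haveILetI false
set_option linter.unusedSectionVars false

namespace Pool.Agent.Helper47.RR

open Pool.Agent.Helper16 Pool.Agent.Helper45.S4

variable {k L M : Type} [Field k] [Field L] [Field M] [Algebra k L] [Algebra k M] [Algebra L M]
  [IsScalarTower k L M]

section con

variable [IsAlgClosed k] (hN : IsFunctionField k L) [FiniteDimensional L M]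

/-- the places above a place -/
noncomputable def fib (v : Place k L) : Finset (Place k M) := (sum_ram (M := M) hN v).choose

theorem mem_fib (v : Place k L) (w : Place k M) : w ∈ fib (M := M) hN v ↔ resPl hN w = v :=
  (sum_ram (M := M) hN v).choose_spec.1 w

theorem sum_fib (v : Place k L) :
    ∑ w ∈ fib (M := M) hN v, ram hN w = Module.finrank L M :=
  (sum_ram (M := M) hN v).choose_spec.2

/-- the conorm of a divisor -/
noncomputable def Con (D : Dv k L) : Dv k M :=
  Finsupp.ofSupportFinite (fun w : Place k M => (ram hN w : ℤ) * D (resPl hN w)) (by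
    classical
    refine (D.support.biUnion fun v => fib (M := M) hN v).finite_toSet.subset ?_
    intro w hw
    rw [Function.mem_support] at hw
    rw [Finset.mem_coe, Finset.mem_biUnion]
    refine ⟨resPl hN w, ?_, (mem_fib hN _ w).2 rfl⟩
    rw [Finsupp.mem_support_iff]
    intro h0
    exact hw (by rw [h0, mul_zero]))

theorem Con_apply (D : Dv k L) (w : Place k M) :
    Con hN D w = (ram hN w : ℤ) * D (resPl hN w) := rfl

theorem degD_Con (D : Dv k L) :
    degD (Con (M := M) hN D) = (Module.finrank L M : ℤ) * degD D := by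
  classical
  set S : Finset (Place k M) := D.support.biUnion fun v => fib (M := M) hN v with hS
  have h1 : degD (Con (M := M) hN D) = ∑ w ∈ S, Con hN D w := by
    unfold degD
    refine Finsupp.sum_of_support_subset _ ?_ _ (fun _ _ => rfl)
    intro w hw
    rw [Finsupp.mem_support_iff, Con_apply] at hw
    rw [hS, Finset.mem_biUnion]
    refine ⟨resPl hN w, ?_, (mem_fib hN _ w).2 rfl⟩
    rw [Finsupp.mem_support_iff]
    intro h0
    exact hw (by rw [h0, mul_zero])
  rw [h1, hS, Finset.sum_biUnion]
  · unfold degD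
    rw [Finsupp.sum, Finset.mul_sum]
    refine Finset.sum_congr rfl fun v _ => ?_
    have h2 : ∑ w ∈ fib (M := M) hN v, Con hN D w =
        ∑ w ∈ fib (M := M) hN v, (ram hN w : ℤ) * D v := by
      refine Finset.sum_congr rfl fun w hw => ?_
      rw [Con_apply, (mem_fib hN v w).1 hw]
    rw [h2, ← Finset.sum_mul, ← Nat.cast_sum, sum_fib]
  · intro v _ v' _ hvv'
    rw [Function.onFun, Finset.disjoint_left]
    intro w hw hw'
    exact hvv' (((mem_fib hN v w).1 hw).symm.trans ((mem_fib hN v' w).1 hw'))

end con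

section cotrace

variable [IsAlgClosed k] (hN : IsFunctionField k L) [FiniteDimensional L M] (W : Dv k L)

/-- `b` (a family indexed by the places of `L`) approximates the pre-adele `α` of `M`. -/
def Rel (α : Place k M → M) (b : Place k L → M) : Prop :=
  ∀ w : Place k M, w.val (b (resPl hN w) - α w) ≤
    WithZero.exp ((ram hN w : ℤ) * W (resPl hN w))

theorem exists_rel
    (hWA : ∀ (S : Finset (Place k M)) (a : Place k M → M) (n : ℤ),
      ∃ x : M, ∀ w ∈ S, w.val (x - a w) ≤ WithZero.exp n)
    (α : Place k M → M) : ∃ b : Place k L → M, Rel hN W α b := by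
  have h : ∀ v : Place k L, ∃ x : M, ∀ w ∈ fib (M := M) hN v,
      w.val (x - α w) ≤ WithZero.exp ((ram hN w : ℤ) * W v) := by
    intro v
    obtain ⟨n, hn⟩ : ∃ n : ℤ, ∀ w ∈ fib (M := M) hN v, n ≤ (ram hN w : ℤ) * W v := by
      have hb : BddBelow ((fun w => (ram hN w : ℤ) * W v) ''
          ((fib (M := M) hN v : Finset (Place k M)) : Set (Place k M))) :=
        ((fib (M := M) hN v).finite_toSet.image _).bddBelow
      obtain ⟨n, hn⟩ := hb
      exact ⟨n, fun w hw => hn ⟨w, hw, rfl⟩⟩
    obtain ⟨x, hx⟩ := hWA (fib (M := M) hN v) α n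
    exact ⟨x, fun w hw => (hx w hw).trans (WithZero.exp_le_exp.2 (hn w hw))⟩
  choose b hb using h
  exact ⟨b, fun w => hb (resPl hN w) w ((mem_fib hN _ w).2 rfl)⟩

theorem trace_mem_Ad
    (hTr : ∀ (v : Place k L) (m : ℤ) (x : M),
      (∀ w : Place k M, resPl hN w = v → w.val x ≤ WithZero.exp ((ram hN w : ℤ) * m)) →
      v.val (Algebra.trace L M x) ≤ WithZero.exp m)
    {α : Place k M → M} (hα : α ∈ Ad k M) {b : Place k L → M} (hb : Rel hN W α b) :
    (fun v => Algebra.trace L M (b v)) ∈ Ad k L := by
  have hfin : ({v : Place k L | v ∈ W.support} ∪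
      (resPl hN) '' {w : Place k M | ¬ w.val (α w) ≤ 1}).Finite :=
    (W.support.finite_toSet).union (Set.Finite.image _ hα)
  refine hfin.subset ?_
  intro v hv
  by_contra hcon
  rw [Set.mem_union, not_or] at hcon
  obtain ⟨h1, h2⟩ := hcon
  have hW : W v = 0 := by
    by_contra hne
    exact h1 (Finsupp.mem_support_iff.2 hne)
  apply hv
  have := hTr v 0 (b v) (fun w hw => ?_)
  · rwa [WithZero.exp_zero] at this
  · rw [mul_zero, WithZero.exp_zero]
    have h3 : w.val (α w) ≤ 1 := by
      by_contra hne
      exact h2 ⟨w, hne, hw⟩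
    have h4 := hb w
    rw [hw, hW, mul_zero, WithZero.exp_zero] at h4
    have h5 : b v = (b v - α w) + α w := by ring
    rw [h5]
    exact (w.val.map_add _ _).trans (max_le h4 h3)

theorem Rel.wd
    (hTr : ∀ (v : Place k L) (m : ℤ) (x : M),
      (∀ w : Place k M, resPl hN w = v → w.val x ≤ WithZero.exp ((ram hN w : ℤ) * m)) →
      v.val (Algebra.trace L M x) ≤ WithZero.exp m)
    {ω : Ad k L →ₗ[k] k} (hω : ω ∈ Om W)
    {α : Place k M → M} {b b' : Place k L → M} (hb : Rel hN W α b) (hb' : Rel hN W α b')
    (h1 : (fun v => Algebra.trace L M (b v)) ∈ Ad k L)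
    (h2 : (fun v => Algebra.trace L M (b' v)) ∈ Ad k L) :
    ω ⟨_, h1⟩ = ω ⟨_, h2⟩ := by
  rw [← sub_eq_zero, ← map_sub]
  apply hω.1
  rw [mem_AdD]
  intro v
  change v.val (Algebra.trace L M (b v) - Algebra.trace L M (b' v)) ≤ _
  rw [← map_sub]
  apply hTr
  intro w hw
  have h3 := hb w
  have h4 := hb' w
  rw [hw] at h3 h4
  have h5 : b v - b' v = (b v - α w) - (b' v - α w) := by ring
  rw [h5]
  exact (w.val.map_sub _ _).trans (max_le h3 h4)

theorem Rel.add {α α' : Place k M → M} {b b' : Place k L → M} (hb : Rel hN W α b)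
    (hb' : Rel hN W α' b') : Rel hN W (α + α') (b + b') := by
  intro w
  have h5 : (b + b') (resPl hN w) - (α + α') w =
      (b (resPl hN w) - α w) + (b' (resPl hN w) - α' w) := by
    simp only [Pi.add_apply]; ring
  rw [h5]
  exact (w.val.map_add _ _).trans (max_le (hb w) (hb' w))

theorem Rel.smul (c : k) {α : Place k M → M} {b : Place k L → M} (hb : Rel hN W α b) :
    Rel hN W (c • α) (c • b) := by
  intro w
  have h5 : (c • b) (resPl hN w) - (c • α) w = c • (b (resPl hN w) - α w) := by
    simp only [Pi.smul_apply, smul_sub]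
  rw [h5]
  exact (w.filt ((ram hN w : ℤ) * W (resPl hN w))).smul_mem c (hb w)

theorem exists_cotrace [Algebra.IsSeparable L M]
    (hWA : ∀ (S : Finset (Place k M)) (a : Place k M → M) (n : ℤ),
      ∃ x : M, ∀ w ∈ S, w.val (x - a w) ≤ WithZero.exp n)
    (hTr : ∀ (v : Place k L) (m : ℤ) (x : M),
      (∀ w : Place k M, resPl hN w = v → w.val x ≤ WithZero.exp ((ram hN w : ℤ) * m)) →
      v.val (Algebra.trace L M x) ≤ WithZero.exp m)
    {ω : Ad k L →ₗ[k] k} (hω : ω ∈ Om W) (hω0 : ω ≠ 0) :
    ∃ ω' : Ad k M →ₗ[k] k, ω' ∈ Om (Con hN W) ∧ ω' ≠ 0 := by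
  have hM : IsFunctionField k M := isFunctionField_ext hN
  have hex : ∀ α : Place k M → M, ∃ b : Place k L → M, Rel hN W α b := exists_rel hN W hWA
  choose B hB using hex
  have hmem : ∀ α : Ad k M, (fun v => Algebra.trace L M (B α v)) ∈ Ad k L := fun α =>
    trace_mem_Ad hN W hTr α.2 (hB α)
  -- the value only depends on the relation
  have key : ∀ (α : Ad k M) (b : Place k L → M) (hb : Rel hN W α b)
      (h2 : (fun v => Algebra.trace L M (b v)) ∈ Ad k L),
      ω ⟨_, hmem α⟩ = ω ⟨_, h2⟩ := fun α b hb h2 => Rel.wd hN W hTr hω (hB α) hb _ _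
  let ω' : Ad k M →ₗ[k] k :=
    { toFun := fun α => ω ⟨_, hmem α⟩
      map_add' := by
        intro α α'
        have h1 : (fun v => Algebra.trace L M ((B α + B α') v)) ∈ Ad k L := by
          have := (Ad k L).add_mem (hmem α) (hmem α')
          convert this using 1
          ext v
          simp
        rw [key (α + α') _ (Rel.add hN W (hB α) (hB α')) h1, ← map_add]
        congr 1
        apply Subtype.ext
        funext v
        simp
      map_smul' := by
        intro c α
        have hsm : ∀ v, Algebra.trace L M ((c • B α) v) = c • Algebra.trace L M (B α v) := by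
          intro v
          rw [Pi.smul_apply, ← algebraMap_smul L c (B α v), map_smul, algebraMap_smul]
        have h1 : (fun v => Algebra.trace L M ((c • B α) v)) ∈ Ad k L := by
          have := (Ad k L).smul_mem c (hmem α)
          convert this using 1
          ext v
          rw [hsm]
          rfl
        rw [key (c • α) _ (Rel.smul hN W c (hB α)) h1, RingHom.id_apply, ← map_smul]
        congr 1
        apply Subtype.ext
        funext v
        exact hsm v }
  have hω' : ∀ (α : Ad k M) (b : Place k L → M) (hb : Rel hN W α b)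
      (h2 : (fun v => Algebra.trace L M (b v)) ∈ Ad k L), ω' α = ω ⟨_, h2⟩ := key
  refine ⟨ω', ⟨?_, ?_⟩, ?_⟩
  · intro α hα
    have hr : Rel hN W (α : Place k M → M) 0 := by
      intro w
      have := hα w
      rw [Con_apply] at this
      simpa using this
    have h1 : (fun v : Place k L => Algebra.trace L M ((0 : Place k L → M) v)) ∈ Ad k L :=
      trace_mem_Ad hN W hTr α.2 hr
    rw [hω' α 0 hr h1]
    have : (⟨fun v : Place k L => Algebra.trace L M ((0 : Place k L → M) v), h1⟩ : Ad k L) = 0 := by
      apply Subtype.ext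
      funext v
      simp
    rw [this, map_zero]
  · intro α x hx
    have hr : Rel hN W (α : Place k M → M) (fun _ => x) := by
      intro w
      rw [hx w, sub_self, map_zero]
      exact zero_le
    have h1 : (fun v : Place k L => Algebra.trace L M ((fun _ => x : Place k L → M) v)) ∈
        Ad k L := trace_mem_Ad hN W hTr α.2 hr
    rw [hω' α _ hr h1]
    exact hω.2 _ (Algebra.trace L M x) (fun v => rfl)
  · intro h0
    apply hω0
    ext a
    obtain ⟨y, hy⟩ := Algebra.trace_surjective L M 1
    -- the pre-adele `a y`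
    have hα : (fun w : Place k M => algebraMap L M ((a : Place k L → L) (resPl hN w)) * y) ∈
        Ad k M := by
      classical
      obtain ⟨S, hS⟩ : ∃ S : Finset (Place k M), ∀ w : Place k M, ¬ w.val y ≤ 1 → w ∈ S := by
        obtain ⟨S, h1, -⟩ := hM.product_formula y
        refine ⟨S, fun w hw => (h1 w).2 ?_⟩
        intro h2
        apply hw
        by_cases hy0 : y = 0
        · rw [hy0, map_zero]; exact zero_le
        · exact ((w.ord_eq_zero_iff hy0).1 h2).le
      have ha : {v : Place k L | ¬ v.val ((a : Place k L → L) v) ≤ 1}.Finite := a.2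
      refine ((S ∪ ha.toFinset.biUnion fun v => fib (M := M) hN v).finite_toSet).subset ?_
      intro w hw
      rw [Finset.mem_coe, Finset.mem_union]
      by_contra hcon
      rw [not_or] at hcon
      obtain ⟨h1, h2⟩ := hcon
      apply hw
      have h3 : w.val y ≤ 1 := by
        by_contra hne
        exact h1 (hS w hne)
      have h4 : (resPl hN w).val ((a : Place k L → L) (resPl hN w)) ≤ 1 := by
        by_contra hne
        apply h2
        rw [Finset.mem_biUnion]
        exact ⟨resPl hN w, ha.mem_toFinset.2 hne, (mem_fib hN _ w).2 rfl⟩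
      have h5 : w.val (algebraMap L M ((a : Place k L → L) (resPl hN w))) ≤ 1 := by
        set z := (a : Place k L → L) (resPl hN w) with hz
        by_cases hz0 : z = 0
        · rw [hz0, map_zero, map_zero]; exact zero_le
        · rw [← w.ord_nonneg_iff (by simpa using hz0), ord_algebraMap hN]
          rw [← (resPl hN w).ord_nonneg_iff hz0] at h4
          positivity
      rw [map_mul]
      exact mul_le_one' h5 h3
    have hr : Rel hN W (fun w : Place k M =>
        algebraMap L M ((a : Place k L → L) (resPl hN w)) * y)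
        (fun v => algebraMap L M ((a : Place k L → L) v) * y) := by
      intro w
      rw [sub_self, map_zero]
      exact zero_le
    have h1 := trace_mem_Ad hN W hTr hα hr
    have h2 := hω' ⟨_, hα⟩ _ hr h1
    rw [h0, LinearMap.zero_apply] at h2
    rw [LinearMap.zero_apply, h2]
    congr 1
    apply Subtype.ext
    funext v
    change (a : Place k L → L) v = Algebra.trace L M (algebraMap L M ((a : Place k L → L) v) * y)
    rw [← Algebra.smul_def, map_smul, hy, smul_eq_mul, mul_one]

/-- The Hurwitz inequality, conditional form. -/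
theorem hurwitz_core [Algebra.IsSeparable L M]
    (hWA : ∀ (S : Finset (Place k M)) (a : Place k M → M) (n : ℤ),
      ∃ x : M, ∀ w ∈ S, w.val (x - a w) ≤ WithZero.exp n)
    (hTr : ∀ (v : Place k L) (m : ℤ) (x : M),
      (∀ w : Place k M, resPl hN w = v → w.val x ≤ WithZero.exp ((ram hN w : ℤ) * m)) →
      v.val (Algebra.trace L M x) ≤ WithZero.exp m)
    (hL : ∃ (W : Dv k L) (ω : Ad k L →ₗ[k] k), ω ∈ Om W ∧ ω ≠ 0 ∧ degD W = 2 * genus k L - 2)
    (hM : ∀ (D : Dv k M) (ω : Ad k M →ₗ[k] k), ω ∈ Om D → ω ≠ 0 →
      degD D ≤ 2 * genus k M - 2) :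
    (Module.finrank L M : ℤ) * (2 * genus k L - 2) ≤ 2 * genus k M - 2 := by
  obtain ⟨W, ω, hω, hω0, hW⟩ := hL
  obtain ⟨ω', hω', hω'0⟩ := exists_cotrace hN W hWA hTr hω hω0
  rw [← hW, ← degD_Con hN W]
  exact hM _ ω' hω' hω'0

end cotrace

end Pool.Agent.Helper47.RR
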