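import Mathlib

/-!
# Covers, dissections and triangulations of the cube by simplices: definitions
-/

namespace Helper67.Cube

/-- The unit cube `I_d = [0,1]^d`. -/
def cube (d : ℕ) : Set (Fin d → ℝ) := {x | ∀ i, 0 ≤ x i ∧ x i ≤ 1}

/-- The convex hull of the vertex list `w`; it is a `d`-simplex when `w` is affinely
independent. -/
def body {d : ℕ} (w : Fin (d+1) → Fin d → ℝ) : Set (Fin d → ℝ) := convexHull ℝ (Set.range w)

/-- `W` is a cover of the cube `I_d` by `N` simplices: member number `s` is the `d`-simplex with
the affinely independent vertices `W s 0, ..., W s d`, and the union of the members is exactly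
`I_d`. -/
def IsCover {d N : ℕ} (W : Fin N → Fin (d+1) → Fin d → ℝ) : Prop :=
  (∀ s, AffineIndependent ℝ (W s)) ∧ (⋃ s, body (W s)) = cube d

/-- `W` is a dissection of `I_d`: a cover whose members have pairwise disjoint interiors. -/
def IsDissection {d N : ℕ} (W : Fin N → Fin (d+1) → Fin d → ℝ) : Prop :=
  IsCover W ∧ ∀ s t, s ≠ t → Disjoint (interior (body (W s))) (interior (body (W t)))

/-- `W` is a triangulation of `I_d`: a dissection in which the intersection of any two members is
the convex hull of their common vertices (a common face of both, or empty). -/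
def IsTriangulation {d N : ℕ} (W : Fin N → Fin (d+1) → Fin d → ℝ) : Prop :=
  IsDissection W ∧ ∀ s t, body (W s) ∩ body (W t) = convexHull ℝ (Set.range (W s) ∩ Set.range (W t))

/-- All members of `W` are vertex simplices: all their vertices lie in `{0,1}^d`. -/
def IsVertexFamily {d N : ℕ} (W : Fin N → Fin (d+1) → Fin d → ℝ) : Prop :=
  ∀ s i j, W s i j = 0 ∨ W s i j = 1

/-- The largest absolute value of the determinant of an `n × n` matrix with entries in
`{0,1}`. -/
def maxDet (n : ℕ) : ℕ :=
  Finset.univ.sup fun M : Matrix (Fin n) (Fin n) Bool =>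
    (Matrix.of fun i j => if M i j then (1 : ℤ) else 0).det.natAbs

end Helper67.Cube
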