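import Pool.Agent.Helper67.CubeDet

/-!
# Covers of the cube by simplices: lower bounds from volumes of simplices and of their facets
-/

namespace Helper67.Cube

open MeasureTheory Set

lemma volume_cube (d : ℕ) : volume (cube d) = 1 := by
  have : cube d = Icc 0 1 := by
    ext x; simp [cube, Pi.le_def, forall_and]
  rw [this, Real.volume_Icc_pi]
  simp

lemma IsCover.inUnit {d N : ℕ} {W : Fin N → Fin (d+1) → Fin d → ℝ} (hW : IsCover W) (s : Fin N) :
    InUnit (W s) := by
  intro i j
  have h : W s i ∈ cube d := by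
    rw [← hW.2]
    exact mem_iUnion.2 ⟨s, subset_convexHull ℝ _ (mem_range_self i)⟩
  exact h j

lemma exists_ne_of_affineIndependent {d : ℕ} {w : Fin (d+1) → Fin d → ℝ}
    (hw : AffineIndependent ℝ w) (j : Fin d) (a : ℝ) : ∃ i, w i j ≠ a := by
  by_contra hcon
  push Not at hcon
  have htop : affineSpan ℝ (range w) = ⊤ := by
    rw [hw.affineSpan_eq_top_iff_card_eq_finrank_add_one]
    simp
  have hmem : (fun _ => a + 1 : Fin d → ℝ) ∈ affineSpan ℝ (range w) := by rw [htop]; trivial
  have hle : affineSpan ℝ (range w) ≤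
      AffineSubspace.comap (LinearMap.proj j : (Fin d → ℝ) →ₗ[ℝ] ℝ).toAffineMap
        (AffineSubspace.mk' a ⊥) := by
    rw [affineSpan_le]
    rintro _ ⟨i, rfl⟩
    simp [hcon i]
  have h2 := hle hmem
  simp at h2

/-- the slice of a simplex by the hyperplane `x_j = a` -/
def slice {m : ℕ} (w : Fin (m+2) → Fin (m+1) → ℝ) (j : Fin (m+1)) (a : ℝ) : Set (Fin m → ℝ) :=
  {y | j.insertNth a y ∈ body w}

lemma slice_coeff {m : ℕ} (w : Fin (m+2) → Fin (m+1) → ℝ) (hw : InUnit w) (j : Fin (m+1)) (a : ℝ)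
    (ha : a = 0 ∨ a = 1) (y : Fin m → ℝ) (hy : y ∈ slice w j a) :
    ∃ t : Fin (m+2) → ℝ, (∀ i, 0 ≤ t i) ∧ ∑ i, t i = 1 ∧ (∀ i, w i j ≠ a → t i = 0) ∧
      y = ∑ i, t i • (fun k => w i (j.succAbove k)) := by
  unfold slice body at hy
  rw [mem_ofPred_eq, mem_hull_range] at hy
  obtain ⟨t, h0, h1, h2⟩ := hy
  refine ⟨t, h0, h1, ?_, ?_⟩
  · have h3 : ∑ i, t i * (w i j - a) = 0 := by
      have := congrFun h2 j
      simp only [Finset.sum_apply, Pi.smul_apply, smul_eq_mul, Fin.insertNth_apply_same] at this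
      simp only [mul_sub, Finset.sum_sub_distrib, this, ← Finset.sum_mul, h1]
      ring
    intro i hi
    have h4 : t i * (w i j - a) = 0 := by
      rcases ha with rfl | rfl
      · exact (Finset.sum_eq_zero_iff_of_nonneg (fun i _ => mul_nonneg (h0 i)
          (by linarith [(hw i j).1]))).1 h3 i (Finset.mem_univ _)
      · exact (Finset.sum_eq_zero_iff_of_nonpos (fun i _ => mul_nonpos_of_nonneg_of_nonpos (h0 i)
          (by linarith [(hw i j).2]))).1 h3 i (Finset.mem_univ _)
    rcases mul_eq_zero.1 h4 with h | h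
    · exact h
    · exact absurd (by linarith) hi
  · ext k
    have := congrFun h2 (j.succAbove k)
    simp only [Finset.sum_apply, Pi.smul_apply, smul_eq_mul, Fin.insertNth_apply_succAbove] at this ⊢
    exact this.symm

lemma slice_subset_body {m : ℕ} (w : Fin (m+2) → Fin (m+1) → ℝ) (hw : InUnit w) (j : Fin (m+1))
    (a : ℝ) (ha : a = 0 ∨ a = 1) (i : Fin (m+2)) (hi : w i j ≠ a) :
    slice w j a ⊆ body (rem w i j) := by
  intro y hy
  obtain ⟨t, h0, h1, h2, rfl⟩ := slice_coeff w hw j a ha y hy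
  unfold body
  rw [mem_hull_range]
  refine ⟨fun i' => t (i.succAbove i'), fun i' => h0 _, ?_, ?_⟩
  · rw [Fin.sum_univ_succAbove _ i, h2 i hi] at h1
    simpa using h1
  · rw [Fin.sum_univ_succAbove _ i, h2 i hi, zero_smul, zero_add]
    rfl

lemma volume_slice_zero {m : ℕ} (w : Fin (m+2) → Fin (m+1) → ℝ) (hw : InUnit w) (j : Fin (m+1))
    (a : ℝ) (ha : a = 0 ∨ a = 1) (i₁ i₂ : Fin (m+2)) (h12 : i₁ ≠ i₂) (h₁ : w i₁ j ≠ a)
    (h₂ : w i₂ j ≠ a) : volume (slice w j a) = 0 := by
  classical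
  set T : Finset (Fin (m+2)) := Finset.univ.filter fun i => w i j = a with hT
  have hcard : T.card ≤ m := by
    have h3 : T ⊆ (Finset.univ.erase i₁).erase i₂ := by
      intro i hi
      rw [hT, Finset.mem_filter] at hi
      rw [Finset.mem_erase, Finset.mem_erase]
      refine ⟨?_, ?_, Finset.mem_univ _⟩
      · rintro rfl; exact h₂ hi.2
      · rintro rfl; exact h₁ hi.2
    refine (Finset.card_le_card h3).trans ?_
    rw [Finset.card_erase_of_mem (Finset.mem_erase.2 ⟨h12.symm, Finset.mem_univ _⟩),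
      Finset.card_erase_of_mem (Finset.mem_univ _)]
    simp
  set p : Fin (m+2) → Fin m → ℝ := fun i k => w i (j.succAbove k) with hp
  have hsub : slice w j a ⊆ affineSpan ℝ ((T.image p : Finset (Fin m → ℝ)) : Set (Fin m → ℝ)) := by
    intro y hy
    obtain ⟨t, h0, h1, h2, rfl⟩ := slice_coeff w hw j a ha y hy
    have hT0 : ∀ i, i ∉ T → t i = 0 := fun i hi => h2 i (by simpa [hT] using hi)
    have hs1 : ∑ i ∈ T, t i = 1 := by
      rw [← h1]
      exact Finset.sum_subset (Finset.subset_univ _) fun i _ hi => hT0 i hi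
    have hs2 : ∑ i ∈ T, t i • p i = ∑ i, t i • (fun k => w i (j.succAbove k)) := by
      exact Finset.sum_subset (Finset.subset_univ _) fun i _ hi => by rw [hT0 i hi, zero_smul]
    rw [← hs2]
    refine convexHull_subset_affineSpan _ ?_
    exact (convex_convexHull ℝ _).sum_mem (fun i _ => h0 i) hs1
      (fun i hi => subset_convexHull ℝ _ (Finset.mem_coe.2 (Finset.mem_image_of_mem p hi)))
  refine measure_mono_null hsub ?_
  refine Measure.addHaar_affineSubspace _ _ ?_
  intro htop
  rcases T.eq_empty_or_nonempty with hTe | hTn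
  · rw [hTe] at htop
    simp at htop
  · obtain ⟨n, hn⟩ : ∃ n, T.card = n + 1 := ⟨T.card - 1, by have := hTn.card_pos; omega⟩
    have h5 := finrank_vectorSpan_image_finset_le ℝ p T hn
    have h6 : vectorSpan ℝ ((T.image p : Finset (Fin m → ℝ)) : Set (Fin m → ℝ)) = ⊤ := by
      rw [← direction_affineSpan, htop, AffineSubspace.direction_top]
    rw [h6] at h5
    simp at h5
    omega

/-- the facet of `w` opposite to `i` lies in `x_j = a` -/
def ExtAt {d : ℕ} (w : Fin (d+1) → Fin d → ℝ) (j : Fin d) (a : ℝ) : Prop :=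
  ∃ i, ∀ i', i' ≠ i → w i' j = a

open Classical in
/-- `m!` times the `m`-volume of the slice if it is a facet -/
noncomputable def fac {m : ℕ} (w : Fin (m+2) → Fin (m+1) → ℝ) (j : Fin (m+1)) (a : ℝ) : ℝ :=
  if h : ExtAt w j a then vdet (rem w h.choose j) else 0

lemma fac_of_not {m : ℕ} {w : Fin (m+2) → Fin (m+1) → ℝ} {j : Fin (m+1)} {a : ℝ}
    (h : ¬ ExtAt w j a) : fac w j a = 0 := by
  unfold fac
  rw [dif_neg h]

lemma fac_nonneg {m : ℕ} (w : Fin (m+2) → Fin (m+1) → ℝ) (j : Fin (m+1)) (a : ℝ) :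
    0 ≤ fac w j a := by
  unfold fac
  split_ifs
  · exact vdet_nonneg _
  · exact le_rfl

lemma volume_slice_le {m : ℕ} (w : Fin (m+2) → Fin (m+1) → ℝ) (hw : InUnit w)
    (haff : AffineIndependent ℝ w) (j : Fin (m+1)) (a : ℝ) (ha : a = 0 ∨ a = 1) :
    volume (slice w j a) ≤ ENNReal.ofReal (fac w j a / m.factorial) := by
  classical
  by_cases h : ExtAt w j a
  · have h1 : fac w j a = vdet (rem w h.choose j) := by unfold fac; rw [dif_pos h]
    rw [h1, ← volume_body]
    refine measure_mono (slice_subset_body w hw j a ha _ ?_)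
    obtain ⟨i, hi⟩ := exists_ne_of_affineIndependent haff j a
    by_cases h2 : i = h.choose
    · rw [← h2]; exact hi
    · exact absurd (h.choose_spec i h2) hi
  · obtain ⟨i₁, hi₁⟩ := exists_ne_of_affineIndependent haff j a
    have : ∃ i₂, i₂ ≠ i₁ ∧ w i₂ j ≠ a := by
      by_contra hcon
      push Not at hcon
      exact h ⟨i₁, hcon⟩
    obtain ⟨i₂, h3, h4⟩ := this
    rw [volume_slice_zero w hw j a ha i₁ i₂ h3.symm hi₁ h4]
    positivity

/-- the main inequality for a single simplex -/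
lemma weight_le {m : ℕ} (hm : 1 ≤ m) (w : Fin (m+2) → Fin (m+1) → ℝ) (hw : InUnit w) (A B : ℝ)
    (hA : 0 ≤ A) (hB : 0 ≤ B) (h : ∀ k ≤ m+1, (A + k * B) * maxDet (m + 1 - k) ≤ 1) :
    A * vdet w + B * ∑ j, (fac w j 0 + fac w j 1) ≤ 1 := by
  classical
  set q : ℝ := A + kk w * B with hq
  have hq0 : 0 ≤ q := by positivity
  have h1 : q * vdet w ≤ 1 := by
    obtain ⟨k, hk1, hk2, hk3⟩ := vdet_le_kk _ w hw
    have : q ≤ A + k * B := by
      rw [hq]; gcongr
    calc q * vdet w ≤ (A + k * B) * maxDet (m + 1 - k) :=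
          mul_le_mul this hk3 (vdet_nonneg _) (hq0.trans this)
      _ ≤ 1 := h k hk2
  have h2 : ∀ j a, (a = 0 ∨ a = 1) → q * fac w j a ≤ 1 := by
    intro j a ha
    unfold fac
    split_ifs with hE
    · obtain ⟨k, hk1, hk2, hk3⟩ := vdet_le_kk _ (rem w hE.choose j) (inUnit_rem hw _ _)
      have hk4 := kk_rem w hE.choose j
      have : q ≤ A + (k + 1 : ℕ) * B := by
        rw [hq]; gcongr; omega
      have hk5 : m + 1 - (k + 1) = m - k := by omega
      calc q * vdet (rem w hE.choose j) ≤ (A + (k + 1 : ℕ) * B) * maxDet (m + 1 - (k + 1)) := by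
            rw [hk5]
            exact mul_le_mul this hk3 (vdet_nonneg _) (hq0.trans this)
        _ ≤ 1 := h (k + 1) (by omega)
    · simp
  have h3 : ∀ j, q * (fac w j 0 + fac w j 1) ≤ if Ext w j then 1 else 0 := by
    intro j
    by_cases hE : Ext w j
    · rw [if_pos hE]
      have h4 : ¬ (ExtAt w j 0 ∧ ExtAt w j 1) := by
        rintro ⟨⟨i, hi⟩, ⟨i', hi'⟩⟩
        have : ∃ i'' : Fin (m+2), i'' ≠ i ∧ i'' ≠ i' := by
          by_contra hcon
          push Not at hcon
          have h5 : (Finset.univ : Finset (Fin (m+2))) ⊆ {i, i'} := by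
            intro x _
            by_cases hx : x = i
            · simp [hx]
            · simp [hcon x hx]
          have h6 := Finset.card_le_card h5
          have h7 : ({i, i'} : Finset (Fin (m+2))).card ≤ 2 := Finset.card_le_two
          simp at h6
          omega
        obtain ⟨x, hx1, hx2⟩ := this
        have h8 := hi x hx1
        have h9 := hi' x hx2
        rw [h8] at h9
        norm_num at h9
      by_cases h5 : ExtAt w j 0
      · have h6 : ¬ ExtAt w j 1 := fun h7 => h4 ⟨h5, h7⟩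
        have h7 : fac w j 1 = 0 := by unfold fac; rw [dif_neg h6]
        rw [h7, add_zero]
        exact h2 j 0 (Or.inl rfl)
      · have h7 : fac w j 0 = 0 := by unfold fac; rw [dif_neg h5]
        rw [h7, zero_add]
        exact h2 j 1 (Or.inr rfl)
    · rw [if_neg hE]
      have h5 : ¬ ExtAt w j 0 := fun h6 => hE ⟨0, Or.inl rfl, h6⟩
      have h6 : ¬ ExtAt w j 1 := fun h7 => hE ⟨1, Or.inr rfl, h7⟩
      have h7 : fac w j 0 = 0 := by unfold fac; rw [dif_neg h5]
      have h8 : fac w j 1 = 0 := by unfold fac; rw [dif_neg h6]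
      rw [h7, h8]; simp
  have h4 : q * ∑ j, (fac w j 0 + fac w j 1) ≤ kk w := by
    rw [Finset.mul_sum]
    refine (Finset.sum_le_sum fun j _ => h3 j).trans ?_
    rw [Finset.sum_boole]
    exact le_of_eq rfl
  have hF0 : 0 ≤ ∑ j, (fac w j 0 + fac w j 1) :=
    Finset.sum_nonneg fun j _ => add_nonneg (fac_nonneg _ _ _) (fac_nonneg _ _ _)
  rcases eq_or_lt_of_le hq0 with hq1 | hq1
  · have hA0 : A = 0 := by
      have : 0 ≤ (kk w : ℝ) * B := by positivity
      linarith
    have hkB : (kk w : ℝ) * B = 0 := by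
      rw [hA0] at hq; linarith
    rcases mul_eq_zero.1 hkB with h5 | h5
    · -- no exterior columns
      have h6 : ∀ j, ¬ Ext w j := by
        intro j hj
        have h7 : kk w = 0 := by exact_mod_cast h5
        unfold kk at h7
        rw [Finset.card_eq_zero] at h7
        have : j ∈ Finset.univ.filter (Ext w) := Finset.mem_filter.2 ⟨Finset.mem_univ _, hj⟩
        rw [h7] at this
        simp at this
      have h7 : ∑ j, (fac w j 0 + fac w j 1) = 0 := by
        refine Finset.sum_eq_zero fun j _ => ?_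
        have h8 : fac w j 0 = 0 := fac_of_not (fun h9 => h6 j ⟨0, Or.inl rfl, h9⟩)
        have h9 : fac w j 1 = 0 := fac_of_not (fun h9 => h6 j ⟨1, Or.inr rfl, h9⟩)
        rw [h8, h9]; simp
      rw [h7, hA0]; norm_num
    · rw [h5, hA0]; norm_num
  · have h5 : q * (A * vdet w + B * ∑ j, (fac w j 0 + fac w j 1)) ≤ q * 1 := by
      calc q * (A * vdet w + B * ∑ j, (fac w j 0 + fac w j 1))
          = A * (q * vdet w) + B * (q * ∑ j, (fac w j 0 + fac w j 1)) := by ring
        _ ≤ A * 1 + B * kk w := by gcongr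
        _ = q * 1 := by rw [hq]; ring
    exact le_of_mul_le_mul_left h5 hq1

/-- **Lower bound for covers** (arbitrary simplices). -/
theorem cover_bound {m N : ℕ} (hm : 1 ≤ m) (W : Fin N → Fin (m+2) → Fin (m+1) → ℝ)
    (hW : IsCover W) (A B : ℝ) (hA : 0 ≤ A) (hB : 0 ≤ B)
    (h : ∀ k ≤ m+1, (A + k * B) * maxDet (m + 1 - k) ≤ 1) :
    ((m+1).factorial : ℝ) * (A + 2 * B) ≤ N := by
  have hvol : ((m+1).factorial : ℝ) ≤ ∑ s, vdet (W s) := by
    have h1 : (1 : ENNReal) ≤ ∑ s, ENNReal.ofReal (vdet (W s) / (m+1).factorial) := by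
      rw [← volume_cube (m+1), ← hW.2]
      refine (measure_iUnion_le _).trans ?_
      rw [tsum_fintype]
      exact Finset.sum_le_sum fun s _ => (volume_body _).le
    rw [← ENNReal.ofReal_sum_of_nonneg (fun s _ => div_nonneg (vdet_nonneg _) (by positivity)),
      ENNReal.one_le_ofReal, ← Finset.sum_div, le_div_iff₀ (by positivity), one_mul] at h1
    exact h1
  have hfac : ∀ j a, (a = 0 ∨ a = 1) → (m.factorial : ℝ) ≤ ∑ s, fac (W s) j a := by
    intro j a ha
    have h1 : (1 : ENNReal) ≤ ∑ s, ENNReal.ofReal (fac (W s) j a / m.factorial) := by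
      rw [← volume_cube m]
      have hsub : cube m ⊆ ⋃ s, slice (W s) j a := by
        intro y hy
        have hy2 : j.insertNth a y ∈ cube (m+1) := by
          intro i
          refine Fin.succAboveCases j ?_ (fun i' => ?_) i
          · simp only [Fin.insertNth_apply_same]
            rcases ha with rfl | rfl <;> norm_num
          · simp only [Fin.insertNth_apply_succAbove]
            exact hy i'
        rw [← hW.2] at hy2
        obtain ⟨s, hs⟩ := mem_iUnion.1 hy2
        exact mem_iUnion.2 ⟨s, hs⟩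
      refine (measure_mono hsub).trans ((measure_iUnion_le _).trans ?_)
      rw [tsum_fintype]
      exact Finset.sum_le_sum fun s _ => volume_slice_le _ (hW.inUnit s) (hW.1 s) j a ha
    rw [← ENNReal.ofReal_sum_of_nonneg (fun s _ => div_nonneg (fac_nonneg _ _ _) (by positivity)),
      ENNReal.one_le_ofReal, ← Finset.sum_div, le_div_iff₀ (by positivity), one_mul] at h1
    exact h1
  have hsum : A * ∑ s, vdet (W s) + B * ∑ s, ∑ j, (fac (W s) j 0 + fac (W s) j 1) ≤ N := by
    rw [Finset.mul_sum, Finset.mul_sum, ← Finset.sum_add_distrib]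
    refine (Finset.sum_le_sum fun s _ => weight_le hm (W s) (hW.inUnit s) A B hA hB h).trans ?_
    simp
  have hswap : ∑ s, ∑ j, (fac (W s) j 0 + fac (W s) j 1)
      = ∑ j, (∑ s, fac (W s) j 0 + ∑ s, fac (W s) j 1) := by
    rw [Finset.sum_comm]
    exact Finset.sum_congr rfl fun j _ => Finset.sum_add_distrib
  have h2 : 2 * ((m+1).factorial : ℝ) ≤ ∑ s, ∑ j, (fac (W s) j 0 + fac (W s) j 1) := by
    rw [hswap]
    have h3 : ∑ _j : Fin (m+1), ((m.factorial : ℝ) + m.factorial) ≤
        ∑ j, (∑ s, fac (W s) j 0 + ∑ s, fac (W s) j 1) :=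
      Finset.sum_le_sum fun j _ => add_le_add (hfac j 0 (Or.inl rfl)) (hfac j 1 (Or.inr rfl))
    refine le_trans (le_of_eq ?_) h3
    rw [Finset.sum_const, Finset.card_univ, Fintype.card_fin, nsmul_eq_mul, Nat.factorial_succ]
    push_cast
    ring
  calc ((m+1).factorial : ℝ) * (A + 2 * B)
      = A * ((m+1).factorial : ℝ) + B * (2 * ((m+1).factorial : ℝ)) := by ring
    _ ≤ A * ∑ s, vdet (W s) + B * ∑ s, ∑ j, (fac (W s) j 0 + fac (W s) j 1) := by gcongr
    _ ≤ N := hsum

end Helper67.Cube
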