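import Pool.Agent.Helper67.CubeDet

/-!
# Hadamard's bound for 0/1 matrices
-/

namespace Helper67.Cube

open Set

/-- Hadamard's inequality -/
lemma abs_det_le_prod {n : ℕ} (A : Matrix (Fin n) (Fin n) ℝ) :
    |A.det| ≤ ∏ i, Real.sqrt (∑ j, A i j ^ 2) := by
  let E := EuclideanSpace ℝ (Fin n)
  have : Fact (Module.finrank ℝ E = n) := ⟨by simp [E]⟩
  let b : OrthonormalBasis (Fin n) ℝ E := EuclideanSpace.basisFun (Fin n) ℝ
  let o := b.toBasis.orientation
  have h := o.abs_volumeForm_apply_le (fun i => (WithLp.toLp 2 (A i) : E))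
  rw [o.volumeForm_robust' b, Module.Basis.det_apply] at h
  have e : b.toBasis.toMatrix (fun i => (WithLp.toLp 2 (A i) : E)) = A.transpose := by
    ext i j
    rw [Module.Basis.toMatrix_apply]
    simp only [b, OrthonormalBasis.coe_toBasis_repr_apply, Matrix.transpose_apply]
    rw [EuclideanSpace.basisFun_repr]
  rw [e, Matrix.det_transpose] at h
  refine h.trans (le_of_eq ?_)
  refine Finset.prod_congr rfl fun i _ => ?_
  rw [EuclideanSpace.norm_eq]
  simp

lemma hadamard01 (n : ℕ) : 4 ^ n * (maxDet n) ^ 2 ≤ (n+1) ^ (n+1) := by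
  classical
  obtain ⟨M, -, hM⟩ := Finset.exists_mem_eq_sup (s := Finset.univ)
    (f := fun M : Matrix (Fin n) (Fin n) Bool =>
      (Matrix.of fun i j => if M i j then (1 : ℤ) else 0).det.natAbs) ⟨fun _ _ => false, Finset.mem_univ _⟩
  change maxDet n = _ at hM
  set D : ℤ := (Matrix.of fun i j => if M i j then (1 : ℤ) else 0).det with hD
  set w : Fin (n+1) → Fin n → ℝ := Fin.cons 0 (fun i j => if M i j then 1 else 0) with hw
  have hDw : (bord w).det = (D : ℝ) := by
    rw [det_bord, hD, Int.cast_det]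
    congr 1
    ext i j
    simp [edge, hw]
  set K : Matrix (Fin (n+1)) (Fin (n+1)) ℝ := Matrix.of fun i => Fin.cons 1 (fun j => 2 * w i j - 1)
    with hK
  have hKdet : K.det = 2 ^ n * (bord w).det := by
    have h1 : K.det = (Matrix.of fun i j =>
        (Fin.cons 1 (fun _ => 2) : Fin (n+1) → ℝ) j * bord w i j).det := by
      rw [← Matrix.det_transpose, ← Matrix.det_transpose (Matrix.of _)]
      refine Matrix.det_eq_of_forall_row_eq_smul_add_const
        (Fin.cons 0 (fun _ => -1)) 0 (by simp) ?_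
      intro i j
      refine Fin.cases ?_ (fun i => ?_) i
      · simp [hK, bord]
      · simp [hK, bord]; ring
    rw [h1, Matrix.det_mul_row, Fin.prod_univ_succ]
    simp
  have hle := abs_det_le_prod K
  have hrow : ∀ i, ∑ j, K i j ^ 2 = (n : ℝ) + 1 := by
    intro i
    have : ∀ j, K i j ^ 2 = 1 := by
      intro j
      refine Fin.cases ?_ (fun j => ?_) j
      · simp [hK]
      · have hwij : w i j = 0 ∨ w i j = 1 := by
          refine Fin.cases ?_ (fun i => ?_) i
          · simp [hw]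
          · simp only [hw, Fin.cons_succ]; split_ifs <;> simp
        simp only [hK, Matrix.of_apply, Fin.cons_succ]
        rcases hwij with h | h <;> rw [h] <;> norm_num
    simp [this]
  simp only [hrow, Finset.prod_const, Finset.card_univ, Fintype.card_fin] at hle
  rw [hKdet, hDw, abs_mul, abs_of_nonneg (by positivity : (0:ℝ) ≤ 2 ^ n)] at hle
  have h2 : (2 ^ n * |(D : ℝ)|) ^ 2 ≤ (Real.sqrt (n+1) ^ (n+1)) ^ 2 :=
    pow_le_pow_left₀ (by positivity) hle 2
  rw [← pow_mul, mul_comm (n+1) 2, pow_mul, Real.sq_sqrt (by positivity)] at h2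
  have h3 : ((4 ^ n * D.natAbs ^ 2 : ℕ) : ℝ) ≤ (((n+1) ^ (n+1) : ℕ) : ℝ) := by
    push_cast
    rw [Nat.cast_natAbs, Int.cast_abs]
    refine le_trans (le_of_eq ?_) h2
    rw [mul_pow, ← pow_mul, mul_comm n 2, pow_mul]
    norm_num
  rw [hM]
  exact_mod_cast h3

lemma maxDet_le_of (n v : ℕ) (h : (n+1) ^ (n+1) < 4 ^ n * (v+1) ^ 2) : maxDet n ≤ v := by
  by_contra hcon
  push Not at hcon
  have h1 := hadamard01 n
  have h2 : (v+1) ^ 2 ≤ (maxDet n) ^ 2 := Nat.pow_le_pow_left hcon 2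
  have h3 : 4 ^ n * (v+1) ^ 2 ≤ 4 ^ n * (maxDet n) ^ 2 := Nat.mul_le_mul_left _ h2
  omega

lemma maxDet_zero : maxDet 0 ≤ 1 := maxDet_le_of _ _ (by norm_num)
lemma maxDet_one : maxDet 1 ≤ 1 := maxDet_le_of _ _ (by norm_num)
lemma maxDet_two : maxDet 2 ≤ 1 := maxDet_le_of _ _ (by norm_num)
lemma maxDet_three : maxDet 3 ≤ 2 := maxDet_le_of _ _ (by norm_num)
lemma maxDet_four : maxDet 4 ≤ 3 := maxDet_le_of _ _ (by norm_num)
lemma maxDet_five' : maxDet 5 ≤ 6 := maxDet_le_of _ _ (by norm_num)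
lemma maxDet_six' : maxDet 6 ≤ 14 := maxDet_le_of _ _ (by norm_num)

lemma mul_maxDet_le {n v : ℕ} {x : ℝ} (hn : maxDet n ≤ v) (hx : 0 ≤ x) (h : x * v ≤ 1) :
    x * maxDet n ≤ 1 :=
  (mul_le_mul_of_nonneg_left (by exact_mod_cast hn) hx).trans h

end Helper67.Cube
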