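import Pool.Agent.Helper60.BTLowDefs

/-!
Module P of the lower bound for the book thickness of the rook's graph: from a book embedding of
`K_n □ K_n` one extracts the row word and the column word, and in one of them at least 3/8 of the
positions are spread.
-/

namespace Pool.Agent.Helper67.BTLowP
open Finset Pool.Agent.Helper60.BT

theorem exists_enum {n : ℕ} (hn : 1 ≤ n) (pos : Fin n × Fin n → ℕ)
    (hinj : Function.Injective pos) :
    ∃ v : ℕ → Fin n × Fin n, ∀ a b, a < b → b < n * n → pos (v a) < pos (v b) := by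
  classical
  have hcard : (univ.image pos).card = n * n := by
    rw [card_image_of_injective _ hinj, card_univ, Fintype.card_prod, Fintype.card_fin]
  let g := (univ.image pos).orderEmbOfFin hcard
  have hg : ∀ t : Fin (n * n), ∃ x, pos x = g t := by
    intro t
    have := (univ.image pos).orderEmbOfFin_mem hcard t
    rw [mem_image] at this
    obtain ⟨x, -, hx⟩ := this
    exact ⟨x, hx⟩
  choose u hu using hg
  refine ⟨fun t => if h : t < n * n then u ⟨t, h⟩ else (⟨0, hn⟩, ⟨0, hn⟩), ?_⟩
  intro a b hab hb
  simp only [dif_pos (hab.trans hb), dif_pos hb, hu]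
  exact (g.lt_iff_lt).mpr hab

/-- The word of a coordinate. -/
def mkWD {n p : ℕ} (pos : Fin n × Fin n → ℕ) (page : Sym2 (Fin n × Fin n) → ℕ)
    (hlt : ∀ e ∈ (rook n).edgeSet, page e < p)
    (hnc : ∀ a b c d, (rook n).Adj a b → (rook n).Adj c d → pos a < pos c → pos c < pos b →
      pos b < pos d → page s(a, b) ≠ page s(c, d))
    (v : ℕ → Fin n × Fin n) (hv : ∀ a b, a < b → b < n * n → pos (v a) < pos (v b))
    (π π' : Fin n × Fin n → Fin n) (hπ : ∀ x y, π x = π y → π' x = π' y → x = y)
    (hadj : ∀ x y, x ≠ y → π x = π y → (rook n).Adj x y) : WD (n * n) n p where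
  f := fun t => (π (v t)).val
  pg := fun a b => page s(v a, v b)
  f_lt := fun t _ => (π (v t)).isLt
  mult := by
    intro c
    have h : ((range (n * n)).filter (fun s => (π (v s)).val = c)).card ≤
        (univ : Finset (Fin n)).card := by
      apply card_le_card_of_injOn (fun s => π' (v s)) (fun _ _ => mem_univ _)
      intro a ha b hb hab
      simp only [coe_filter, mem_range, Set.mem_ofPred_eq] at ha hb
      have h1 : v a = v b := hπ _ _ (Fin.ext (ha.2.trans hb.2.symm)) hab
      by_contra hne
      rcases lt_or_gt_of_ne hne with h2 | h2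
      · have := hv a b h2 hb.1
        rw [h1] at this
        exact lt_irrefl _ this
      · have := hv b a h2 ha.1
        rw [h1] at this
        exact lt_irrefl _ this
    rwa [card_univ, Fintype.card_fin] at h
  pg_symm := fun a b => by rw [Sym2.eq_swap]
  pg_lt := by
    intro a b ha hb hab hf
    apply hlt
    rw [SimpleGraph.mem_edgeSet]
    refine hadj _ _ ?_ (Fin.ext hf)
    intro h1
    rcases lt_or_gt_of_ne hab with h2 | h2
    · have := hv a b h2 hb
      rw [h1] at this
      exact lt_irrefl _ this
    · have := hv b a h2 ha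
      rw [h1] at this
      exact lt_irrefl _ this
  nc := by
    intro a b c d hab hbc hcd hd hf1 hf2
    have h1 := hv a b hab (by omega)
    have h2 := hv b c hbc (by omega)
    have h3 := hv c d hcd hd
    refine hnc _ _ _ _ (hadj _ _ ?_ (Fin.ext hf1)) (hadj _ _ ?_ (Fin.ext hf2)) h1 h2 h3
    · intro h
      rw [h] at h1
      omega
    · intro h
      rw [h] at h2
      omega

/-- Few letters occur often in a window. -/
theorem card_heavy (n z : ℕ) (w : Finset ℕ) (f : ℕ → ℕ) :
    ((range n).filter (fun a => n ≤ z * (w.filter (fun s => f s = a)).card)).card * n ≤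
      z * w.card := by
  classical
  set A := (range n).filter (fun a => n ≤ z * (w.filter (fun s => f s = a)).card) with hA
  calc A.card * n = ∑ a ∈ A, n := by rw [sum_const, smul_eq_mul]
    _ ≤ ∑ a ∈ A, z * (w.filter (fun s => f s = a)).card := by
        apply sum_le_sum
        intro a ha
        rw [hA, mem_filter] at ha
        exact ha.2
    _ = z * ∑ a ∈ A, (w.filter (fun s => f s = a)).card := by rw [mul_sum]
    _ ≤ z * w.card := by
        apply Nat.mul_le_mul_left
        rw [← card_biUnion]
        · apply card_le_card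
          intro s hs
          rw [mem_biUnion] at hs
          obtain ⟨a, _, ha⟩ := hs
          exact (mem_filter.mp ha).1
        · intro a _ b _ hab
          rw [Function.onFun, Finset.disjoint_left]
          intro s hs hs'
          rw [mem_filter] at hs hs'
          exact hab (hs.2.symm.trans hs'.2)

theorem both {N n p z M : ℕ} (hN : N = n * n) (hn : 1 ≤ n) (hM : 1 ≤ M)
    (W W' : WD N n p)
    (hinj : ∀ a b, a < N → b < N → W.f a = W.f b → W'.f a = W'.f b → a = b)
    (hMn : 2 * M ≤ N) :
    ((range N).filter (fun t => n ≤ z * (W.nbs t (2 * M)).card ∧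
      n ≤ z * (W'.nbs t (2 * M)).card)).card ≤ 36 * z ^ 2 * M := by
  classical
  set L := 2 * M with hL
  set Bad := (range N).filter (fun t => n ≤ z * (W.nbs t L).card ∧
      n ≤ z * (W'.nbs t L).card) with hBad
  have hNpos : 0 < N := by rw [hN]; exact Nat.mul_pos hn hn
  have hLpos : 0 < L := by omega
  -- one block
  have hblock : ∀ k, N * (Bad.filter (fun t => t / L = k)).card ≤ 9 * L ^ 2 * z ^ 2 := by
    intro k
    set w : Finset ℕ := (range N).filter (fun s => k * L ≤ s + L ∧ s < (k + 2) * L) with hw
    have hwcard : w.card ≤ 3 * L := by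
      have h1 : w ⊆ Finset.Ico (k * L - L) (k * L - L + 3 * L) := by
        intro s hs
        rw [hw, mem_filter] at hs
        rw [Finset.mem_Ico]
        have h2 : (k + 2) * L = k * L + 2 * L := by ring
        omega
      have h2 := card_le_card h1
      rw [Nat.card_Ico] at h2
      omega
    have hA := card_heavy n z w W.f
    have hC := card_heavy n z w W'.f
    set A := (range n).filter (fun a => n ≤ z * (w.filter (fun s => W.f s = a)).card)
    set C := (range n).filter (fun a => n ≤ z * (w.filter (fun s => W'.f s = a)).card)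
    have hsub : ∀ (X : WD N n p) (t : ℕ), t / L = k →
        X.nbs t L ⊆ w.filter (fun s => X.f s = X.f t) := by
      intro X t ht s hs
      unfold WD.nbs at hs
      rw [mem_filter] at hs
      rw [mem_filter, hw, mem_filter]
      have h1 : k * L ≤ t := by rw [← ht]; exact Nat.div_mul_le_self t L
      have h2 : t < (k + 1) * L := by
        have h5 := Nat.mod_lt t hLpos
        have h6 := Nat.div_add_mod t L
        rw [ht] at h6
        have h7 : (k + 1) * L = L * k + L := by ring
        omega
      have h3 : (k + 2) * L = (k + 1) * L + L := by ring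
      refine ⟨⟨hs.1, ?_, ?_⟩, hs.2.1⟩
      · omega
      · omega
    have hcard : (Bad.filter (fun t => t / L = k)).card ≤ (A ×ˢ C).card := by
      apply card_le_card_of_injOn (fun t => (W.f t, W'.f t))
      · intro t ht
        rw [mem_coe, mem_filter, hBad, mem_filter, mem_range] at ht
        obtain ⟨⟨ht1, ht2, ht3⟩, ht4⟩ := ht
        rw [mem_coe, mem_product]
        constructor
        · rw [mem_filter, mem_range]
          exact ⟨W.f_lt t ht1, ht2.trans (Nat.mul_le_mul_left _ (card_le_card (hsub W t ht4)))⟩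
        · rw [mem_filter, mem_range]
          exact ⟨W'.f_lt t ht1, ht3.trans (Nat.mul_le_mul_left _ (card_le_card (hsub W' t ht4)))⟩
      · intro a ha b hb hab
        rw [mem_coe, mem_filter, hBad, mem_filter, mem_range] at ha hb
        simp only [Prod.mk.injEq] at hab
        exact hinj a b ha.1.1 hb.1.1 hab.1 hab.2
    rw [card_product] at hcard
    calc N * (Bad.filter (fun t => t / L = k)).card ≤ N * (A.card * C.card) :=
          Nat.mul_le_mul_left _ hcard
      _ = (A.card * n) * (C.card * n) := by rw [hN]; ring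
      _ ≤ (z * w.card) * (z * w.card) := Nat.mul_le_mul hA hC
      _ ≤ (z * (3 * L)) * (z * (3 * L)) := by gcongr
      _ = 9 * L ^ 2 * z ^ 2 := by ring
  -- sum over blocks
  have hsum : Bad.card = ∑ k ∈ range (N / L + 1), (Bad.filter (fun t => t / L = k)).card := by
    apply card_eq_sum_card_fiberwise
    intro t ht
    rw [mem_coe, hBad, mem_filter, mem_range] at ht
    rw [mem_coe, mem_range]
    have h5 : t / L ≤ N / L := Nat.div_le_div_right ht.1.le
    exact Nat.lt_succ_of_le h5
  have h1 : N * Bad.card ≤ (N / L + 1) * (9 * L ^ 2 * z ^ 2) := by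
    rw [hsum, mul_sum]
    calc ∑ k ∈ range (N / L + 1), N * (Bad.filter (fun t => t / L = k)).card
        ≤ ∑ k ∈ range (N / L + 1), 9 * L ^ 2 * z ^ 2 := sum_le_sum (fun k _ => hblock k)
      _ = (N / L + 1) * (9 * L ^ 2 * z ^ 2) := by rw [sum_const, card_range, smul_eq_mul]
  have h2 : (N / L + 1) * L ≤ 2 * N := by
    have := Nat.div_mul_le_self N L
    have h3 : (N / L + 1) * L = N / L * L + L := by ring
    omega
  have h3 : N * Bad.card ≤ N * (36 * z ^ 2 * M) := by
    calc N * Bad.card ≤ (N / L + 1) * (9 * L ^ 2 * z ^ 2) := h1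
      _ = ((N / L + 1) * L) * (9 * L * z ^ 2) := by ring
      _ ≤ (2 * N) * (9 * L * z ^ 2) := Nat.mul_le_mul_right _ h2
      _ = N * (36 * z ^ 2 * M) := by rw [hL]; ring
  exact Nat.le_of_mul_le_mul_left h3 hNpos

end Pool.Agent.Helper67.BTLowP

namespace Pool.Agent.Helper60.BT
open Finset Pool.Agent.Helper67.BTLowP

/-- MODULE P (pure extraction): from a book embedding of the rook's graph, the row word and the
column word; in one of them at least 3/8 of the positions are spread. -/
theorem exists_spread_word {n p z M : ℕ} (hn : 1 ≤ n) (hz : 1 ≤ z) (hM : 1 ≤ M)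
    (hMz : 144 * z ^ 2 * M ≤ n * n) (h : HasBookEmbedding (rook n) p) :
    ∃ W : WD (n * n) n p,
      3 * (n * n) ≤ 8 * ((range (n * n)).filter (fun t => z * (W.nbs t (2 * M)).card < n)).card := by
  classical
  obtain ⟨pos, page, hinj, hlt, hnc⟩ := h
  obtain ⟨v, hv⟩ := exists_enum hn pos hinj
  have hadj1 : ∀ x y : Fin n × Fin n, x ≠ y → x.1 = y.1 → (rook n).Adj x y := by
    intro x y hxy h1
    rw [rook_adj]
    exact ⟨hxy, Or.inl h1⟩
  have hadj2 : ∀ x y : Fin n × Fin n, x ≠ y → x.2 = y.2 → (rook n).Adj x y := by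
    intro x y hxy h1
    rw [rook_adj]
    exact ⟨hxy, Or.inr h1⟩
  let W1 : WD (n * n) n p := mkWD pos page hlt hnc v hv Prod.fst Prod.snd
    (fun x y h1 h2 => Prod.ext h1 h2) hadj1
  let W2 : WD (n * n) n p := mkWD pos page hlt hnc v hv Prod.snd Prod.fst
    (fun x y h1 h2 => Prod.ext h2 h1) hadj2
  have hinj' : ∀ a b, a < n * n → b < n * n → W1.f a = W1.f b → W2.f a = W2.f b → a = b := by
    intro a b ha hb h1 h2
    have h3 : v a = v b := Prod.ext (Fin.ext h1) (Fin.ext h2)
    by_contra hne
    rcases lt_or_gt_of_ne hne with h4 | h4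
    · have := hv a b h4 hb
      rw [h3] at this
      exact lt_irrefl _ this
    · have := hv b a h4 ha
      rw [h3] at this
      exact lt_irrefl _ this
  have hz2 : 1 ≤ z ^ 2 := Nat.one_le_pow _ _ hz
  have hzM : M ≤ z ^ 2 * M := Nat.le_mul_of_pos_left M hz2
  have h144 : 144 * z ^ 2 * M = 144 * (z ^ 2 * M) := by ring
  have h36 : 36 * z ^ 2 * M = 36 * (z ^ 2 * M) := by ring
  have hboth := both (z := z) rfl hn hM W1 W2 hinj' (by omega)
  set G1 := (range (n * n)).filter (fun t => z * (W1.nbs t (2 * M)).card < n) with hG1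
  set G2 := (range (n * n)).filter (fun t => z * (W2.nbs t (2 * M)).card < n) with hG2
  set Bd := (range (n * n)).filter (fun t => n ≤ z * (W1.nbs t (2 * M)).card ∧
      n ≤ z * (W2.nbs t (2 * M)).card) with hBd
  have hcover : range (n * n) ⊆ G1 ∪ G2 ∪ Bd := by
    intro t ht
    rw [mem_union, mem_union, hG1, hG2, hBd, mem_filter, mem_filter, mem_filter]
    by_cases h1 : z * (W1.nbs t (2 * M)).card < n
    · exact Or.inl (Or.inl ⟨ht, h1⟩)
    · by_cases h2 : z * (W2.nbs t (2 * M)).card < n
      · exact Or.inl (Or.inr ⟨ht, h2⟩)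
      · exact Or.inr ⟨ht, not_lt.mp h1, not_lt.mp h2⟩
  have hc1 := card_le_card hcover
  rw [card_range] at hc1
  have hc2 := card_union_le (G1 ∪ G2) Bd
  have hc3 := card_union_le G1 G2
  by_cases h1 : 3 * (n * n) ≤ 8 * G1.card
  · exact ⟨W1, h1⟩
  · refine ⟨W2, ?_⟩
    rw [← hG2]
    omega

end Pool.Agent.Helper60.BT
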