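import Pool.Agent.Helper67.CubeCover

/-!
# Checking explicit triangulations of the cube
-/

namespace Helper67.Cube

open MeasureTheory Set

/-- bounded universal quantifier -/
def allB : ℕ → (ℕ → Bool) → Bool
  | 0, _ => true
  | n+1, f => f n && allB n f

/-- bounded existential quantifier -/
def anyB : ℕ → (ℕ → Bool) → Bool
  | 0, _ => false
  | n+1, f => f n || anyB n f

/-- bounded sum -/
def sumB : ℕ → (ℕ → ℤ) → ℤ
  | 0, _ => 0
  | n+1, f => sumB n f + f n

lemma allB_iff (n : ℕ) (f : ℕ → Bool) : allB n f = true ↔ ∀ i < n, f i = true := by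
  induction n with
  | zero => simp [allB]
  | succ n ih =>
    rw [allB, Bool.and_eq_true, ih]
    constructor
    · rintro ⟨h1, h2⟩ i hi
      rcases Nat.lt_succ_iff_lt_or_eq.1 hi with h | h
      · exact h2 i h
      · exact h ▸ h1
    · intro h
      exact ⟨h n (Nat.lt_succ_self n), fun i hi => h i (by omega)⟩

lemma anyB_iff (n : ℕ) (f : ℕ → Bool) : anyB n f = true ↔ ∃ i < n, f i = true := by
  induction n with
  | zero => simp [anyB]
  | succ n ih =>
    rw [anyB, Bool.or_eq_true, ih]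
    constructor
    · rintro (h | ⟨i, hi, h⟩)
      · exact ⟨n, Nat.lt_succ_self n, h⟩
      · exact ⟨i, by omega, h⟩
    · rintro ⟨i, hi, h⟩
      rcases Nat.lt_succ_iff_lt_or_eq.1 hi with h' | h'
      · exact Or.inr ⟨i, h', h⟩
      · exact Or.inl (h' ▸ h)

lemma sumB_eq (n : ℕ) (f : ℕ → ℤ) : sumB n f = ∑ i : Fin n, f i := by
  induction n with
  | zero => simp [sumB]
  | succ n ih => rw [sumB, ih, Fin.sum_univ_castSucc]; simp

/-- determinant by expansion -/
def detN : (n : ℕ) → (ℕ → ℕ → ℤ) → ℤ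
  | 0, _ => 1
  | n+1, A => sumB (n+1) fun j => if A 0 j = 0 then 0 else
      (if j % 2 = 0 then A 0 j else - A 0 j) *
        detN n (fun i k => A (i+1) (if k < j then k else k+1))

lemma detN_eq (n : ℕ) : ∀ A : ℕ → ℕ → ℤ, detN n A = (Matrix.of fun i j : Fin n => A i j).det := by
  induction n with
  | zero => intro A; simp [detN]
  | succ n ih =>
    intro A
    rw [detN, sumB_eq, Matrix.det_succ_row_zero]
    refine Finset.sum_congr rfl fun j _ => ?_
    have h1 : (Matrix.of fun i k : Fin n => A (i+1) (if (k : ℕ) < (j : ℕ) then k else k+1))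
        = (Matrix.of fun i j : Fin (n+1) => A i j).submatrix Fin.succ j.succAbove := by
      ext i k
      simp only [Matrix.of_apply, Matrix.submatrix_apply, Fin.val_succ]
      congr 1
      unfold Fin.succAbove
      by_cases h : (k : ℕ) < (j : ℕ)
      · have h' : k.castSucc < j := h
        simp [h, h']
      · have h' : ¬ k.castSucc < j := h
        simp [h, h']
    simp only [ih, h1]
    have h2 : (if (j : ℕ) % 2 = 0 then A 0 j else - A 0 j) = (-1) ^ (j : ℕ) * A 0 j := by
      rcases Nat.even_or_odd (j : ℕ) with h | h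
      · rw [if_pos (Nat.even_iff.1 h), h.neg_one_pow, one_mul]
      · rw [if_neg (by rw [Nat.odd_iff.1 h]; norm_num), h.neg_one_pow]; ring
    rw [h2]
    by_cases h3 : A 0 j = 0
    · rw [if_pos h3]
      simp [h3]
    · rw [if_neg h3]
      simp

/-- a hyperplane weakly separating two simplices and meeting both in their common vertices -/
def Sep {d : ℕ} (w w' : Fin (d+1) → Fin d → ℝ) : Prop :=
  ∃ (h : Fin d → ℝ) (c : ℝ), h ≠ 0 ∧ (∀ i, c ≤ h ⬝ᵥ w i ∧ (h ⬝ᵥ w i = c → w i ∈ range w')) ∧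
    (∀ i, h ⬝ᵥ w' i ≤ c ∧ (h ⬝ᵥ w' i = c → w' i ∈ range w))

lemma Sep.symm {d : ℕ} {w w' : Fin (d+1) → Fin d → ℝ} (hs : Sep w w') : Sep w' w := by
  obtain ⟨h, c, h0, h1, h2⟩ := hs
  refine ⟨-h, -c, neg_ne_zero.2 h0, fun i => ?_, fun i => ?_⟩
  · rw [neg_dotProduct]
    exact ⟨neg_le_neg (h2 i).1, fun h3 => (h2 i).2 (neg_injective h3)⟩
  · rw [neg_dotProduct]
    exact ⟨neg_le_neg (h1 i).1, fun h3 => (h1 i).2 (neg_injective h3)⟩

lemma dot_sum {d : ℕ} {ι : Type*} [Fintype ι] (h : Fin d → ℝ) (t : ι → ℝ) (w : ι → Fin d → ℝ) :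
    h ⬝ᵥ (∑ i, t i • w i) = ∑ i, t i * (h ⬝ᵥ w i) := by
  rw [dotProduct_sum]
  exact Finset.sum_congr rfl fun i _ => by rw [dotProduct_smul, smul_eq_mul]

lemma le_dot_of_mem_body {d : ℕ} {w : Fin (d+1) → Fin d → ℝ} {h : Fin d → ℝ} {c : ℝ}
    (hc : ∀ i, c ≤ h ⬝ᵥ w i) {x : Fin d → ℝ} (hx : x ∈ body w) : c ≤ h ⬝ᵥ x := by
  unfold body at hx
  rw [mem_hull_range] at hx
  obtain ⟨t, h0, h1, rfl⟩ := hx
  rw [dot_sum]
  calc c = ∑ i, t i * c := by rw [← Finset.sum_mul, h1, one_mul]
    _ ≤ _ := Finset.sum_le_sum fun i _ => mul_le_mul_of_nonneg_left (hc i) (h0 i)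

lemma dot_le_of_mem_body {d : ℕ} {w : Fin (d+1) → Fin d → ℝ} {h : Fin d → ℝ} {c : ℝ}
    (hc : ∀ i, h ⬝ᵥ w i ≤ c) {x : Fin d → ℝ} (hx : x ∈ body w) : h ⬝ᵥ x ≤ c := by
  unfold body at hx
  rw [mem_hull_range] at hx
  obtain ⟨t, h0, h1, rfl⟩ := hx
  rw [dot_sum]
  calc _ ≤ ∑ i, t i * c := Finset.sum_le_sum fun i _ => mul_le_mul_of_nonneg_left (hc i) (h0 i)
    _ = c := by rw [← Finset.sum_mul, h1, one_mul]

lemma mem_hull_of_dot_eq {d : ℕ} {w : Fin (d+1) → Fin d → ℝ} {h : Fin d → ℝ} {c : ℝ}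
    {S : Set (Fin d → ℝ)} (hc : ∀ i, c ≤ h ⬝ᵥ w i ∧ (h ⬝ᵥ w i = c → w i ∈ S)) {x : Fin d → ℝ}
    (hx : x ∈ body w) (hxc : h ⬝ᵥ x = c) : x ∈ convexHull ℝ (range w ∩ S) := by
  classical
  unfold body at hx
  rw [mem_hull_range] at hx
  obtain ⟨t, h0, h1, rfl⟩ := hx
  rw [dot_sum] at hxc
  have h2 : ∑ i, t i * (h ⬝ᵥ w i - c) = 0 := by
    simp only [mul_sub, Finset.sum_sub_distrib, ← Finset.sum_mul, h1, hxc]; ring
  have h3 : ∀ i, w i ∉ S → t i = 0 := by
    intro i hi
    have h4 := (Finset.sum_eq_zero_iff_of_nonneg (fun i _ => mul_nonneg (h0 i)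
      (sub_nonneg.2 (hc i).1))).1 h2 i (Finset.mem_univ _)
    rcases mul_eq_zero.1 h4 with h5 | h5
    · exact h5
    · exact absurd ((hc i).2 (by linarith)) hi
  set T := Finset.univ.filter fun i => w i ∈ S with hT
  have hT0 : ∀ i, i ∉ T → t i = 0 := fun i hi => h3 i (by simpa [hT] using hi)
  have hs1 : ∑ i ∈ T, t i = 1 := by
    rw [← h1]; exact Finset.sum_subset (Finset.subset_univ _) fun i _ hi => hT0 i hi
  have hs2 : ∑ i ∈ T, t i • w i = ∑ i, t i • w i :=
    Finset.sum_subset (Finset.subset_univ _) fun i _ hi => by rw [hT0 i hi, zero_smul]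
  rw [← hs2]
  refine (convex_convexHull ℝ _).sum_mem (fun i _ => h0 i) hs1 (fun i hi => ?_)
  refine subset_convexHull ℝ _ ⟨mem_range_self i, ?_⟩
  rw [hT, Finset.mem_filter] at hi
  exact hi.2

lemma Sep.inter {d : ℕ} {w w' : Fin (d+1) → Fin d → ℝ} (hs : Sep w w') :
    body w ∩ body w' = convexHull ℝ (range w ∩ range w') := by
  obtain ⟨h, c, h0, h1, h2⟩ := hs
  apply Subset.antisymm
  · rintro x ⟨hx, hx'⟩
    have h3 := le_dot_of_mem_body (fun i => (h1 i).1) hx
    have h4 := dot_le_of_mem_body (fun i => (h2 i).1) hx'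
    exact mem_hull_of_dot_eq h1 hx (le_antisymm h4 h3)
  · intro x hx
    exact ⟨convexHull_mono inter_subset_left hx, convexHull_mono inter_subset_right hx⟩

lemma Sep.volume_inter {d : ℕ} {w w' : Fin (d+1) → Fin d → ℝ} (hs : Sep w w') :
    volume (body w ∩ body w') = 0 := by
  obtain ⟨h, c, h0, h1, h2⟩ := hs
  let f : (Fin d → ℝ) →ₗ[ℝ] ℝ := dotProductBilin ℝ ℝ h
  have hf : ∀ x, f x = h ⬝ᵥ x := fun x => rfl
  have hsub : body w ∩ body w' ⊆
      ((AffineSubspace.mk' c ⊥).comap f.toAffineMap : AffineSubspace ℝ (Fin d → ℝ)) := by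
    rintro x ⟨hx, hx'⟩
    have h3 := le_dot_of_mem_body (fun i => (h1 i).1) hx
    have h4 := dot_le_of_mem_body (fun i => (h2 i).1) hx'
    have h5 : f x = c := le_antisymm h4 h3
    simp [h5]
  refine measure_mono_null hsub (Measure.addHaar_affineSubspace _ _ ?_)
  intro htop
  have h6 : ∀ x, f x = c := by
    intro x
    have : x ∈ ((AffineSubspace.mk' c ⊥).comap f.toAffineMap : AffineSubspace ℝ (Fin d → ℝ)) := by
      rw [htop]; trivial
    simpa [sub_eq_zero] using this
  have h7 : c = 0 := by rw [← h6 0, map_zero]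
  apply h0
  have h8 : h ⬝ᵥ h = 0 := by rw [← hf, h6, h7]
  exact dotProduct_self_eq_zero.1 h8

lemma Sep.disjoint_interior {d : ℕ} {w w' : Fin (d+1) → Fin d → ℝ} (hs : Sep w w') :
    Disjoint (interior (body w)) (interior (body w')) := by
  rw [disjoint_iff_inter_eq_empty]
  have ho : IsOpen (interior (body w) ∩ interior (body w')) := isOpen_interior.inter isOpen_interior
  rw [← ho.measure_eq_zero_iff volume]
  exact measure_mono_null (inter_subset_inter interior_subset interior_subset) hs.volume_inter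

lemma affineIndependent_of_det {d : ℕ} {w : Fin (d+1) → Fin d → ℝ} (h : (bord w).det ≠ 0) :
    AffineIndependent ℝ w := by
  rw [affineIndependent_iff_of_fintype]
  intro t h1 h2
  have h3 : Matrix.vecMul t (bord w) = 0 := by
    ext k
    refine Fin.cases ?_ (fun k => ?_) k
    · simp [Matrix.vecMul, dotProduct, bord, h1]
    · have h4 : ∑ i, t i • w i = 0 := by
        rw [Finset.weightedVSub_eq_linear_combination _ h1] at h2
        exact h2
      have := congrFun h4 k
      simpa [Matrix.vecMul, dotProduct, bord] using this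
  have h4 := Matrix.eq_zero_of_vecMul_eq_zero h h3
  intro i
  exact congrFun h4 i

lemma isClosed_body {d : ℕ} (w : Fin (d+1) → Fin d → ℝ) : IsClosed (body w) :=
  ((finite_range w).isCompact_convexHull (𝕜 := ℝ)).isClosed

lemma cube_eq (d : ℕ) : cube d = Icc 0 1 := by
  ext x; simp [cube, Pi.le_def, forall_and]

lemma body_subset_cube {d : ℕ} {w : Fin (d+1) → Fin d → ℝ} (hw : InUnit w) : body w ⊆ cube d := by
  rw [cube_eq]
  refine convexHull_min ?_ (convex_Icc 0 1)
  rintro _ ⟨i, rfl⟩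
  rw [← cube_eq]
  exact fun j => hw i j

/-- a family of pairwise separated nondegenerate simplices of total volume one is a
triangulation -/
theorem isTriangulation_of_sep {d N : ℕ} (W : Fin N → Fin (d+1) → Fin d → ℝ)
    (hu : ∀ s, InUnit (W s)) (hdet : ∀ s, (bord (W s)).det ≠ 0)
    (hsep : ∀ s t, s ≠ t → Sep (W s) (W t)) (hvol : ∑ s, vdet (W s) = d.factorial) :
    IsTriangulation W := by
  refine ⟨⟨⟨fun s => affineIndependent_of_det (hdet s), ?_⟩,
    fun s t hst => (hsep s t hst).disjoint_interior⟩, fun s t => ?_⟩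
  · -- coverage
    have hclosed : IsClosed (⋃ s, body (W s)) := isClosed_iUnion_of_finite fun s => isClosed_body _
    have hsub : (⋃ s, body (W s)) ⊆ cube d := iUnion_subset fun s => body_subset_cube (hu s)
    have hmeas : volume (⋃ s, body (W s)) = 1 := by
      rw [measure_iUnion₀]
      · rw [tsum_fintype]
        simp only [volume_body]
        rw [← ENNReal.ofReal_sum_of_nonneg (fun s _ => div_nonneg (vdet_nonneg _) (by positivity)),
          ← Finset.sum_div, hvol, div_self (by positivity), ENNReal.ofReal_one]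
      · intro s t hst
        exact (hsep s t hst).volume_inter
      · exact fun s => (isClosed_body _).measurableSet.nullMeasurableSet
    apply Subset.antisymm hsub
    have hO : IsOpen (interior (cube d) \ ⋃ s, body (W s)) := isOpen_interior.sdiff hclosed
    have hO0 : interior (cube d) \ (⋃ s, body (W s)) = ∅ := by
      rw [← hO.measure_eq_zero_iff volume]
      refine measure_mono_null (sdiff_subset_sdiff_left interior_subset) ?_
      rw [measure_sdiff hsub hclosed.measurableSet.nullMeasurableSet (by rw [hmeas]; simp),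
        volume_cube, hmeas]
      simp
    have h1 : interior (cube d) ⊆ ⋃ s, body (W s) := sdiff_eq_empty.1 hO0
    have h2 : closure (interior (cube d)) ⊆ ⋃ s, body (W s) := closure_minimal h1 hclosed
    refine Subset.trans ?_ h2
    have hint : (interior (cube d)).Nonempty := by
      rw [cube_eq]
      refine ⟨fun _ => 1/2, ?_⟩
      rw [← pi_univ_Icc, interior_pi_set finite_univ]
      intro i _
      simp only [Pi.zero_apply, Pi.one_apply, interior_Icc]
      norm_num
    have hconv : Convex ℝ (cube d) := by rw [cube_eq]; exact convex_Icc 0 1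
    rw [hconv.closure_interior_eq_closure_of_nonempty_interior hint]
    exact subset_closure
  · by_cases hst : s = t
    · subst hst
      rw [inter_self, inter_self]; rfl
    · exact (hsep s t hst).inter

/-- the vertex of the cube with the code `c` -/
def vtx (d : ℕ) (c : ℕ) : Fin d → ℝ := fun j => (((c >>> (j : ℕ)) % 2 : ℕ) : ℝ)

/-- the family of simplices with the given vertex codes -/
def fam (d N : ℕ) (code : ℕ → ℕ → ℕ) : Fin N → Fin (d+1) → Fin d → ℝ := fun s i => vtx d (code s i)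

/-- value of a functional at a vertex -/
def dotB (d : ℕ) (h : ℕ → ℤ) (c : ℕ) : ℤ := sumB d fun j => if (c >>> j) % 2 = 0 then 0 else h j

/-- check of a separating functional -/
def sepB (d : ℕ) (code : ℕ → ℕ → ℕ) (s t : ℕ) (h : ℕ → ℤ) (c : ℤ) : Bool :=
  allB (d+1) (fun i => if anyB (d+1) (fun k => Nat.beq (code t k) (code s i)) then
      decide (dotB d h (code s i) = c) else decide (c < dotB d h (code s i))) &&
  (allB (d+1) (fun i => if anyB (d+1) (fun k => Nat.beq (code s k) (code t i)) then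
      decide (dotB d h (code t i) = c) else decide (dotB d h (code t i) < c)) &&
   anyB d (fun j => !decide (h j = 0)))

/-- determinant of the simplex number `s` -/
def detE (d : ℕ) (code : ℕ → ℕ → ℕ) (s : ℕ) : ℤ :=
  detN d fun i j => Int.ofNat (((code s (i+1)) >>> j) % 2) - Int.ofNat (((code s 0) >>> j) % 2)

lemma dotB_eq (d : ℕ) (h : ℕ → ℤ) (c : ℕ) :
    ((dotB d h c : ℤ) : ℝ) = (fun j : Fin d => ((h j : ℤ) : ℝ)) ⬝ᵥ vtx d c := by
  rw [dotB, sumB_eq, dotProduct, Int.cast_sum]
  refine Finset.sum_congr rfl fun j _ => ?_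
  unfold vtx
  split_ifs with h0
  · simp [h0]
  · have h1 : (c >>> (j : ℕ)) % 2 = 1 := by omega
    simp [h1]

lemma sep_of_sepB {d N : ℕ} {code : ℕ → ℕ → ℕ} (s t : Fin N) {h : ℕ → ℤ} {c : ℤ}
    (hs : sepB d code s t h c = true) : Sep (fam d N code s) (fam d N code t) := by
  unfold sepB at hs
  rw [Bool.and_eq_true, Bool.and_eq_true, allB_iff, allB_iff, anyB_iff] at hs
  obtain ⟨h1, h2, h3⟩ := hs
  refine ⟨fun j : Fin d => ((h j : ℤ) : ℝ), (c : ℝ), ?_, ?_, ?_⟩
  · obtain ⟨j, hj, hj0⟩ := h3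
    intro hcon
    have := congrFun hcon ⟨j, hj⟩
    simp only [Pi.zero_apply, Int.cast_eq_zero] at this
    simp [this] at hj0
  · intro i
    have h4 := h1 i i.2
    unfold fam
    rw [← dotB_eq]
    split_ifs at h4 with h5
    · rw [anyB_iff] at h5
      obtain ⟨k, hk, hk2⟩ := h5
      have h6 : dotB d h (code s i) = c := of_decide_eq_true h4
      have hk3 : code t k = code s i := Nat.eq_of_beq_eq_true hk2
      rw [h6]
      exact ⟨le_rfl, fun _ => ⟨⟨k, hk⟩, by simp only [hk3]⟩⟩
    · have h6 : c < dotB d h (code s i) := of_decide_eq_true h4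
      have h7 : (c : ℝ) < (dotB d h (code s i) : ℝ) := by exact_mod_cast h6
      exact ⟨h7.le, fun h8 => absurd h8 (ne_of_gt h7)⟩
  · intro i
    have h4 := h2 i i.2
    unfold fam
    rw [← dotB_eq]
    split_ifs at h4 with h5
    · rw [anyB_iff] at h5
      obtain ⟨k, hk, hk2⟩ := h5
      have h6 : dotB d h (code t i) = c := of_decide_eq_true h4
      have hk3 : code s k = code t i := Nat.eq_of_beq_eq_true hk2
      rw [h6]
      exact ⟨le_rfl, fun _ => ⟨⟨k, hk⟩, by simp only [hk3]⟩⟩
    · have h6 : dotB d h (code t i) < c := of_decide_eq_true h4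
      have h7 : (dotB d h (code t i) : ℝ) < (c : ℝ) := by exact_mod_cast h6
      exact ⟨h7.le, fun h8 => absurd h8 (ne_of_lt h7)⟩

lemma detE_eq {d N : ℕ} {code : ℕ → ℕ → ℕ} (s : Fin N) :
    (bord (fam d N code s)).det = ((detE d code s : ℤ) : ℝ) := by
  rw [det_bord, detE, detN_eq, Int.cast_det]
  congr 1
  ext i j
  simp only [edge, fam, vtx, Matrix.of_apply, Matrix.map_apply, Int.cast_sub,
    Int.ofNat_eq_natCast, Int.cast_natCast, Fin.val_succ, Fin.val_zero]

theorem tri_of_check {d N : ℕ} (code : ℕ → ℕ → ℕ) (H : ℕ → ℕ → ℕ → ℤ) (C : ℕ → ℕ → ℤ)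
    (h1 : allB N (fun s => allB s (fun t => sepB d code s t (H s t) (C s t))) = true)
    (h2 : allB N (fun s => !decide (detE d code s = 0)) = true)
    (h3 : sumB N (fun s => |detE d code s|) = d.factorial) :
    IsTriangulation (fam d N code) ∧ IsVertexFamily (fam d N code) := by
  have hv : IsVertexFamily (fam d N code) := by
    intro s i j
    unfold fam vtx
    rcases Nat.mod_two_eq_zero_or_one ((code s i) >>> (j : ℕ)) with h | h <;> simp [h]
  refine ⟨isTriangulation_of_sep _ ?_ ?_ ?_ ?_, hv⟩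
  · intro s i j
    rcases hv s i j with h | h <;> rw [h] <;> norm_num
  · intro s
    rw [detE_eq]
    rw [allB_iff] at h2
    have := h2 s s.2
    intro hcon
    have h4 : detE d code s = 0 := by exact_mod_cast hcon
    simp [h4] at this
  · intro s t hst
    rw [allB_iff] at h1
    rcases lt_or_gt_of_ne (fun h : (s : ℕ) = t => hst (Fin.ext h)) with h | h
    · have h4 := h1 t t.2
      rw [allB_iff] at h4
      exact (sep_of_sepB t s (h4 s h)).symm
    · have h4 := h1 s s.2
      rw [allB_iff] at h4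
      exact sep_of_sepB s t (h4 t h)
  · have h4 : ∀ s, vdet (fam d N code s) = ((|detE d code s| : ℤ) : ℝ) := by
      intro s
      rw [vdet, detE_eq, Int.cast_abs]
    simp only [h4]
    rw [sumB_eq] at h3
    rw [← Int.cast_sum, h3]
    simp

end Helper67.Cube
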