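import Mathlib

/-!
# Book embeddings of the rook's graph `K_n □ K_n` with `O(n^{4/3})` pages
-/

set_option autoImplicit false
set_option linter.unusedSectionVars false
set_option linter.unusedVariables false

namespace Helper67.Book

/-- `G` has a book embedding on `k` pages: a linear order of the vertices (given by an injective
map `f` to `ℕ`) and a map assigning to each edge one of `k` pages, such that no two edges of one page
have interleaving endpoints. -/
def HasBook {V : Type*} (G : SimpleGraph V) (k : ℕ) : Prop :=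
  ∃ (f : V → ℕ) (page : G.edgeSet → Fin k), Function.Injective f ∧
    ∀ e e' : G.edgeSet, page e = page e' → ∀ a b c d : V,
      (e : Sym2 V) = s(a, b) → (e' : Sym2 V) = s(c, d) → ¬ (f a < f c ∧ f c < f b ∧ f b < f d)

/-- A criterion for book embeddings. -/
theorem hasBook_of {V : Type*} (G : SimpleGraph V) {α : Type*} [Fintype α] (f : V → ℕ)
    (hf : Function.Injective f) (pg : V → V → α)
    (h : ∀ a b c d : V, G.Adj a b → G.Adj c d → f a < f c → f c < f b → f b < f d →
      pg a b ≠ pg c d) (k : ℕ) (hk : Fintype.card α ≤ k) : HasBook G k := by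
  classical
  let ι : α → Fin k := fun a => Fin.castLE hk (Fintype.equivFin α a)
  have hι : Function.Injective ι := (Fin.castLE_injective hk).comp (Fintype.equivFin α).injective
  -- sorted end points
  have hex : ∀ e : G.edgeSet, ∃ p : V × V, (e : Sym2 V) = s(p.1, p.2) ∧ f p.1 < f p.2 ∧
      G.Adj p.1 p.2 := by
    rintro ⟨e, he⟩
    induction e using Sym2.ind with
    | h a b =>
      rw [SimpleGraph.mem_edgeSet] at he
      rcases lt_trichotomy (f a) (f b) with hlt | heq | hgt
      · exact ⟨(a, b), rfl, hlt, he⟩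
      · exact absurd (hf heq) he.ne
      · exact ⟨(b, a), Sym2.eq_swap, hgt, he.symm⟩
  choose p hp1 hp2 hp3 using hex
  refine ⟨f, fun e => ι (pg (p e).1 (p e).2), hf, ?_⟩
  intro e e' hee a b c d he he' ⟨h1, h2, h3⟩
  have hpe : (p e).1 = a ∧ (p e).2 = b := by
    have h4 := (hp1 e).symm.trans he
    rw [Sym2.eq_iff] at h4
    rcases h4 with h4 | h4
    · exact h4
    · have := hp2 e
      rw [h4.1, h4.2] at this
      omega
  have hpe' : (p e').1 = c ∧ (p e').2 = d := by
    have h4 := (hp1 e').symm.trans he'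
    rw [Sym2.eq_iff] at h4
    rcases h4 with h4 | h4
    · exact h4
    · have := hp2 e'
      rw [h4.1, h4.2] at this
      omega
  have h5 := hι hee
  have h6 := hp3 e
  have h7 := hp3 e'
  rw [hpe.1, hpe.2] at h5 h6
  rw [hpe'.1, hpe'.2] at h5 h7
  exact h a b c d h6 h7 h1 h2 h3 h5

/-- Monotonicity. -/
theorem HasBook.mono {V W : Type*} {G : SimpleGraph V} {H : SimpleGraph W} {k l : ℕ}
    (hH : HasBook H k) (hkl : k ≤ l) (φ : V → W) (hφ : Function.Injective φ)
    (hadj : ∀ a b, G.Adj a b → H.Adj (φ a) (φ b)) : HasBook G l := by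
  obtain ⟨f, page, hf, hpage⟩ := hH
  let ψ : G.edgeSet → H.edgeSet := fun e => ⟨Sym2.map φ e, by
    obtain ⟨e, he⟩ := e
    induction e using Sym2.ind with
    | h a b => exact hadj a b he⟩
  refine ⟨f ∘ φ, fun e => Fin.castLE hkl (page (ψ e)), hf.comp hφ, ?_⟩
  intro e e' hee a b c d he he'
  have h1 := Fin.castLE_injective hkl hee
  refine hpage (ψ e) (ψ e') h1 (φ a) (φ b) (φ c) (φ d) ?_ ?_
  · change Sym2.map φ e = _
    rw [he, Sym2.map_mk]
  · change Sym2.map φ e' = _
    rw [he', Sym2.map_mk]

section core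

variable (p : ℕ)

/-- triples mod `p` -/
abbrev T3 : Type := ZMod p × ZMod p × ZMod p

/-- first key of the column `y` in band `a` -/
def kU (a : ZMod p) (y : T3 p) : ZMod p := y.1 + a * y.2.1 + a ^ 2 * y.2.2

/-- second key of the column `y` in band `a` -/
def kV (a : ZMod p) (y : T3 p) : ZMod p := -(y.2.1 + 2 * a * y.2.2)

/-- position of the column `y` in band `a` -/
def pos (a : ZMod p) (y : T3 p) : ℕ := ((kU p a y).val * p + (kV p a y).val) * p + (y.2.2).val

/-- first key of the row `x`, inside a column with top key `u` -/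
def kW (u : ZMod p) (x : T3 p) : ZMod p := x.2.1 + u * x.2.2

/-- position of the row `x` inside a column with top key `u` -/
def loc (u : ZMod p) (x : T3 p) : ℕ := (kW p u x).val * p + (x.2.2).val

/-- The spine order of the cells (row, column). -/
def ord (c : T3 p × T3 p) : ℕ :=
  ((c.1.1).val * p ^ 3 + pos p c.1.1 c.2) * p ^ 2 + loc p (kU p c.1.1 c.2) c.1

variable {p} [hp : Fact p.Prime]

theorem p_pos : 0 < p := hp.out.pos

theorem pos_lt (a : ZMod p) (y : T3 p) : pos p a y < p ^ 3 := by
  have h1 := ZMod.val_lt (kU p a y)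
  have h2 := ZMod.val_lt (kV p a y)
  have h3 := ZMod.val_lt y.2.2
  unfold pos
  have h4 : (kU p a y).val * p + (kV p a y).val + 1 ≤ p * p := by nlinarith
  have h5 : ((kU p a y).val * p + (kV p a y).val + 1) * p ≤ p * p * p :=
    Nat.mul_le_mul_right p h4
  have h6 : p ^ 3 = p * p * p := by ring
  rw [h6]
  nlinarith

theorem loc_lt (u : ZMod p) (x : T3 p) : loc p u x < p ^ 2 := by
  have h1 := ZMod.val_lt (kW p u x)
  have h3 := ZMod.val_lt x.2.2
  unfold loc
  have h4 : ((kW p u x).val + 1) * p ≤ p * p := Nat.mul_le_mul_right p h1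
  have h6 : p ^ 2 = p * p := by ring
  rw [h6]
  nlinarith

theorem div_lem {M A B r s : ℕ} (hr : r < M) (hs : s < M) (h : A * M + r = B * M + s) :
    A = B ∧ r = s := by
  have h1 : A = B := by
    rcases lt_trichotomy A B with h1 | h1 | h1
    · have : (A + 1) * M ≤ B * M := Nat.mul_le_mul_right M h1
      nlinarith
    · exact h1
    · have : (B + 1) * M ≤ A * M := Nat.mul_le_mul_right M h1
      nlinarith
  subst h1
  exact ⟨rfl, by omega⟩

theorem div_le {M A B r s : ℕ} (hr : r < M) (hs : s < M) (h : A * M + r ≤ B * M + s) :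
    A ≤ B := by
  by_contra hcon
  rw [not_le] at hcon
  have : (B + 1) * M ≤ A * M := Nat.mul_le_mul_right M hcon
  nlinarith

theorem pos_inj (a : ZMod p) {y y' : T3 p} (h : pos p a y = pos p a y') : y = y' := by
  unfold pos at h
  obtain ⟨h1, h2⟩ := div_lem (ZMod.val_lt _) (ZMod.val_lt _) h
  obtain ⟨h3, h4⟩ := div_lem (ZMod.val_lt _) (ZMod.val_lt _) h1
  have e2 := ZMod.val_injective p h2
  have e3 := ZMod.val_injective p h3
  have e4 := ZMod.val_injective p h4
  unfold kV at e4
  unfold kU at e3
  rw [e2] at e3 e4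
  have e5 : y.2.1 = y'.2.1 := by linear_combination -e4
  rw [e5] at e3
  have e6 : y.1 = y'.1 := by linear_combination e3
  exact Prod.ext e6 (Prod.ext e5 e2)

theorem loc_inj (u : ZMod p) {x x' : T3 p} (h : loc p u x = loc p u x') : x.2 = x'.2 := by
  unfold loc at h
  obtain ⟨h1, h2⟩ := div_lem (ZMod.val_lt _) (ZMod.val_lt _) h
  have e1 := ZMod.val_injective p h1
  have e2 := ZMod.val_injective p h2
  unfold kW at e1
  rw [e2] at e1
  have e5 : x.2.1 = x'.2.1 := by linear_combination e1
  exact Prod.ext e5 e2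

/-- comparison of `ord`: bands -/
theorem ord_band_le {c d : T3 p × T3 p} (h : ord p c ≤ ord p d) : (c.1.1).val ≤ (d.1.1).val := by
  unfold ord at h
  exact div_le (pos_lt _ _) (pos_lt _ _) (div_le (loc_lt _ _) (loc_lt _ _) h)

/-- comparison of `ord`: positions inside a band -/
theorem ord_pos_le {c d : T3 p × T3 p} (h : ord p c ≤ ord p d) (hb : c.1.1 = d.1.1) :
    pos p c.1.1 c.2 ≤ pos p d.1.1 d.2 := by
  unfold ord at h
  have := div_le (loc_lt _ _) (loc_lt _ _) h
  rw [hb] at this ⊢
  omega

/-- comparison of `ord`: inside a column of a band -/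
theorem ord_loc_lt {c d : T3 p × T3 p} (h : ord p c < ord p d) (hb : c.1.1 = d.1.1)
    (hy : c.2 = d.2) : loc p (kU p c.1.1 c.2) c.1 < loc p (kU p d.1.1 d.2) d.1 := by
  unfold ord at h
  rw [hb, hy] at h ⊢
  omega

theorem ord_inj : Function.Injective (ord p) := by
  intro c d h
  have h0 := h
  unfold ord at h
  obtain ⟨h1, h2⟩ := div_lem (loc_lt _ _) (loc_lt _ _) h
  obtain ⟨h3, h4⟩ := div_lem (pos_lt _ _) (pos_lt _ _) h1
  have e3 := ZMod.val_injective p h3
  rw [e3] at h4
  have e4 := pos_inj _ h4
  rw [e3, e4] at h2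
  have e5 := loc_inj _ h2
  exact Prod.ext (Prod.ext e3 e5) e4

/-- the wrap bit -/
def wrap (a b : ZMod p) (y : T3 p) : Bool := decide (p ≤ (kV p a y).val + (kV p b y).val)

theorem key_V {a b : ZMod p} (hab : a ≠ b) {y y' : T3 p} (h1 : kU p a y = kU p a y')
    (h2 : kU p b y = kU p b y') :
    kV p a y + kV p b y = kV p a y' + kV p b y' := by
  have hne : b - a ≠ 0 := sub_ne_zero.2 hab.symm
  have h3 : (b - a) * ((y.2.1 - y'.2.1) + (a + b) * (y.2.2 - y'.2.2)) = 0 := by
    unfold kU at h1 h2
    linear_combination h2 - h1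
  have h4 := (mul_eq_zero.1 h3).resolve_left hne
  unfold kV
  linear_combination (-2) * h4

theorem key_V' {a b : ZMod p} (hab : a ≠ b) {y y' : T3 p} (h1 : kU p a y = kU p a y')
    (h2 : kU p b y = kU p b y') (h3 : kV p a y = kV p a y') : y = y' := by
  have hne : b - a ≠ 0 := sub_ne_zero.2 hab.symm
  have h3' : (b - a) * ((y.2.1 - y'.2.1) + (a + b) * (y.2.2 - y'.2.2)) = 0 := by
    unfold kU at h1 h2
    linear_combination h2 - h1
  have h4 := (mul_eq_zero.1 h3').resolve_left hne
  have h5 : (b - a) * (y.2.2 - y'.2.2) = 0 := by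
    unfold kV at h3
    linear_combination h4 + h3
  have h6 := (mul_eq_zero.1 h5).resolve_left hne
  have e2 : y.2.2 = y'.2.2 := sub_eq_zero.1 h6
  have e1 : y.2.1 = y'.2.1 := by
    linear_combination h4 - (a + b) * h6
  have e0 : y.1 = y'.1 := by
    unfold kU at h1
    rw [e1, e2] at h1
    linear_combination h1
  exact Prod.ext e0 (Prod.ext e1 e2)

theorem pos_lt_U {a : ZMod p} {y y' : T3 p} (h : pos p a y ≤ pos p a y') :
    (kU p a y).val ≤ (kU p a y').val := by
  unfold pos at h
  exact div_le (ZMod.val_lt _) (ZMod.val_lt _) (div_le (ZMod.val_lt _) (ZMod.val_lt _) h)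

theorem pos_lt_V {a : ZMod p} {y y' : T3 p} (h : pos p a y ≤ pos p a y')
    (hU : kU p a y = kU p a y') : (kV p a y).val ≤ (kV p a y').val := by
  unfold pos at h
  have := div_le (ZMod.val_lt _) (ZMod.val_lt _) h
  rw [hU] at this
  omega

/-- The columns are separated: the crucial property of the column orders. -/
theorem columns_sep {a b : ZMod p} (hab : a ≠ b) {y y' : T3 p} (h1 : pos p a y < pos p a y')
    (h2 : pos p b y < pos p b y')
    (h3 : (kU p a y).val + (kU p b y).val = (kU p a y').val + (kU p b y').val)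
    (h4 : wrap a b y = wrap a b y') : False := by
  have e1 := pos_lt_U h1.le
  have e2 := pos_lt_U h2.le
  have e3 : kU p a y = kU p a y' := ZMod.val_injective p (by omega)
  have e4 : kU p b y = kU p b y' := ZMod.val_injective p (by omega)
  have e5 := pos_lt_V h1.le e3
  have e6 := pos_lt_V h2.le e4
  have e7 := key_V hab e3 e4
  have e8 : (kV p a y).val + (kV p b y).val = (kV p a y').val + (kV p b y').val := by
    have m1 : (((kV p a y).val + (kV p b y).val : ℕ) : ZMod p) =
        (((kV p a y').val + (kV p b y').val : ℕ) : ZMod p) := by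
      push_cast
      rw [ZMod.natCast_zmod_val, ZMod.natCast_zmod_val, ZMod.natCast_zmod_val,
        ZMod.natCast_zmod_val]
      exact e7
    rw [ZMod.natCast_eq_natCast_iff] at m1
    have l1 := ZMod.val_lt (kV p a y)
    have l2 := ZMod.val_lt (kV p b y)
    have l3 := ZMod.val_lt (kV p a y')
    have l4 := ZMod.val_lt (kV p b y')
    unfold wrap at h4
    rw [decide_eq_decide] at h4
    by_cases hw : p ≤ (kV p a y).val + (kV p b y).val
    · have hw' := h4.1 hw
      have m2 : (kV p a y).val + (kV p b y).val - p ≡ (kV p a y').val + (kV p b y').val - p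
          [MOD p] := by
        have := Nat.ModEq.add_right_cancel' p (a := (kV p a y).val + (kV p b y).val - p)
          (b := (kV p a y').val + (kV p b y').val - p) (n := p) (by
            rw [Nat.sub_add_cancel hw, Nat.sub_add_cancel hw']
            exact m1)
        exact this
      have m3 := Nat.ModEq.eq_of_lt_of_lt m2 (by omega) (by omega)
      omega
    · have hw' : ¬ p ≤ (kV p a y').val + (kV p b y').val := fun h => hw (h4.2 h)
      exact Nat.ModEq.eq_of_lt_of_lt m1 (by omega) (by omega)
  have e9 : kV p a y = kV p a y' := ZMod.val_injective p (by omega)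
  have := key_V' hab e3 e4 e9
  rw [this] at h1
  exact lt_irrefl _ h1

/-- The rows are separated. -/
theorem rows_sep {u u' : ZMod p} (hu : u ≠ u') {x x' : T3 p} (h1 : loc p u x < loc p u x')
    (h2 : loc p u' x < loc p u' x')
    (h3 : (kW p u x).val + (kW p u' x).val = (kW p u x').val + (kW p u' x').val) : False := by
  have e1 : (kW p u x).val ≤ (kW p u x').val := by
    unfold loc at h1
    exact div_le (ZMod.val_lt _) (ZMod.val_lt _) h1.le
  have e2 : (kW p u' x).val ≤ (kW p u' x').val := by
    unfold loc at h2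
    exact div_le (ZMod.val_lt _) (ZMod.val_lt _) h2.le
  have e3 : kW p u x = kW p u x' := ZMod.val_injective p (by omega)
  have e4 : kW p u' x = kW p u' x' := ZMod.val_injective p (by omega)
  have e5 : (u - u') * (x.2.2 - x'.2.2) = 0 := by
    unfold kW at e3 e4
    linear_combination e3 - e4
  have e6 := (mul_eq_zero.1 e5).resolve_left (sub_ne_zero.2 hu)
  have e7 : x.2.2 = x'.2.2 := sub_eq_zero.1 e6
  unfold loc at h1
  rw [e3, e7] at h1
  exact lt_irrefl _ h1

/-- the pages -/
abbrev Pg (p : ℕ) : Type :=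
  Fin (p ^ 2) ⊕ (Fin (2 * p) × Fin (2 * p) × Bool × Fin (p ^ 2)) ⊕
    (Fin (2 * p ^ 3) × Fin (2 * p)) ⊕ (Fin (2 * p ^ 2) × Fin (p ^ 2))

/-- position of a column inside its run -/
def run (a : ZMod p) (y : T3 p) : ℕ := (kV p a y).val * p + (y.2.2).val

theorem run_lt (a : ZMod p) (y : T3 p) : run a y < p ^ 2 := by
  have h1 := ZMod.val_lt (kV p a y)
  have h3 := ZMod.val_lt y.2.2
  unfold run
  have h4 : ((kV p a y).val + 1) * p ≤ p * p := Nat.mul_le_mul_right p h1
  have h6 : p ^ 2 = p * p := by ring
  rw [h6]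
  nlinarith

theorem pos_eq_run (a : ZMod p) (y : T3 p) : pos p a y = (kU p a y).val * p ^ 2 + run a y := by
  unfold pos run
  ring

open Classical in
/-- the page of the edge from the cell `A` to the later cell `B` -/
noncomputable def pg (A B : T3 p × T3 p) : Pg p :=
  if A.2 = B.2 then
    if A.1.1 = B.1.1 then Sum.inl ⟨loc p (kU p A.1.1 A.2) A.1, loc_lt _ _⟩
    else Sum.inr (Sum.inl (
      ⟨(A.1.1).val + (B.1.1).val, by
        have := ZMod.val_lt A.1.1; have := ZMod.val_lt B.1.1; omega⟩,
      ⟨(kU p A.1.1 A.2).val + (kU p B.1.1 A.2).val, by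
        have := ZMod.val_lt (kU p A.1.1 A.2); have := ZMod.val_lt (kU p B.1.1 A.2); omega⟩,
      wrap A.1.1 B.1.1 A.2, ⟨loc p (kU p A.1.1 A.2) A.1, loc_lt _ _⟩))
  else
    if kU p A.1.1 A.2 = kU p A.1.1 B.2 then Sum.inr (Sum.inr (Sum.inr (
      ⟨run A.1.1 A.2 + run A.1.1 B.2, by
        have := run_lt A.1.1 A.2; have := run_lt A.1.1 B.2; omega⟩,
      ⟨loc p (kU p A.1.1 A.2) A.1, loc_lt _ _⟩)))
    else Sum.inr (Sum.inr (Sum.inl (
      ⟨pos p A.1.1 A.2 + pos p A.1.1 B.2, by
        have := pos_lt A.1.1 A.2; have := pos_lt A.1.1 B.2; omega⟩,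
      ⟨(kW p (kU p A.1.1 A.2) A.1).val + (kW p (kU p A.1.1 B.2) A.1).val, by
        have := ZMod.val_lt (kW p (kU p A.1.1 A.2) A.1)
        have := ZMod.val_lt (kW p (kU p A.1.1 B.2) A.1); omega⟩)))

theorem card_Pg : Fintype.card (Pg p) = p ^ 2 + (8 * p ^ 4 + (4 * p ^ 4 + 2 * p ^ 4)) := by
  simp only [Pg, Fintype.card_sum, Fintype.card_prod, Fintype.card_fin, Fintype.card_bool]
  ring

/-- The book embedding for `n = p³`. -/
theorem main_p : HasBook ((⊤ : SimpleGraph (T3 p)) □ (⊤ : SimpleGraph (T3 p))) (15 * p ^ 4) := by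
  classical
  refine hasBook_of _ (ord p) ord_inj pg ?_ _ ?_
  swap
  · rw [card_Pg]
    have h1 : 1 ≤ p := hp.out.one_lt.le
    have h2 : p ^ 2 ≤ p ^ 4 := Nat.pow_le_pow_right h1 (by norm_num)
    omega
  rintro A B C D hAB hCD h1 h2 h3 heq
  rw [SimpleGraph.boxProd_adj, SimpleGraph.top_adj, SimpleGraph.top_adj] at hAB hCD
  have b1 := ord_band_le h1.le
  have b2 := ord_band_le h2.le
  have b3 := ord_band_le h3.le
  unfold pg at heq
  by_cases cA : A.2 = B.2
  · rw [if_pos cA] at heq
    have hne : A.1 ≠ B.1 := by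
      rcases hAB with h | h
      · exact h.1
      · exact absurd cA h.1
    by_cases cB : A.1.1 = B.1.1
    · -- same column, same band
      rw [if_pos cB] at heq
      by_cases cC : C.2 = D.2
      · rw [if_pos cC] at heq
        by_cases cD : C.1.1 = D.1.1
        · rw [if_pos cD] at heq
          have e0 := congrArg Fin.val (Sum.inl_injective heq)
          simp only at e0
          have e1 : A.1.1 = C.1.1 := by
            apply ZMod.val_injective p
            rw [cB] at b1 ⊢
            omega
          have e2 := ord_pos_le h1.le e1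
          have e3 := ord_pos_le h2.le (e1.symm.trans cB)
          rw [← cB, ← cA] at e3
          have e4 : A.2 = C.2 := by
            apply pos_inj A.1.1
            rw [← e1] at e2 e3
            omega
          have := ord_loc_lt h1 e1 e4
          omega
        · rw [if_neg cD] at heq
          exact absurd heq (by simp)
      · rw [if_neg cC] at heq
        split_ifs at heq
    · rw [if_neg cB] at heq
      by_cases cC : C.2 = D.2
      · rw [if_pos cC] at heq
        by_cases cD : C.1.1 = D.1.1
        · rw [if_pos cD] at heq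
          exact absurd heq (by simp)
        · rw [if_neg cD] at heq
          have e0 := Sum.inl_injective (Sum.inr_injective heq)
          simp only [Prod.mk.injEq, Fin.mk.injEq] at e0
          obtain ⟨q1, q2, q3, q4⟩ := e0
          have e1 : A.1.1 = C.1.1 := ZMod.val_injective p (by omega)
          have e2 : B.1.1 = D.1.1 := ZMod.val_injective p (by omega)
          rw [← e1, ← e2] at q2 q3
          have e3 := ord_pos_le h1.le e1
          have e4 := ord_pos_le h3.le e2
          rw [← e1] at e3
          rw [← e2, ← cA, ← cC] at e4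
          by_cases e5 : A.2 = C.2
          · have := ord_loc_lt h1 e1 e5
            omega
          · have e6 : pos p A.1.1 A.2 ≠ pos p A.1.1 C.2 := fun h => e5 (pos_inj _ h)
            have e7 : pos p B.1.1 A.2 ≠ pos p B.1.1 C.2 := fun h => e5 (pos_inj _ h)
            exact columns_sep cB (lt_of_le_of_ne e3 e6) (lt_of_le_of_ne e4 e7) q2 q3
      · rw [if_neg cC] at heq
        split_ifs at heq <;> exact absurd heq (by simp)
  · rw [if_neg cA] at heq
    have hrow : A.1 = B.1 := by
      rcases hAB with h | h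
      · exact absurd h.2 cA
      · exact h.2
    have e1 : A.1.1 = C.1.1 := by
      apply ZMod.val_injective p
      rw [hrow] at b1 ⊢
      omega
    have e1' : C.1.1 = B.1.1 := by rw [← e1, hrow]
    have e3 := ord_pos_le h1.le e1
    have e4 := ord_pos_le h2.le e1'
    rw [← e1] at e3 e4
    rw [← hrow] at e4
    by_cases cU : kU p A.1.1 A.2 = kU p A.1.1 B.2
    · rw [if_pos cU] at heq
      by_cases cC : C.2 = D.2
      · rw [if_pos cC] at heq
        split_ifs at heq <;> exact absurd heq (by simp)
      · rw [if_neg cC] at heq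
        have hrow' : C.1 = D.1 := by
          rcases hCD with h | h
          · exact absurd h.2 cC
          · exact h.2
        by_cases cV : kU p C.1.1 C.2 = kU p C.1.1 D.2
        · rw [if_pos cV] at heq
          have e0 := Sum.inr_injective (Sum.inr_injective (Sum.inr_injective heq))
          simp only [Prod.mk.injEq, Fin.mk.injEq] at e0
          obtain ⟨q1, q2⟩ := e0
          have e5 := ord_pos_le h3.le (by rw [← hrow, ← hrow', e1])
          rw [← hrow, ← hrow', ← e1] at e5
          rw [← e1] at cV q1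
          have u1 := pos_lt_U e3
          have u2 := pos_lt_U e4
          rw [pos_eq_run, pos_eq_run] at e3 e4 e5
          rw [← cU] at e4 u2 e5
          have u3 : (kU p A.1.1 C.2) = (kU p A.1.1 A.2) := ZMod.val_injective p (by omega)
          rw [← cV, u3] at e5
          rw [u3] at e3 e4
          have e6 : run A.1.1 A.2 = run A.1.1 C.2 := by omega
          have e7 : A.2 = C.2 := by
            apply pos_inj A.1.1
            rw [pos_eq_run, pos_eq_run, u3, e6]
          have := ord_loc_lt h1 e1 e7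
          omega
        · rw [if_neg cV] at heq
          exact absurd heq (by simp)
    · rw [if_neg cU] at heq
      by_cases cC : C.2 = D.2
      · rw [if_pos cC] at heq
        split_ifs at heq <;> exact absurd heq (by simp)
      · rw [if_neg cC] at heq
        have hrow' : C.1 = D.1 := by
          rcases hCD with h | h
          · exact absurd h.2 cC
          · exact h.2
        by_cases cV : kU p C.1.1 C.2 = kU p C.1.1 D.2
        · rw [if_pos cV] at heq
          exact absurd heq (by simp)
        · rw [if_neg cV] at heq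
          have e0 := Sum.inl_injective (Sum.inr_injective (Sum.inr_injective heq))
          simp only [Prod.mk.injEq, Fin.mk.injEq] at e0
          obtain ⟨q1, q2⟩ := e0
          have hBD : B.1.1 = D.1.1 := by rw [← hrow, ← hrow', e1]
          have e5 := ord_pos_le h3.le hBD
          rw [← hrow, ← hrow', ← e1] at e5
          rw [← e1] at q1
          have f1 : A.2 = C.2 := pos_inj A.1.1 (by omega)
          have f2 : B.2 = D.2 := pos_inj A.1.1 (by omega)
          have g1 := ord_loc_lt h1 e1 f1
          have g2 := ord_loc_lt h3 hBD f2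
          rw [← e1, ← f1] at g1
          rw [← hrow, ← hrow', ← e1, ← f2] at g2
          rw [← e1, ← f1, ← f2] at q2
          exact rows_sep cU g1 g2 q2

end core

/-- Book embedding of `K_n □ K_n` with at most `3840 n^{4/3}` pages. -/
theorem main (n : ℕ) (hn : 1 ≤ n) : ∃ k : ℕ, (k : ℝ) ≤ 3840 * (n : ℝ) ^ (4 / 3 : ℝ) ∧
    HasBook ((⊤ : SimpleGraph (Fin n)) □ (⊤ : SimpleGraph (Fin n))) k := by
  set r : ℝ := (n : ℝ) ^ (1 / 3 : ℝ) with hr
  have hn' : (1 : ℝ) ≤ n := by exact_mod_cast hn
  have hr1 : 1 ≤ r := Real.one_le_rpow hn' (by norm_num)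
  have hr3 : r ^ 3 = n := by
    rw [hr, ← Real.rpow_natCast, ← Real.rpow_mul (by positivity)]
    norm_num
  have hr4 : r ^ 4 = (n : ℝ) ^ (4 / 3 : ℝ) := by
    rw [hr, ← Real.rpow_natCast, ← Real.rpow_mul (by positivity)]
    norm_num
  set m : ℕ := ⌈r⌉₊ with hm
  have hmr : r ≤ m := Nat.le_ceil r
  have hmr' : (m : ℝ) < r + 1 := Nat.ceil_lt_add_one (by positivity)
  have hm0 : m ≠ 0 := by
    intro h0
    rw [h0] at hmr
    norm_num at hmr
    linarith
  obtain ⟨p, hp, hmp, hpm⟩ := Nat.exists_prime_lt_and_le_two_mul m hm0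
  haveI : Fact p.Prime := ⟨hp⟩
  have hnp : n ≤ p ^ 3 := by
    have h1 : (n : ℝ) ≤ (p : ℝ) ^ 3 := by
      rw [← hr3]
      have : r ≤ p := hmr.trans (by exact_mod_cast hmp.le)
      exact pow_le_pow_left₀ (by positivity) this 3
    exact_mod_cast h1
  have hcard : Fintype.card (T3 p) = p ^ 3 := by
    simp only [T3, Fintype.card_prod, ZMod.card]
    ring
  obtain ⟨φ⟩ : Nonempty (Fin n ↪ T3 p) := by
    apply Function.Embedding.nonempty_of_card_le
    rw [Fintype.card_fin, hcard]
    exact hnp
  refine ⟨15 * p ^ 4, ?_, ?_⟩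
  · rw [← hr4]
    push_cast
    have h1 : (p : ℝ) ≤ 4 * r := by
      have : (p : ℝ) ≤ 2 * m := by exact_mod_cast hpm
      linarith
    have h2 : (p : ℝ) ^ 4 ≤ (4 * r) ^ 4 := pow_le_pow_left₀ (by positivity) h1 4
    calc (15 : ℝ) * p ^ 4 ≤ 15 * (4 * r) ^ 4 := by linarith
      _ = 3840 * r ^ 4 := by ring
  · refine HasBook.mono (main_p (p := p)) le_rfl (Prod.map φ φ)
      (φ.injective.prodMap φ.injective) ?_
    intro a b hab
    rw [SimpleGraph.boxProd_adj, SimpleGraph.top_adj, SimpleGraph.top_adj] at hab ⊢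
    rcases hab with ⟨h1, h2⟩ | ⟨h1, h2⟩
    · left
      exact ⟨fun h => h1 (φ.injective h), congrArg φ h2⟩
    · right
      exact ⟨fun h => h1 (φ.injective h), congrArg φ h2⟩

end Helper67.Book
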