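import Pool.Agent.Helper67.CubeOrbit

/-!
# Certificates for lower bounds on vertex covers
-/

namespace Helper67.Cube

open Set

/-- value of a functional at the vertex with code `c` -/
def vlin (d : ℕ) (a : ℕ → ℕ) (c : ℕ) : ℕ := a 0 + sumN d (fun j => a (j+1) * bit c j)

/-- the functionals `ap k - an k`, `k < n`, are nonnegative at all listed vertices -/
def validB (d n : ℕ) (ap an : ℕ → ℕ → ℕ) (C : ℕ → ℕ) : Bool :=
  allB n fun k => allB (d+1) fun q => Nat.ble (vlin d (an k) (C q)) (vlin d (ap k) (C q))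

/-- the functional `ap - an` vanishes at all listed vertices and is not constant -/
def degB (d : ℕ) (ap an : ℕ → ℕ) (C : ℕ → ℕ) : Bool :=
  (allB (d+1) fun q => Nat.beq (vlin d (an) (C q)) (vlin d (ap) (C q))) &&
    anyB d fun j => !(Nat.beq (ap (j+1)) (an (j+1)))

/-- real value of a functional -/
noncomputable def rlin (d : ℕ) (a : ℕ → ℕ) (x : Fin d → ℝ) : ℝ :=
  a 0 + ∑ j : Fin d, (a (j+1) : ℝ) * x j

lemma rlin_vtx (d : ℕ) (a : ℕ → ℕ) (c : ℕ) : rlin d a (vtx d c) = ((vlin d a c : ℕ) : ℝ) := by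
  unfold rlin vlin
  rw [sumN_eq]
  push_cast
  rfl

lemma rlin_rp {d Q : ℕ} (hQ : 0 < Q) (a : ℕ → ℕ) (y : Fin d → ℕ) :
    rlin d a (rp Q y) * Q = ((lin d Q a y : ℕ) : ℝ) := by
  have hQ' : (Q : ℝ) ≠ 0 := by exact_mod_cast hQ.ne'
  unfold rlin rp lin
  push_cast
  rw [add_mul, Finset.sum_mul]
  congr 1
  refine Finset.sum_congr rfl fun j _ => ?_
  field_simp

lemma rlin_sub {d : ℕ} (a a' : ℕ → ℕ) (x : Fin d → ℝ) : rlin d a x - rlin d a' x =
    ((a 0 : ℝ) - a' 0) + (fun j : Fin d => (a (j+1) : ℝ) - a' (j+1)) ⬝ᵥ x := by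
  unfold rlin dotProduct
  simp only [sub_mul, Finset.sum_sub_distrib]
  ring

lemma rlin_nonneg_hull {d : ℕ} {a a' : ℕ → ℕ} {S : Set (Fin d → ℝ)}
    (hS : ∀ x ∈ S, rlin d a' x ≤ rlin d a x) : ∀ x ∈ convexHull ℝ S, rlin d a' x ≤ rlin d a x := by
  have hconv : Convex ℝ {x : Fin d → ℝ | rlin d a' x ≤ rlin d a x} := by
    intro x hx y hy s t hs ht hst
    simp only [mem_ofPred_eq] at hx hy ⊢
    have e : ∀ b : ℕ → ℕ, rlin d b (s • x + t • y) = s * rlin d b x + t * rlin d b y := by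
      intro b
      unfold rlin
      simp only [Pi.add_apply, Pi.smul_apply, smul_eq_mul, mul_add, Finset.sum_add_distrib,
        Finset.mul_sum]
      have h1 : (b 0 : ℝ) = s * b 0 + t * b 0 := by rw [← add_mul, hst, one_mul]
      have h2 : ∀ j : Fin d, (b (j+1) : ℝ) * (s * x j) = s * (b (j+1) * x j) := fun j => by ring
      have h3 : ∀ j : Fin d, (b (j+1) : ℝ) * (t * y j) = t * (b (j+1) * y j) := fun j => by ring
      simp only [h2, h3]
      linarith
    rw [e, e]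
    exact add_le_add (mul_le_mul_of_nonneg_left hx hs) (mul_le_mul_of_nonneg_left hy ht)
  exact fun x hx => convexHull_min hS hconv hx

/-- the full check for one representative -/
def repB (d Q b K B : ℕ) (wt : ℕ → ℕ) (X : ℕ → ℕ → ℕ) (one : ℕ) (deg : Bool)
    (ap an : ℕ → ℕ → ℕ) (C : ℕ → ℕ) : Bool :=
  bif deg then degB d (ap 0) (an 0) C
  else validB d (d+1) ap an C &&
    ((allB (d+1) fun k => smallB d Q b (ap k) && smallB d Q b (an k)) &&
      Nat.ble (sumN K fun o => wt o * cntP d Q b ap an (X o) one (d+1)) B)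

theorem repB_sound {d Q b K B : ℕ} (hb : 1 ≤ b) (hQ : 0 < Q) {wt : ℕ → ℕ} {X : ℕ → ℕ → ℕ}
    {one : ℕ} {deg : Bool} {ap an : ℕ → ℕ → ℕ} {C : ℕ → ℕ} {x : ℕ → Fin d → ℕ}
    (hx : ∀ o < K, ∀ j, x o j ≤ Q)
    (hX : ∀ o < K, ∀ j : Fin d, X o j = pk b (fun y => y j) (orbL d Q (x o)))
    (hone : ∀ o < K, one = pk b (fun _ => 1) (orbL d Q (x o)))
    (hlen : d.factorial * 2 ^ d < 2 ^ b - 1)
    (h : repB d Q b K B wt X one deg ap an C = true)
    {w : Fin (d+1) → Fin d → ℝ} (hw : AffineIndependent ℝ w)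
    (g : Equiv.Perm (Fin d) × (Fin d → Bool))
    (hg : ∀ q, ∃ q' < d+1, gmap g (w q) = vtx d (C q')) :
    ∑ o : Fin K, wt o * cnt (rp Q (x o)) (body w) ≤ B := by
  unfold repB at h
  cases hdeg : deg
  · rw [hdeg, cond_false, Bool.and_eq_true, Bool.and_eq_true] at h
    obtain ⟨hv, hs, hB⟩ := h
    set S : Set (Fin d → ℝ) := {z | ∃ q' < d+1, z = vtx d (C q')} with hS
    have hsub : body w ⊆ {y | gmap g y ∈ convexHull ℝ S} :=
      body_subset_preimage w g (fun i => by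
        obtain ⟨q', hq', he⟩ := hg i
        exact ⟨q', hq', he⟩)
    have hcnt : ∀ o : Fin K, cnt (rp Q (x o)) (body w) ≤ cntP d Q b ap an (X o) one (d+1) := by
      intro o
      refine (cnt_mono _ hsub).trans ?_
      rw [cnt_preimage, cntP_eq hb (hX o o.2) (hone o o.2) (orbL_le (hx o o.2)) (d+1) hs
        (by rw [orbL_length]; exact hlen)]
      refine cnt_le hQ (hx o o.2) _ _ ?_
      intro y hy hmem
      have hall : allB (d+1) (fun k => Nat.ble (lin d Q (an k) y) (lin d Q (ap k) y)) = true := by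
        rw [allB_iff]
        intro k hk
        refine Nat.ble_eq.mpr ?_
        have hle : ∀ z ∈ S, rlin d (an k) z ≤ rlin d (ap k) z := by
          rintro z ⟨q', hq', rfl⟩
          unfold validB at hv
          rw [allB_iff] at hv
          have h1 := hv k hk
          rw [allB_iff] at h1
          have h2 := Nat.ble_eq.mp (h1 q' hq')
          rw [rlin_vtx, rlin_vtx]
          exact_mod_cast h2
        have h3 := rlin_nonneg_hull hle _ hmem
        have hQ' : (0 : ℝ) < Q := by exact_mod_cast hQ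
        have h4 := mul_le_mul_of_nonneg_right h3 hQ'.le
        rw [rlin_rp hQ, rlin_rp hQ] at h4
        exact_mod_cast h4
      rw [if_pos hall]
    have hB' := Nat.ble_eq.mp hB
    rw [sumN_eq] at hB'
    exact (Finset.sum_le_sum fun o _ => Nat.mul_le_mul_left _ (hcnt o)).trans hB'
  · rw [hdeg, cond_true] at h
    unfold degB at h
    rw [Bool.and_eq_true, allB_iff, anyB_iff] at h
    obtain ⟨h1, j, hj, hj2⟩ := h
    exfalso
    have hne : (fun j : Fin d => ((ap 0 (j+1) : ℕ) : ℝ) - ((an 0 (j+1) : ℕ) : ℝ)) ≠ 0 := by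
      intro hcon
      have h3 := congrFun hcon ⟨j, hj⟩
      simp only [Pi.zero_apply, sub_eq_zero, Nat.cast_inj] at h3
      simp [h3] at hj2
    obtain ⟨i, hi⟩ := not_const_of_affineIndependent hw g _ hne
      (((an 0 0 : ℕ) : ℝ) - ((ap 0 0 : ℕ) : ℝ))
    apply hi
    obtain ⟨q', hq', he⟩ := hg i
    have h4 := rlin_sub (ap 0) (an 0) (gmap g (w i))
    rw [he, rlin_vtx, rlin_vtx] at h4
    have h5 := Nat.eq_of_beq_eq_true (h1 q' hq')
    rw [h5, sub_self] at h4
    rw [he]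
    linarith

/-- the lower bound obtained from a complete set of checked representatives -/
theorem cover_bound_of_cert {d Q b K B n N : ℕ} (hb : 1 ≤ b) (hQ : 0 < Q) {wt : ℕ → ℕ}
    {X : ℕ → ℕ → ℕ} {one : ℕ} {deg : ℕ → Bool} {ap an : ℕ → ℕ → ℕ → ℕ} {C : ℕ → ℕ → ℕ}
    {x : ℕ → Fin d → ℕ} (hx : ∀ o < K, ∀ j, x o j ≤ Q)
    (hX : ∀ o < K, ∀ j : Fin d, X o j = pk b (fun y => y j) (orbL d Q (x o)))
    (hone : ∀ o < K, one = pk b (fun _ => 1) (orbL d Q (x o)))
    (hlen : d.factorial * 2 ^ d < 2 ^ b - 1) (hL : Lev d (d+1) n C)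
    (h : ∀ i < n, repB d Q b K B wt X one (deg i) (ap i) (an i) (C i) = true)
    {W : Fin N → Fin (d+1) → Fin d → ℝ} (hW : IsCover W) (hv : IsVertexFamily W) :
    d.factorial * 2 ^ d * ∑ o : Fin K, wt o ≤ N * B := by
  have h1 := weighted_bound hW (fun o : Fin K => rp Q (x o))
    (fun o => rp_mem_cube hQ (hx o o.2)) (fun o => wt o) B ?_
  · rw [Fintype.card_prod, Fintype.card_perm, Fintype.card_fin, Fintype.card_fun,
      Fintype.card_bool, Fintype.card_fin] at h1
    exact h1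
  · intro s
    obtain ⟨i, hi, g, hg⟩ := hL (W s) (hv s)
    exact repB_sound hb hQ hx hX hone hlen (h i hi) (hW.1 s) g hg

end Helper67.Cube
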