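import Pool.Agent.Helper67.CubeVol

/-!
# Determinant estimates for simplices in the cube
-/

namespace Helper67.Cube

open MeasureTheory Set

/-- all entries in `[0,1]` -/
def InUnit {d : ℕ} (w : Fin (d+1) → Fin d → ℝ) : Prop := ∀ i j, 0 ≤ w i j ∧ w i j ≤ 1

lemma vdet_le_maxDet_of_bool {d : ℕ} (w : Fin (d+1) → Fin d → ℝ)
    (hw : ∀ i j, w i j = 0 ∨ w i j = 1) : vdet w ≤ maxDet d := by
  classical
  set M : Matrix (Fin d) (Fin d) Bool := fun i j => decide (w i.succ j ≠ w 0 j) with hM
  have h1 : (edge w) = Matrix.of fun i j => (1 - 2 * w 0 j) *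
      (((Matrix.of fun i j => if M i j then (1 : ℤ) else 0).map (Int.cast : ℤ → ℝ)) i j) := by
    ext i j
    simp only [edge, Matrix.of_apply, Matrix.map_apply, hM]
    rcases hw i.succ j with h | h <;> rcases hw 0 j with h' | h' <;> simp [h, h'] <;> norm_num
  rw [vdet, det_bord, h1, Matrix.det_mul_row, abs_mul, Finset.abs_prod]
  have h2 : ∏ j : Fin d, |1 - 2 * w 0 j| = 1 := by
    refine Finset.prod_eq_one fun j _ => ?_
    rcases hw 0 j with h' | h' <;> simp [h'] <;> norm_num
  rw [h2, one_mul]
  have h3 : (((Matrix.of fun i j => if M i j then (1 : ℤ) else 0).map (Int.cast : ℤ → ℝ))).det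
      = (((Matrix.of fun i j => if M i j then (1 : ℤ) else 0).det : ℤ) : ℝ) := by
    rw [Int.cast_det]
  rw [h3]
  have h4 : (Matrix.of fun i j => if M i j then (1 : ℤ) else 0).det.natAbs ≤ maxDet d :=
    Finset.le_sup (f := fun M : Matrix (Fin d) (Fin d) Bool =>
      (Matrix.of fun i j => if M i j then (1 : ℤ) else 0).det.natAbs) (Finset.mem_univ M)
  have h5 : (((Matrix.of fun i j => if M i j then (1 : ℤ) else 0).det.natAbs : ℕ) : ℝ) ≤
      ((maxDet d : ℕ) : ℝ) := Nat.cast_le.2 h4
  rwa [Nat.cast_natAbs, Int.cast_abs] at h5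

lemma bord_update {d : ℕ} (w : Fin (d+1) → Fin d → ℝ) (i : Fin (d+1)) (r : Fin d → ℝ) :
    bord (Function.update w i r) = (bord w).updateRow i (Fin.cons 1 r) := by
  ext i' j'
  by_cases h : i' = i
  · subst h; simp [bord]
  · simp [bord, h]

lemma exists_round {d : ℕ} (w : Fin (d+1) → Fin d → ℝ) (hw : InUnit w)
    (S : Finset (Fin (d+1) × Fin d)) :
    ∃ w' : Fin (d+1) → Fin d → ℝ, InUnit w' ∧ (∀ p ∈ S, w' p.1 p.2 = 0 ∨ w' p.1 p.2 = 1) ∧
      vdet w ≤ vdet w' := by
  classical
  induction S using Finset.induction_on with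
  | empty => exact ⟨w, hw, by simp, le_rfl⟩
  | insert p S hp ih =>
    obtain ⟨v, hv, hS, hle⟩ := ih
    obtain ⟨i, j⟩ := p
    set t := v i j with ht
    have ht0 : 0 ≤ t := (hv i j).1
    have ht1 : t ≤ 1 := (hv i j).2
    set v0 := Function.update v i (Function.update (v i) j 0) with hv0
    set v1 := Function.update v i (Function.update (v i) j 1) with hv1
    have hdet : (bord v).det = (1 - t) * (bord v0).det + t * (bord v1).det := by
      have e : bord v = (bord v).updateRow i ((1 - t) • (Fin.cons 1 (Function.update (v i) j 0) :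
          Fin (d+1) → ℝ) + t • (Fin.cons 1 (Function.update (v i) j 1) : Fin (d+1) → ℝ)) := by
        conv_lhs => rw [← Matrix.updateRow_eq_self (bord v) i]
        congr 1
        ext k
        refine Fin.cases ?_ (fun k => ?_) k
        · simp only [bord, Matrix.of_apply, Pi.add_apply, Pi.smul_apply, Fin.cons_zero, smul_eq_mul]
          ring
        · simp only [bord, Matrix.of_apply, Pi.add_apply, Pi.smul_apply, Fin.cons_succ, smul_eq_mul]
          by_cases hk : k = j
          · subst hk; simp [ht]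
          · simp [hk]; ring
      rw [e, Matrix.det_updateRow_add, Matrix.det_updateRow_smul, Matrix.det_updateRow_smul,
        hv0, hv1, bord_update, bord_update]
    have hmax : vdet v ≤ vdet v0 ∨ vdet v ≤ vdet v1 := by
      by_contra hcon
      push Not at hcon
      have h3 : vdet v ≤ (1 - t) * vdet v0 + t * vdet v1 := by
        unfold vdet
        rw [hdet]
        refine (abs_add_le _ _).trans ?_
        rw [abs_mul, abs_mul, abs_of_nonneg ht0, abs_of_nonneg (by linarith : (0:ℝ) ≤ 1 - t)]
      rcases eq_or_lt_of_le ht0 with h | h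
      · rw [← h] at h3; linarith [hcon.1]
      · nlinarith [mul_lt_mul_of_pos_left hcon.2 h, mul_le_mul_of_nonneg_left hcon.1.le
          (by linarith : (0:ℝ) ≤ 1 - t)]
    have key : ∀ c : ℝ, (c = 0 ∨ c = 1) → InUnit (Function.update v i (Function.update (v i) j c)) ∧
        ∀ p ∈ insert (i, j) S, (Function.update v i (Function.update (v i) j c)) p.1 p.2 = 0 ∨
          (Function.update v i (Function.update (v i) j c)) p.1 p.2 = 1 := by
      intro c hc
      have hval : ∀ a b, (Function.update v i (Function.update (v i) j c)) a b =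
          if a = i ∧ b = j then c else v a b := by
        intro a b
        by_cases ha : a = i
        · subst ha
          by_cases hb : b = j
          · subst hb; simp
          · simp [hb]
        · simp [ha]
      constructor
      · intro a b
        rw [hval]
        split_ifs with h
        · rcases hc with rfl | rfl <;> norm_num
        · exact hv a b
      · intro p hp'
        rw [hval]
        split_ifs with h
        · exact hc
        · rcases Finset.mem_insert.1 hp' with h' | h'
          · exact absurd ⟨congrArg Prod.fst h', congrArg Prod.snd h'⟩ h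
          · exact hS p h'
    rcases hmax with h | h
    · exact ⟨v0, (key 0 (Or.inl rfl)).1, (key 0 (Or.inl rfl)).2, hle.trans h⟩
    · exact ⟨v1, (key 1 (Or.inr rfl)).1, (key 1 (Or.inr rfl)).2, hle.trans h⟩

lemma vdet_le_maxDet {d : ℕ} (w : Fin (d+1) → Fin d → ℝ) (hw : InUnit w) :
    vdet w ≤ maxDet d := by
  obtain ⟨v, hv, hS, hle⟩ := exists_round w hw Finset.univ
  exact hle.trans (vdet_le_maxDet_of_bool v fun i j => hS (i, j) (Finset.mem_univ _))

/-- remove vertex `i` and coordinate `j` -/
def rem {m : ℕ} (w : Fin (m+2) → Fin (m+1) → ℝ) (i : Fin (m+2)) (j : Fin (m+1)) :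
    Fin (m+1) → Fin m → ℝ := fun i' j' => w (i.succAbove i') (j.succAbove j')

lemma vdet_ext {m : ℕ} (w : Fin (m+2) → Fin (m+1) → ℝ) (i : Fin (m+2)) (j : Fin (m+1)) (a : ℝ)
    (h : ∀ i', i' ≠ i → w i' j = a) : vdet w = |w i j - a| * vdet (rem w i j) := by
  classical
  have hne : (0 : Fin (m+2)) ≠ j.succ := (Fin.succ_ne_zero j).symm
  have e1 : (bord w).det = ((bord w).updateCol j.succ
      (fun k => bord w k j.succ + (-a) • bord w k 0)).det := by
    rw [Matrix.det_updateCol_add_smul_self _ hne.symm]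
  rw [vdet, e1, Matrix.det_succ_column _ j.succ, Finset.sum_eq_single i]
  · simp only [Matrix.updateCol_self]
    rw [abs_mul, abs_mul, abs_pow, abs_neg, abs_one, one_pow, one_mul]
    congr 1
    · simp [bord]; rfl
    · rw [vdet]
      congr 2
      ext i' j'
      have hs : (j.succ.succAbove j') ≠ j.succ := Fin.succAbove_ne _ _
      rw [Matrix.submatrix_apply, Matrix.updateCol_ne hs]
      refine Fin.cases ?_ (fun k => ?_) j'
      · simp [bord]
      · simp [bord, rem]
  · intro i' _ hi'
    simp [bord, h i' hi']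
  · simp

/-- column `j` is constant with value `0` or `1` outside a single row -/
def Ext {d : ℕ} (w : Fin (d+1) → Fin d → ℝ) (j : Fin d) : Prop :=
  ∃ a : ℝ, (a = 0 ∨ a = 1) ∧ ∃ i, ∀ i', i' ≠ i → w i' j = a

open Classical in
/-- number of such columns -/
noncomputable def kk {d : ℕ} (w : Fin (d+1) → Fin d → ℝ) : ℕ := (Finset.univ.filter (Ext w)).card

lemma kk_le {d : ℕ} (w : Fin (d+1) → Fin d → ℝ) : kk w ≤ d := by
  classical
  unfold kk
  exact (Finset.card_filter_le _ _).trans (by simp)

lemma kk_rem {m : ℕ} (w : Fin (m+2) → Fin (m+1) → ℝ) (i : Fin (m+2)) (j : Fin (m+1)) :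
    kk w ≤ kk (rem w i j) + 1 := by
  classical
  unfold kk
  have h1 : (Finset.univ.filter (Ext w)) ⊆
      insert j ((Finset.univ.filter (Ext (rem w i j))).map j.succAboveEmb) := by
    intro c hc
    rw [Finset.mem_filter] at hc
    rw [Finset.mem_insert]
    by_cases hcj : c = j
    · exact Or.inl hcj
    · right
      obtain ⟨c', rfl⟩ := Fin.exists_succAbove_eq hcj
      rw [Finset.mem_map]
      refine ⟨c', ?_, rfl⟩
      rw [Finset.mem_filter]
      refine ⟨Finset.mem_univ _, ?_⟩
      obtain ⟨-, a, ha, i1, hi1⟩ := hc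
      refine ⟨a, ha, ?_⟩
      by_cases hi : i1 = i
      · subst hi
        exact ⟨0, fun i' _ => hi1 _ (Fin.succAbove_ne _ _)⟩
      · obtain ⟨i2, rfl⟩ := Fin.exists_succAbove_eq hi
        refine ⟨i2, fun i' hi' => hi1 _ ?_⟩
        intro hcon
        exact hi' (Fin.succAbove_right_injective hcon)
  refine (Finset.card_le_card h1).trans ((Finset.card_insert_le _ _).trans ?_)
  rw [Finset.card_map]

lemma inUnit_rem {m : ℕ} {w : Fin (m+2) → Fin (m+1) → ℝ} (hw : InUnit w) (i : Fin (m+2))
    (j : Fin (m+1)) : InUnit (rem w i j) := fun _ _ => hw _ _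

lemma vdet_nonneg {d : ℕ} (w : Fin (d+1) → Fin d → ℝ) : 0 ≤ vdet w := abs_nonneg _

lemma vdet_le_rem {m : ℕ} (w : Fin (m+2) → Fin (m+1) → ℝ) (hw : InUnit w) (i : Fin (m+2))
    (j : Fin (m+1)) (a : ℝ) (ha : a = 0 ∨ a = 1) (h : ∀ i', i' ≠ i → w i' j = a) :
    vdet w ≤ vdet (rem w i j) := by
  rw [vdet_ext w i j a h]
  have h1 := hw i j
  have : |w i j - a| ≤ 1 := by
    rw [abs_le]; rcases ha with rfl | rfl <;> constructor <;> linarith [h1.1, h1.2]
  exact mul_le_of_le_one_left (vdet_nonneg _) this

lemma vdet_le_kk : ∀ (d : ℕ) (w : Fin (d+1) → Fin d → ℝ), InUnit w →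
    ∃ k, kk w ≤ k ∧ k ≤ d ∧ vdet w ≤ maxDet (d - k) := by
  classical
  intro d
  induction d with
  | zero =>
    intro w hw
    exact ⟨0, kk_le w, le_rfl, vdet_le_maxDet w hw⟩
  | succ m ih =>
    intro w hw
    by_cases h : ∃ j, Ext w j
    · obtain ⟨j, a, ha, i, hi⟩ := h
      obtain ⟨k, h1, h2, h3⟩ := ih (rem w i j) (inUnit_rem hw i j)
      refine ⟨k + 1, (kk_rem w i j).trans (by omega), by omega, ?_⟩
      have : m + 1 - (k + 1) = m - k := by omega
      rw [this]
      exact (vdet_le_rem w hw i j a ha hi).trans h3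
    · push Not at h
      refine ⟨0, ?_, by omega, vdet_le_maxDet w hw⟩
      unfold kk
      rw [Finset.filter_false_of_mem (fun j _ => h j)]
      simp

end Helper67.Cube
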