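import Pool.Agent.Helper67.CubeSym

/-!
# Enumeration of vertex sets of the cube up to symmetry
-/

namespace Helper67.Cube

open Set

/-- bit `j` of `c` -/
def bit (c j : ℕ) : ℕ := (c >>> j) % 2

/-- octal digit `j` of `p` -/
def dig (p j : ℕ) : ℕ := (p >>> (3 * j)) % 8

/-- `p` codes a permutation of `0, ..., d-1` -/
def permB (d p : ℕ) : Bool :=
  allB d fun j => Nat.blt (dig p j) d && allB j fun i => !(Nat.beq (dig p i) (dig p j))

/-- `v'` is the image of the vertex `v` under the symmetry coded by `p`, `t` -/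
def relB (d p t v v' : ℕ) : Bool :=
  allB d fun j => Nat.beq (bit v' j) ((bit v (dig p j) + bit t j) % 2)

lemma exists_perm {d p : ℕ} (h : permB d p = true) :
    ∃ σ : Equiv.Perm (Fin d), ∀ j : Fin d, ((σ j : Fin d) : ℕ) = dig p j := by
  unfold permB at h
  rw [allB_iff] at h
  have h1 : ∀ j < d, dig p j < d := by
    intro j hj
    have := h j hj
    rw [Bool.and_eq_true] at this
    exact Nat.blt_eq.mp this.1
  have h2 : ∀ j < d, ∀ i < j, dig p i ≠ dig p j := by
    intro j hj i hi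
    have := h j hj
    rw [Bool.and_eq_true, allB_iff] at this
    have h3 := this.2 i hi
    intro hcon
    rw [hcon] at h3
    simp at h3
  let f : Fin d → Fin d := fun j => ⟨dig p j, h1 j j.2⟩
  have hf : Function.Injective f := by
    intro i j hij
    have hij' : dig p i = dig p j := congrArg Fin.val hij
    by_contra hne
    rcases lt_or_gt_of_ne (fun h : (i : ℕ) = j => hne (Fin.ext h)) with h' | h'
    · exact h2 j j.2 i h' hij'
    · exact h2 i i.2 j h' hij'.symm
  exact ⟨Equiv.ofBijective f (Finite.injective_iff_bijective.1 hf), fun j => rfl⟩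

lemma vtx_eq_bit (d c : ℕ) (j : Fin d) : vtx d c j = ((bit c j : ℕ) : ℝ) := rfl

lemma bit_lt (c j : ℕ) : bit c j < 2 := Nat.mod_lt _ (by norm_num)

lemma gmap_of_relB {d p t v v' : ℕ} (σ : Equiv.Perm (Fin d)) (hσ : ∀ j : Fin d, ((σ j : Fin d) : ℕ) = dig p j)
    (h : relB d p t v v' = true) :
    gmap (σ, fun j : Fin d => decide (bit t j = 1)) (vtx d v) = vtx d v' := by
  unfold relB at h
  rw [allB_iff] at h
  ext j
  have h1 : bit v' j = (bit v (dig p j) + bit t j) % 2 := Nat.eq_of_beq_eq_true (h j j.2)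
  have h2 : bit v (σ j) = bit v (dig p j) := by rw [hσ]
  simp only [gmap, vtx_eq_bit, h1, h2, decide_eq_true_eq]
  have h3 := bit_lt t j
  have h4 := bit_lt v (dig p j)
  split_ifs with h5
  · rw [h5]
    interval_cases (bit v (dig p j)) <;> norm_num
  · have h6 : bit t j = 0 := by omega
    rw [h6]
    interval_cases (bit v (dig p j)) <;> norm_num

lemma exists_code {d : ℕ} (x : Fin d → ℝ) (hx : ∀ j, x j = 0 ∨ x j = 1) :
    ∃ z < 2 ^ d, vtx d z = x := by
  classical
  refine ⟨Nat.ofBits (fun j : Fin d => decide (x j = 1)), Nat.ofBits_lt_two_pow _, ?_⟩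
  ext j
  rw [vtx_eq_bit]
  unfold bit
  have h1 : (Nat.ofBits (fun j : Fin d => decide (x j = 1))).testBit j = decide (x j = 1) := by
    rw [Nat.testBit_ofBits_lt _ _ j.2]
  have h2 := Nat.toNat_testBit (Nat.ofBits (fun j : Fin d => decide (x j = 1))) j
  rw [h1] at h2
  rw [Nat.shiftRight_eq_div_pow, ← h2]
  rcases hx j with h | h <;> simp [h]

/-- every list of `k` vertices is moved by a symmetry into one of the `n` sets
`{C i 0, ..., C i (k-1)}` -/
def Lev (d k n : ℕ) (C : ℕ → ℕ → ℕ) : Prop :=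
  ∀ v : Fin k → (Fin d → ℝ), (∀ q j, v q j = 0 ∨ v q j = 1) → ∃ i < n,
    ∃ g : Equiv.Perm (Fin d) × (Fin d → Bool), ∀ q, ∃ q' < k, gmap g (v q) = vtx d (C i q')

/-- one step of the enumeration -/
def stepB (d k n n' : ℕ) (C C' wi wp wt : ℕ → ℕ → ℕ) : Bool :=
  allB n fun i => allB (2 ^ d) fun z =>
    permB d (wp i z) && (Nat.blt (wi i z) n' &&
      (anyB (k+1) (fun q' => relB d (wp i z) (wt i z) z (C' (wi i z) q')) &&
        allB k fun q => anyB (k+1) fun q' => relB d (wp i z) (wt i z) (C i q) (C' (wi i z) q')))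

lemma gmap_bool {d : ℕ} (g : Equiv.Perm (Fin d) × (Fin d → Bool)) {x : Fin d → ℝ}
    (hx : ∀ j, x j = 0 ∨ x j = 1) : ∀ j, gmap g x j = 0 ∨ gmap g x j = 1 := by
  intro j
  unfold gmap
  rcases hx (g.1 j) with h | h <;> rw [h] <;> split_ifs <;> norm_num

theorem Lev.step {d k n n' : ℕ} {C C' wi wp wt : ℕ → ℕ → ℕ} (hL : Lev d k n C)
    (h : stepB d k n n' C C' wi wp wt = true) : Lev d (k+1) n' C' := by
  intro v hv
  obtain ⟨i, hi, g, hg⟩ := hL (fun q => v q.castSucc) (fun q => hv _)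
  obtain ⟨z, hz, hz2⟩ := exists_code (gmap g (v (Fin.last k))) (gmap_bool g (hv _))
  unfold stepB at h
  rw [allB_iff] at h
  have h1 := h i hi
  rw [allB_iff] at h1
  have h2 := h1 z hz
  rw [Bool.and_eq_true, Bool.and_eq_true, Bool.and_eq_true, anyB_iff, allB_iff] at h2
  obtain ⟨hp, hi', ⟨q0, hq0, hr0⟩, hall⟩ := h2
  obtain ⟨σ, hσ⟩ := exists_perm hp
  refine ⟨wi i z, Nat.blt_eq.mp hi', gcomp (σ, fun j : Fin d => decide (bit (wt i z) j = 1)) g, ?_⟩
  intro q
  rw [gmap_gcomp]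
  refine Fin.lastCases ?_ (fun q => ?_) q
  · rw [← hz2]
    exact ⟨q0, hq0, gmap_of_relB σ hσ hr0⟩
  · obtain ⟨q', hq', he⟩ := hg q
    rw [he]
    have h3 := hall q' hq'
    rw [anyB_iff] at h3
    obtain ⟨q'', hq'', hr⟩ := h3
    exact ⟨q'', hq'', gmap_of_relB σ hσ hr⟩

theorem Lev.zero (d : ℕ) (C : ℕ → ℕ → ℕ) : Lev d 0 1 C := by
  intro v hv
  exact ⟨0, by norm_num, (1, fun _ => false), fun q => q.elim0⟩

/-- a nonzero functional constant on the images of the vertices contradicts nondegeneracy -/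
lemma not_const_of_affineIndependent {d : ℕ} {w : Fin (d+1) → Fin d → ℝ}
    (hw : AffineIndependent ℝ w) (g : Equiv.Perm (Fin d) × (Fin d → Bool)) (h : Fin d → ℝ)
    (h0 : h ≠ 0) (c : ℝ) : ∃ i, h ⬝ᵥ gmap g (w i) ≠ c := by
  by_contra hcon
  push Not at hcon
  have htop : affineSpan ℝ (range w) = ⊤ := by
    rw [hw.affineSpan_eq_top_iff_card_eq_finrank_add_one]
    simp
  have key : ∀ y : Fin d → ℝ, h ⬝ᵥ y = c := by
    intro y
    set x : Fin d → ℝ := fun i => if g.2 (g.1⁻¹ i) then 1 - y (g.1⁻¹ i) else y (g.1⁻¹ i) with hx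
    have hxy : gmap g x = y := by
      ext j
      have e : g.1⁻¹ (g.1 j) = j := by simp
      simp only [gmap, hx, e]
      by_cases hj : g.2 j = true <;> simp [hj]
    have hmem : x ∈ affineSpan ℝ (range w) := by rw [htop]; trivial
    obtain ⟨t, ht1, ht2⟩ := eq_affineCombination_of_mem_affineSpan_of_fintype hmem
    rw [Finset.affineCombination_eq_linear_combination _ _ _ ht1] at ht2
    rw [← hxy, ht2, gmap_sum g t ht1, dot_sum]
    simp only [hcon, ← Finset.sum_mul, ht1, one_mul]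
  have hc : c = 0 := by rw [← key 0, dotProduct_zero]
  apply h0
  exact dotProduct_self_eq_zero.1 (by rw [key, hc])

end Helper67.Cube
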