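import Pool.Agent.Helper67.CubePack

/-!
# The orbit of a point of the cube as a list, and its packed form
-/

namespace Helper67.Cube

open Set

/-- all permutations of the coordinates of `y` -/
def permsL : (n : ℕ) → (Fin n → ℕ) → List (Fin n → ℕ)
  | 0, y => [y]
  | n+1, y => (List.finRange (n+1)).flatMap fun p =>
      (permsL n (fun i => y (Equiv.swap 0 p i.succ))).map (Fin.cons (y p))

lemma sum_map_flatMap' {α β : Type} (l : List α) (f : α → List β) (φ : β → ℕ) :
    ((l.flatMap f).map φ).sum = (l.map (fun p => ((f p).map φ).sum)).sum := by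
  induction l with
  | nil => simp
  | cons a l ih => simp [List.flatMap_cons, ih]

lemma permsL_sum (n : ℕ) : ∀ (y : Fin n → ℕ) (φ : (Fin n → ℕ) → ℕ),
    ((permsL n y).map φ).sum = ∑ σ : Equiv.Perm (Fin n), φ (fun j => y (σ j)) := by
  induction n with
  | zero =>
    intro y φ
    rw [permsL, Fintype.sum_unique]
    simp only [List.map_cons, List.map_nil, List.sum_cons, List.sum_nil, add_zero]
    exact congrArg φ (funext fun j => j.elim0)
  | succ n ih =>
    intro y φ
    rw [permsL, sum_map_flatMap', ← Fin.sum_univ_def,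
      ← Equiv.sum_comp (Equiv.Perm.decomposeFin (n := n)).symm, Fintype.sum_prod_type]
    refine Finset.sum_congr rfl fun p _ => ?_
    rw [List.map_map, ih]
    refine Finset.sum_congr rfl fun e _ => ?_
    simp only [Function.comp_apply]
    congr 1
    ext j
    refine Fin.cases ?_ (fun i => ?_) j
    · simp
    · simp

lemma permsL_le {n : ℕ} : ∀ (y : Fin n → ℕ) (Q : ℕ), (∀ j, y j ≤ Q) → ∀ z ∈ permsL n y,
    ∀ j, z j ≤ Q := by
  induction n with
  | zero => intro y Q _ z _ j; exact j.elim0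
  | succ n ih =>
    intro y Q hy z hz j
    rw [permsL, List.mem_flatMap] at hz
    obtain ⟨p, -, hz⟩ := hz
    rw [List.mem_map] at hz
    obtain ⟨z', hz', rfl⟩ := hz
    refine Fin.cases ?_ (fun i => ?_) j
    · exact hy p
    · exact ih _ Q (fun i => hy _) z' hz' i

lemma permsL_length (n : ℕ) (y : Fin n → ℕ) : (permsL n y).length = n.factorial := by
  have h := permsL_sum n y (fun _ => 1)
  simp only [List.map_const', List.sum_replicate, smul_eq_mul, mul_one, Finset.sum_const,
    Finset.card_univ] at h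
  rw [h, Fintype.card_perm, Fintype.card_fin]

/-- reflect coordinate `n` -/
def flipL {d : ℕ} (Q n : ℕ) (y : Fin d → ℕ) : Fin d → ℕ :=
  fun j => if (j : ℕ) = n then Q - y j else y j

/-- all reflections in the coordinates below `n` -/
def flipsL {d : ℕ} (Q : ℕ) : ℕ → List (Fin d → ℕ) → List (Fin d → ℕ)
  | 0, L => L
  | n+1, L => flipsL Q n L ++ (flipsL Q n L).map (flipL Q n)

/-- reflections given by a Boolean vector -/
def flipT {d : ℕ} (Q n : ℕ) (t : Fin n → Bool) (y : Fin d → ℕ) : Fin d → ℕ :=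
  fun j => if h : (j : ℕ) < n then (if t ⟨j, h⟩ then Q - y j else y j) else y j

lemma flipT_snoc {d : ℕ} (Q n : ℕ) (t : Fin n → Bool) (c : Bool) (y : Fin d → ℕ) :
    flipT Q (n+1) (Fin.snoc (α := fun _ => Bool) t c) y =
      if c then flipL Q n (flipT Q n t y) else flipT Q n t y := by
  ext j
  rcases lt_trichotomy (j : ℕ) n with h | h | h
  · have h1 : (j : ℕ) < n + 1 := by omega
    have h2 : (Fin.snoc (α := fun _ => Bool) t c : Fin (n+1) → Bool) ⟨j, h1⟩ = t ⟨j, h⟩ := by
      have : (⟨(j : ℕ), h1⟩ : Fin (n+1)) = Fin.castSucc ⟨j, h⟩ := rfl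
      rw [this, Fin.snoc_castSucc]
    have h3 : (j : ℕ) ≠ n := by omega
    cases c <;> simp [flipT, flipL, h, h1, h2, h3]
  · have h1 : (j : ℕ) < n + 1 := by omega
    have h2 : (Fin.snoc (α := fun _ => Bool) t c : Fin (n+1) → Bool) ⟨j, h1⟩ = c := by
      have : (⟨(j : ℕ), h1⟩ : Fin (n+1)) = Fin.last n := by ext; exact h
      rw [this, Fin.snoc_last]
    have h3 : ¬ (j : ℕ) < n := by omega
    cases c
    · simp only [flipT, dif_pos h1, h2, Bool.false_eq_true, if_false, dif_neg h3]
    · simp only [flipT, flipL, dif_pos h1, dif_neg h3, h2, if_true, if_pos h]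
  · have h1 : ¬ (j : ℕ) < n + 1 := by omega
    have h2 : ¬ (j : ℕ) < n := by omega
    have h3 : (j : ℕ) ≠ n := by omega
    cases c <;> simp [flipT, flipL, h1, h2, h3]

lemma flipsL_sum {d : ℕ} (Q n : ℕ) (L : List (Fin d → ℕ)) (φ : (Fin d → ℕ) → ℕ) :
    ((flipsL Q n L).map φ).sum =
      ∑ t : Fin n → Bool, (L.map (fun y => φ (flipT Q n t y))).sum := by
  induction n generalizing φ with
  | zero =>
    rw [flipsL, Fintype.sum_unique]
    refine congrArg List.sum (List.map_congr_left fun y _ => congrArg φ ?_)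
    ext j
    simp [flipT]
  | succ n ih =>
    rw [flipsL, List.map_append, List.sum_append, List.map_map, ih, ih,
      ← Equiv.sum_comp (Fin.snocEquiv (fun _ => Bool)), Fintype.sum_prod_type, Fintype.sum_bool,
      add_comm]
    congr 1
    · refine Finset.sum_congr rfl fun t _ => ?_
      congr 2
      ext y
      have := flipT_snoc Q n t true y
      simp only [if_true] at this
      exact congrArg φ this.symm
    · refine Finset.sum_congr rfl fun t _ => ?_
      congr 2
      ext y
      have := flipT_snoc Q n t false y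
      simp only [Bool.false_eq_true, if_false] at this
      exact congrArg φ this.symm

lemma flipsL_le {d : ℕ} (Q n : ℕ) (L : List (Fin d → ℕ)) (hL : ∀ y ∈ L, ∀ j, y j ≤ Q) :
    ∀ y ∈ flipsL Q n L, ∀ j, y j ≤ Q := by
  induction n with
  | zero => exact hL
  | succ n ih =>
    intro y hy j
    rw [flipsL, List.mem_append, List.mem_map] at hy
    rcases hy with hy | ⟨z, hz, rfl⟩
    · exact ih y hy j
    · unfold flipL
      split_ifs
      · exact Nat.sub_le _ _
      · exact ih z hz j

lemma flipsL_length {d : ℕ} (Q n : ℕ) (L : List (Fin d → ℕ)) :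
    (flipsL Q n L).length = L.length * 2 ^ n := by
  induction n with
  | zero => simp [flipsL]
  | succ n ih => rw [flipsL, List.length_append, List.length_map, ih, pow_succ]; ring

/-- rational point with denominator `Q` -/
noncomputable def rp {d : ℕ} (Q : ℕ) (y : Fin d → ℕ) : Fin d → ℝ := fun j => (y j : ℝ) / Q

lemma rp_mem_cube {d Q : ℕ} (hQ : 0 < Q) {y : Fin d → ℕ} (hy : ∀ j, y j ≤ Q) : rp Q y ∈ cube d := by
  intro j
  have hQ' : (0 : ℝ) < Q := by exact_mod_cast hQ
  have h1 : (y j : ℝ) ≤ Q := by exact_mod_cast hy j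
  unfold rp
  exact ⟨by positivity, (div_le_one hQ').2 h1⟩

lemma gmap_rp {d Q : ℕ} (hQ : 0 < Q) {y : Fin d → ℕ} (hy : ∀ j, y j ≤ Q) (σ : Equiv.Perm (Fin d))
    (t : Fin d → Bool) : gmap (σ, t) (rp Q y) = rp Q (flipT Q d t (fun j => y (σ j))) := by
  have hQ' : (Q : ℝ) ≠ 0 := by exact_mod_cast hQ.ne'
  ext j
  simp only [gmap, rp, flipT, j.2, dite_true, Fin.eta]
  by_cases h : t j = true
  · rw [if_pos h, if_pos h, Nat.cast_sub (hy _), sub_div, div_self hQ']
  · rw [if_neg h, if_neg h]

/-- the orbit list of a point -/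
def orbL (d Q : ℕ) (x : Fin d → ℕ) : List (Fin d → ℕ) := flipsL Q d (permsL d x)

lemma orbL_le {d Q : ℕ} {x : Fin d → ℕ} (hx : ∀ j, x j ≤ Q) : ∀ y ∈ orbL d Q x, ∀ j, y j ≤ Q :=
  flipsL_le _ _ _ (permsL_le x Q hx)

lemma orbL_length (d Q : ℕ) (x : Fin d → ℕ) : (orbL d Q x).length = d.factorial * 2 ^ d := by
  rw [orbL, flipsL_length, permsL_length]

/-- the weight of a set is bounded by a count over the orbit list -/
theorem cnt_le {d Q : ℕ} (hQ : 0 < Q) {x : Fin d → ℕ} (hx : ∀ j, x j ≤ Q) (S : Set (Fin d → ℝ))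
    (ψ : (Fin d → ℕ) → ℕ) (hψ : ∀ y, (∀ j, y j ≤ Q) → rp Q y ∈ S → 1 ≤ ψ y) :
    cnt (rp Q x) S ≤ ((orbL d Q x).map ψ).sum := by
  classical
  unfold cnt orbL
  rw [flipsL_sum, Fintype.sum_prod_type, Finset.sum_comm]
  refine Finset.sum_le_sum fun t _ => ?_
  rw [permsL_sum]
  refine Finset.sum_le_sum fun σ _ => ?_
  split_ifs with h
  · rw [gmap_rp hQ hx] at h
    refine hψ _ ?_ h
    intro j
    unfold flipT
    split_ifs
    · exact Nat.sub_le _ _
    · exact hx _
    · exact hx _
  · exact Nat.zero_le _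

/-- packed ones -/
def oneP (b len one0 : ℕ) : ℕ → ℕ
  | 0 => one0
  | n+1 => oneP b len one0 n + 2 ^ (b * (len * 2 ^ n)) * oneP b len one0 n

/-- packed coordinates -/
def coordP (b len one0 Q : ℕ) (P : ℕ → ℕ) : ℕ → ℕ → ℕ
  | 0, j => P j
  | n+1, j => coordP b len one0 Q P n j + 2 ^ (b * (len * 2 ^ n)) *
      (bif Nat.beq j n then Q * oneP b len one0 n - coordP b len one0 Q P n j
        else coordP b len one0 Q P n j)

lemma oneP_eq {d : ℕ} (b Q one0 : ℕ) (L : List (Fin d → ℕ)) (h : one0 = pk b (fun _ => 1) L)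
    (n : ℕ) : oneP b L.length one0 n = pk b (fun _ => 1) (flipsL Q n L) := by
  induction n with
  | zero => exact h
  | succ n ih => rw [oneP, flipsL, pk_append, pk_map, ih, flipsL_length]

lemma coordP_eq {d : ℕ} (b Q one0 : ℕ) (P : ℕ → ℕ) (L : List (Fin d → ℕ))
    (h : one0 = pk b (fun _ => 1) L) (hP : ∀ j : Fin d, P j = pk b (fun y => y j) L)
    (hL : ∀ y ∈ L, ∀ j, y j ≤ Q) (n : ℕ) (j : Fin d) :
    coordP b L.length one0 Q P n j = pk b (fun y => y j) (flipsL Q n L) := by
  induction n with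
  | zero => exact hP j
  | succ n ih =>
    rw [coordP, flipsL, pk_append, pk_map, flipsL_length, ih]
    congr 2
    cases hjn : Nat.beq j n
    · have hne : (j : ℕ) ≠ n := by
        intro hcon
        rw [hcon] at hjn
        simp at hjn
      simp only [cond_false]
      exact pk_congr fun y _ => by simp [flipL, hne]
    · have he : (j : ℕ) = n := Nat.eq_of_beq_eq_true hjn
      simp only [cond_true]
      rw [oneP_eq b Q one0 L h, ← pk_mul, ← pk_sub]
      · exact pk_congr fun y _ => by simp [flipL, he]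
      · intro y hy
        simpa using flipsL_le Q n L hL y hy j

end Helper67.Cube
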