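import Pool.Agent.Helper67.CubeEnum

/-!
# Packed arithmetic: many small numbers inside one big number
-/

namespace Helper67.Cube

open Set

/-- packed list of the values of `f` -/
def pk {α : Type} (b : ℕ) (f : α → ℕ) : List α → ℕ
  | [] => 0
  | y :: L => f y + 2 ^ b * pk b f L

lemma pk_congr {α : Type} {b : ℕ} {f g : α → ℕ} {L : List α} (h : ∀ y ∈ L, f y = g y) :
    pk b f L = pk b g L := by
  induction L with
  | nil => rfl
  | cons y L ih =>
    rw [pk, pk, h y (by simp), ih (fun z hz => h z (by simp [hz]))]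

lemma pk_add {α : Type} (b : ℕ) (f g : α → ℕ) (L : List α) :
    pk b (fun y => f y + g y) L = pk b f L + pk b g L := by
  induction L with
  | nil => rfl
  | cons y L ih => simp only [pk, ih]; ring

lemma pk_mul {α : Type} (b c : ℕ) (f : α → ℕ) (L : List α) :
    pk b (fun y => c * f y) L = c * pk b f L := by
  induction L with
  | nil => rfl
  | cons y L ih => simp only [pk, ih]; ring

lemma pk_sub {α : Type} (b : ℕ) (f g : α → ℕ) (L : List α) (h : ∀ y ∈ L, g y ≤ f y) :
    pk b (fun y => f y - g y) L = pk b f L - pk b g L := by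
  have h1 : pk b f L = pk b (fun y => f y - g y) L + pk b g L := by
    rw [← pk_add]
    exact pk_congr fun y hy => (Nat.sub_add_cancel (h y hy)).symm
  omega

lemma pk_append {α : Type} (b : ℕ) (f : α → ℕ) (L L' : List α) :
    pk b f (L ++ L') = pk b f L + 2 ^ (b * L.length) * pk b f L' := by
  induction L with
  | nil => simp [pk]
  | cons y L ih =>
    have e : b * (L.length + 1) = b * L.length + b := by ring
    rw [List.cons_append, pk, pk, ih, List.length_cons, e, pow_add]
    ring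

lemma pk_map {α β : Type} (b : ℕ) (f : β → ℕ) (h : α → β) (L : List α) :
    pk b f (L.map h) = pk b (fun y => f (h y)) L := by
  induction L with
  | nil => rfl
  | cons y L ih => rw [List.map_cons, pk, pk, ih]

lemma pk_and {α : Type} (b : ℕ) (f g : α → ℕ) (L : List α) (hf : ∀ y ∈ L, f y < 2 ^ b)
    (hg : ∀ y ∈ L, g y < 2 ^ b) : pk b f L &&& pk b g L = pk b (fun y => f y &&& g y) L := by
  induction L with
  | nil => simp [pk]
  | cons y L ih =>
    have ih' := ih (fun z hz => hf z (by simp [hz])) (fun z hz => hg z (by simp [hz]))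
    have h1 := hf y (by simp)
    have h2 := hg y (by simp)
    have hpos : 0 < 2 ^ b := by positivity
    rw [pk, pk, pk, ← ih']
    have e1 : ((f y + 2 ^ b * pk b f L) &&& (g y + 2 ^ b * pk b g L)) % 2 ^ b = f y &&& g y := by
      rw [Nat.and_mod_two_pow, Nat.add_mul_mod_self_left, Nat.add_mul_mod_self_left,
        Nat.mod_eq_of_lt h1, Nat.mod_eq_of_lt h2]
    have e2 : ((f y + 2 ^ b * pk b f L) &&& (g y + 2 ^ b * pk b g L)) / 2 ^ b
        = pk b f L &&& pk b g L := by
      rw [Nat.and_div_two_pow, Nat.add_mul_div_left _ _ hpos, Nat.add_mul_div_left _ _ hpos,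
        Nat.div_eq_of_lt h1, Nat.div_eq_of_lt h2, zero_add, zero_add]
    have e3 := Nat.mod_add_div ((f y + 2 ^ b * pk b f L) &&& (g y + 2 ^ b * pk b g L)) (2 ^ b)
    rw [e1, e2] at e3
    exact e3.symm

lemma pk_mod {α : Type} (b : ℕ) (f : α → ℕ) (L : List α) :
    pk b f L ≡ (L.map f).sum [MOD (2 ^ b - 1)] := by
  induction L with
  | nil => exact Nat.ModEq.refl _
  | cons y L ih =>
    rw [pk, List.map_cons, List.sum_cons]
    refine Nat.ModEq.add_left _ ?_
    have h1 : 2 ^ b ≡ 1 [MOD (2 ^ b - 1)] := by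
      have h2 : 1 ≤ 2 ^ b := Nat.one_le_two_pow
      have h3 : 2 ^ b = (2 ^ b - 1) + 1 := by omega
      conv_lhs => rw [h3]
      simp [Nat.ModEq]
    have h4 := h1.mul ih
    rwa [one_mul] at h4

lemma map_sum_le_length {α : Type} (P : α → Prop) [DecidablePred P] (L : List α) :
    (L.map (fun y => if P y then 1 else 0)).sum ≤ L.length := by
  induction L with
  | nil => simp
  | cons y L ih =>
    rw [List.map_cons, List.sum_cons, List.length_cons]
    split_ifs <;> omega

/-- population count of a mask -/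
lemma pk_count {α : Type} (b : ℕ) (P : α → Prop) [DecidablePred P] (L : List α)
    (hL : L.length < 2 ^ b - 1) :
    (pk b (fun y => if P y then 2 ^ (b-1) else 0) L) / 2 ^ (b-1) % (2 ^ b - 1)
      = (L.map (fun y => if P y then 1 else 0)).sum := by
  have h1 : pk b (fun y => if P y then 2 ^ (b-1) else 0) L
      = 2 ^ (b-1) * pk b (fun y => if P y then 1 else 0) L := by
    rw [← pk_mul]
    exact pk_congr fun y _ => by split_ifs <;> simp
  rw [h1, Nat.mul_div_cancel_left _ (by positivity)]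
  have h2 := pk_mod b (fun y => if P y then 1 else 0) L
  rw [Nat.ModEq] at h2
  rw [h2]
  exact Nat.mod_eq_of_lt (lt_of_le_of_lt (map_sum_le_length P L) hL)

lemma and_top {b v : ℕ} (hb : 1 ≤ b) (hv : v < 2 ^ b) :
    v &&& 2 ^ (b-1) = if 2 ^ (b-1) ≤ v then 2 ^ (b-1) else 0 := by
  rw [Nat.and_two_pow]
  have h1 : v.testBit (b-1) = decide (2 ^ (b-1) ≤ v) := by
    rw [Nat.testBit_eq_decide_div_mod_eq]
    have h2 : 2 ^ b = 2 ^ (b-1) * 2 := by rw [← pow_succ]; congr 1; omega
    by_cases h : 2 ^ (b-1) ≤ v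
    · have h3 : v / 2 ^ (b-1) = 1 := by
        rw [Nat.div_eq_iff (by positivity)]
        omega
      rw [h3]; simp [h]
    · have h3 : v / 2 ^ (b-1) = 0 := Nat.div_eq_of_lt (by omega)
      rw [h3]; simp [h]
  rw [h1]
  by_cases h : 2 ^ (b-1) ≤ v <;> simp [h]

/-- sum of natural numbers -/
def sumN : ℕ → (ℕ → ℕ) → ℕ
  | 0, _ => 0
  | n+1, f => sumN n f + f n

lemma sumN_eq (n : ℕ) (f : ℕ → ℕ) : sumN n f = ∑ i : Fin n, f i := by
  induction n with
  | zero => simp [sumN]
  | succ n ih => rw [sumN, ih, Fin.sum_univ_castSucc]; simp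

/-- sum with zero coefficients skipped -/
def linN : ℕ → (ℕ → ℕ) → (ℕ → ℕ) → ℕ → ℕ
  | 0, _, _, acc => acc
  | n+1, a, X, acc => linN n a X (bif Nat.beq (a n) 0 then acc else acc + a n * X n)

lemma linN_eq (n : ℕ) (a X : ℕ → ℕ) : ∀ acc, linN n a X acc = acc + ∑ i : Fin n, a i * X i := by
  induction n with
  | zero => intro acc; simp [linN]
  | succ n ih =>
    intro acc
    have e : (bif Nat.beq (a n) 0 then acc else acc + a n * X n) = acc + a n * X n := by
      cases h : Nat.beq (a n) 0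
      · simp
      · have := Nat.eq_of_beq_eq_true h
        simp [this]
    rw [linN, ih, e, Fin.sum_univ_castSucc]
    simp only [Fin.val_castSucc, Fin.val_last]
    ring

lemma pk_sum {α : Type} (b n : ℕ) (a : ℕ → ℕ) (f : Fin n → α → ℕ) (L : List α) :
    pk b (fun y => ∑ i : Fin n, a i * f i y) L = ∑ i : Fin n, a i * pk b (f i) L := by
  induction L with
  | nil => simp [pk]
  | cons y L ih =>
    simp only [pk, ih]
    rw [Finset.mul_sum, ← Finset.sum_add_distrib]
    exact Finset.sum_congr rfl fun i _ => by ring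

/-- value of a functional with nonnegative coefficients `a 0, ..., a d` (`a 0` is multiplied by
the denominator `Q`) at an integer point -/
def lin (d Q : ℕ) (a : ℕ → ℕ) (y : Fin d → ℕ) : ℕ := a 0 * Q + ∑ j : Fin d, a (j+1) * y j

/-- packed values of the functional -/
def linP (d Q : ℕ) (a X : ℕ → ℕ) (one : ℕ) : ℕ :=
  linN d (fun j => a (j+1)) X (a 0 * Q * one)

lemma linP_eq {d Q b : ℕ} {a X : ℕ → ℕ} {one : ℕ} {L : List (Fin d → ℕ)}
    (hX : ∀ j : Fin d, X j = pk b (fun y => y j) L) (hone : one = pk b (fun _ => 1) L) :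
    linP d Q a X one = pk b (lin d Q a) L := by
  unfold linP lin
  have e := pk_sum b d (fun j => a (j+1)) (fun (j : Fin d) (y : Fin d → ℕ) => y j) L
  rw [linN_eq, pk_add, e, hone]
  congr 1
  · rw [← pk_mul]
    exact pk_congr fun y _ => by ring
  · exact Finset.sum_congr rfl fun j _ => by rw [hX]

/-- comparison mask of one inequality -/
def cmpP (d Q b : ℕ) (ap an X : ℕ → ℕ) (one : ℕ) : ℕ :=
  (2 ^ (b-1) * one + linP d Q ap X one) - linP d Q an X one

/-- mask of `n` inequalities -/
def maskP (d Q b : ℕ) (ap an : ℕ → ℕ → ℕ) (X : ℕ → ℕ) (one : ℕ) : ℕ → ℕ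
  | 0 => 2 ^ (b-1) * one
  | n+1 => cmpP d Q b (ap n) (an n) X one &&& maskP d Q b ap an X one n

lemma lin_le {d Q : ℕ} {a : ℕ → ℕ} {y : Fin d → ℕ} (hy : ∀ j, y j ≤ Q) :
    lin d Q a y ≤ (∑ j : Fin (d+1), a j) * Q := by
  unfold lin
  rw [Fin.sum_univ_succ, add_mul, Finset.sum_mul]
  simp only [Fin.val_zero, Fin.val_succ]
  exact Nat.add_le_add_left (Finset.sum_le_sum fun j _ => Nat.mul_le_mul_left _ (hy j)) _

/-- size condition for the coefficients -/
def smallB (d Q b : ℕ) (a : ℕ → ℕ) : Bool := Nat.blt (sumN (d+1) a * Q) (2 ^ (b-1))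

lemma maskP_eq {d Q b : ℕ} (hb : 1 ≤ b) {ap an : ℕ → ℕ → ℕ} {X : ℕ → ℕ} {one : ℕ}
    {L : List (Fin d → ℕ)} (hX : ∀ j : Fin d, X j = pk b (fun y => y j) L)
    (hone : one = pk b (fun _ => 1) L) (hL : ∀ y ∈ L, ∀ j, y j ≤ Q) (n : ℕ)
    (hs : allB n (fun k => smallB d Q b (ap k) && smallB d Q b (an k)) = true) :
    maskP d Q b ap an X one n = pk b (fun y => if allB n (fun k =>
      Nat.ble (lin d Q (an k) y) (lin d Q (ap k) y)) = true then 2 ^ (b-1) else 0) L := by
  have h2b : 2 ^ b = 2 ^ (b-1) + 2 ^ (b-1) := by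
    rw [← two_mul, ← pow_succ']; congr 1; omega
  have hpos : 0 < 2 ^ (b-1) := by positivity
  induction n with
  | zero =>
    rw [maskP, hone, ← pk_mul]
    exact pk_congr fun y _ => by simp [allB]
  | succ n ih =>
    rw [allB, Bool.and_eq_true, Bool.and_eq_true] at hs
    obtain ⟨⟨hs1, hs2⟩, hs3⟩ := hs
    have hs1' : ∀ y ∈ L, lin d Q (ap n) y < 2 ^ (b-1) := by
      intro y hy
      refine lt_of_le_of_lt (lin_le (hL y hy)) ?_
      have := Nat.blt_eq.mp hs1
      rwa [sumN_eq] at this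
    have hs2' : ∀ y ∈ L, lin d Q (an n) y < 2 ^ (b-1) := by
      intro y hy
      refine lt_of_le_of_lt (lin_le (hL y hy)) ?_
      have := Nat.blt_eq.mp hs2
      rwa [sumN_eq] at this
    have hcmp : cmpP d Q b (ap n) (an n) X one =
        pk b (fun y => 2 ^ (b-1) * 1 + lin d Q (ap n) y - lin d Q (an n) y) L := by
      unfold cmpP
      rw [linP_eq hX hone, linP_eq hX hone, hone, pk_sub, pk_add, pk_mul]
      intro y hy
      have := hs2' y hy
      omega
    rw [maskP, ih hs3, hcmp, pk_and]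
    · refine pk_congr fun y hy => ?_
      have h1 := hs1' y hy
      have h2 := hs2' y hy
      rw [allB]
      by_cases h3 : allB n (fun k => Nat.ble (lin d Q (an k) y) (lin d Q (ap k) y)) = true
      · rw [if_pos h3, h3, Bool.and_true, and_top hb (by omega)]
        by_cases h4 : lin d Q (an n) y ≤ lin d Q (ap n) y
        · rw [if_pos (by omega), if_pos (Nat.ble_eq.mpr h4)]
        · rw [if_neg (by omega), if_neg (by rw [Nat.ble_eq]; exact h4)]
      · rw [if_neg h3, Nat.and_zero]
        have h4 : allB n (fun k => Nat.ble (lin d Q (an k) y) (lin d Q (ap k) y)) = false := by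
          simpa using h3
        rw [h4, Bool.and_false]
        simp
    · intro y hy
      have h1 := hs1' y hy
      omega
    · intro y hy
      split_ifs <;> omega

/-- number of points satisfying `n` inequalities, computed from the packed data -/
def cntP (d Q b : ℕ) (ap an : ℕ → ℕ → ℕ) (X : ℕ → ℕ) (one n : ℕ) : ℕ :=
  maskP d Q b ap an X one n / 2 ^ (b-1) % (2 ^ b - 1)

theorem cntP_eq {d Q b : ℕ} (hb : 1 ≤ b) {ap an : ℕ → ℕ → ℕ} {X : ℕ → ℕ} {one : ℕ}
    {L : List (Fin d → ℕ)} (hX : ∀ j : Fin d, X j = pk b (fun y => y j) L)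
    (hone : one = pk b (fun _ => 1) L) (hL : ∀ y ∈ L, ∀ j, y j ≤ Q) (n : ℕ)
    (hs : allB n (fun k => smallB d Q b (ap k) && smallB d Q b (an k)) = true)
    (hlen : L.length < 2 ^ b - 1) :
    cntP d Q b ap an X one n = (L.map (fun y => if allB n (fun k =>
      Nat.ble (lin d Q (an k) y) (lin d Q (ap k) y)) = true then 1 else 0)).sum := by
  unfold cntP
  rw [maskP_eq hb hX hone hL n hs]
  exact pk_count b _ L hlen

end Helper67.Cube
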