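import Pool.Agent.Helper67.CubePts5

/-!
# Checking the representatives for the 5-cube
-/

namespace Helper67.Cube

/-- check of the representative `i` -/
def rep5 (i : ℕ) : Bool := repB 5 1000 15 5 7692 wt5 X5 one5 (deg5 i) (ap5 i) (an5 i) (C6 i)

theorem rep5_0 : allB 59 (fun i => rep5 (0 + i)) = true := by
  decide +kernel

theorem rep5_1 : allB 59 (fun i => rep5 (59 + i)) = true := by
  decide +kernel

theorem rep5_2 : allB 59 (fun i => rep5 (118 + i)) = true := by
  decide +kernel

theorem rep5_3 : allB 59 (fun i => rep5 (177 + i)) = true := by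
  decide +kernel

theorem rep5_4 : allB 59 (fun i => rep5 (236 + i)) = true := by
  decide +kernel

theorem rep5_5 : allB 59 (fun i => rep5 (295 + i)) = true := by
  decide +kernel

theorem rep5_6 : allB 59 (fun i => rep5 (354 + i)) = true := by
  decide +kernel

theorem rep5_7 : allB 59 (fun i => rep5 (413 + i)) = true := by
  decide +kernel

theorem rep5_all : ∀ i < 472, rep5 i = true := by
  intro i hi
  have key : ∀ a : ℕ, allB 59 (fun i => rep5 (a + i)) = true → a ≤ i → i < a + 59 →
      rep5 i = true := by
    intro a h h1 h2
    rw [allB_iff] at h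
    have h3 := h (i - a) (by omega)
    rwa [Nat.add_sub_cancel' h1] at h3
  by_cases h0 : i < 59
  · exact key 0 rep5_0 (by omega) (by omega)
  by_cases h1 : i < 118
  · exact key 59 rep5_1 (by omega) (by omega)
  by_cases h2 : i < 177
  · exact key 118 rep5_2 (by omega) (by omega)
  by_cases h3 : i < 236
  · exact key 177 rep5_3 (by omega) (by omega)
  by_cases h4 : i < 295
  · exact key 236 rep5_4 (by omega) (by omega)
  by_cases h5 : i < 354
  · exact key 295 rep5_5 (by omega) (by omega)
  by_cases h6 : i < 413
  · exact key 354 rep5_6 (by omega) (by omega)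
  exact key 413 rep5_7 (by omega) (by omega)

end Helper67.Cube
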