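import Pool.Agent.Helper67.CubeTri

/-!
# Symmetries of the cube and invariant point weights
-/

namespace Helper67.Cube

open Set

/-- a symmetry of the cube: permute coordinates, then reflect some of them -/
def gmap {d : ℕ} (g : Equiv.Perm (Fin d) × (Fin d → Bool)) (x : Fin d → ℝ) : Fin d → ℝ :=
  fun j => if g.2 j then 1 - x (g.1 j) else x (g.1 j)

/-- composition of symmetries as an equivalence of the index type -/
def gcomp {d : ℕ} (g : Equiv.Perm (Fin d) × (Fin d → Bool)) :
    (Equiv.Perm (Fin d) × (Fin d → Bool)) ≃ (Equiv.Perm (Fin d) × (Fin d → Bool)) where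
  toFun h := (h.1 * g.1, fun j => xor (g.2 j) (h.2 (g.1 j)))
  invFun h := (h.1 * g.1⁻¹, fun j => xor (g.2 (g.1⁻¹ j)) (h.2 (g.1⁻¹ j)))
  left_inv h := by
    refine Prod.ext ?_ ?_
    · simp
    · ext j; simp
  right_inv h := by
    refine Prod.ext ?_ ?_
    · simp
    · ext j; simp

lemma gmap_gcomp {d : ℕ} (g h : Equiv.Perm (Fin d) × (Fin d → Bool)) (x : Fin d → ℝ) :
    gmap (gcomp g h) x = gmap g (gmap h x) := by
  ext j
  simp only [gmap, gcomp, Equiv.coe_fn_mk, Equiv.Perm.coe_mul, Function.comp_apply]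
  cases g.2 j <;> cases h.2 (g.1 j) <;> simp

lemma gmap_mem_cube {d : ℕ} (g : Equiv.Perm (Fin d) × (Fin d → Bool)) {x : Fin d → ℝ}
    (hx : x ∈ cube d) : gmap g x ∈ cube d := by
  intro j
  unfold gmap
  have := hx (g.1 j)
  split_ifs <;> constructor <;> linarith [this.1, this.2]

open Classical in
/-- the weight of a set: number of group elements moving `x` into it -/
noncomputable def cnt {d : ℕ} (x : Fin d → ℝ) (S : Set (Fin d → ℝ)) : ℕ :=
  ∑ g : Equiv.Perm (Fin d) × (Fin d → Bool), if gmap g x ∈ S then 1 else 0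

lemma cnt_mono {d : ℕ} (x : Fin d → ℝ) {S T : Set (Fin d → ℝ)} (h : S ⊆ T) : cnt x S ≤ cnt x T := by
  classical
  unfold cnt
  refine Finset.sum_le_sum fun g _ => ?_
  split_ifs with h1 h2
  · exact le_rfl
  · exact absurd (h h1) h2
  · exact Nat.zero_le _
  · exact le_rfl

lemma cnt_preimage {d : ℕ} (x : Fin d → ℝ) (S : Set (Fin d → ℝ))
    (g : Equiv.Perm (Fin d) × (Fin d → Bool)) : cnt x {y | gmap g y ∈ S} = cnt x S := by
  classical
  unfold cnt
  rw [← Equiv.sum_comp (gcomp g) (fun h => if gmap h x ∈ S then 1 else 0)]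
  refine Finset.sum_congr rfl fun h _ => ?_
  rw [gmap_gcomp]
  rfl

lemma gmap_sum {d : ℕ} {ι : Type*} [Fintype ι] (g : Equiv.Perm (Fin d) × (Fin d → Bool))
    (t : ι → ℝ) (ht : ∑ i, t i = 1) (w : ι → Fin d → ℝ) :
    gmap g (∑ i, t i • w i) = ∑ i, t i • gmap g (w i) := by
  ext j
  simp only [gmap, Finset.sum_apply, Pi.smul_apply, smul_eq_mul]
  cases g.2 j
  · simp
  · simp only [if_true, mul_sub, mul_one, Finset.sum_sub_distrib, ht]

/-- the body is mapped into the hull of the images of the vertices -/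
lemma body_subset_preimage {d : ℕ} (w : Fin (d+1) → Fin d → ℝ)
    (g : Equiv.Perm (Fin d) × (Fin d → Bool)) {S : Set (Fin d → ℝ)} (h : ∀ i, gmap g (w i) ∈ S) :
    body w ⊆ {y | gmap g y ∈ convexHull ℝ S} := by
  intro y hy
  unfold body at hy
  rw [mem_hull_range] at hy
  obtain ⟨t, h0, h1, rfl⟩ := hy
  rw [mem_ofPred_eq, gmap_sum g t h1]
  exact (convex_convexHull ℝ _).sum_mem (fun i _ => h0 i) h1
    (fun i _ => subset_convexHull ℝ _ (h i))

/-- the total number of pairs (symmetry, member of the cover containing the moved point) is at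
least the number of symmetries -/
lemma card_le_sum_cnt {d N : ℕ} {W : Fin N → Fin (d+1) → Fin d → ℝ} (hW : IsCover W)
    {x : Fin d → ℝ} (hx : x ∈ cube d) :
    Fintype.card (Equiv.Perm (Fin d) × (Fin d → Bool)) ≤ ∑ s, cnt x (body (W s)) := by
  classical
  unfold cnt
  rw [Finset.sum_comm, ← Finset.card_univ, Finset.card_eq_sum_ones]
  refine Finset.sum_le_sum fun g _ => ?_
  have h1 : gmap g x ∈ cube d := gmap_mem_cube g hx
  rw [← hW.2] at h1
  obtain ⟨s, hs⟩ := mem_iUnion.1 h1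
  calc 1 = (if gmap g x ∈ body (W s) then 1 else 0) := by rw [if_pos hs]
    _ ≤ _ := Finset.single_le_sum (f := fun s => if gmap g x ∈ body (W s) then 1 else 0)
        (fun i _ => Nat.zero_le _) (Finset.mem_univ s)

/-- weighted counting bound for covers -/
theorem weighted_bound {d N K : ℕ} {W : Fin N → Fin (d+1) → Fin d → ℝ} (hW : IsCover W)
    (x : Fin K → Fin d → ℝ) (hx : ∀ o, x o ∈ cube d) (wt : Fin K → ℕ) (B : ℕ)
    (hB : ∀ s, ∑ o, wt o * cnt (x o) (body (W s)) ≤ B) :
    Fintype.card (Equiv.Perm (Fin d) × (Fin d → Bool)) * ∑ o, wt o ≤ N * B := by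
  calc Fintype.card (Equiv.Perm (Fin d) × (Fin d → Bool)) * ∑ o, wt o
      = ∑ o, wt o * Fintype.card (Equiv.Perm (Fin d) × (Fin d → Bool)) := by
        rw [Finset.mul_sum]; exact Finset.sum_congr rfl fun o _ => mul_comm _ _
    _ ≤ ∑ o, wt o * ∑ s, cnt (x o) (body (W s)) :=
        Finset.sum_le_sum fun o _ => Nat.mul_le_mul_left _ (card_le_sum_cnt hW (hx o))
    _ = ∑ s, ∑ o, wt o * cnt (x o) (body (W s)) := by
        simp only [Finset.mul_sum]; rw [Finset.sum_comm]
    _ ≤ ∑ _s : Fin N, B := Finset.sum_le_sum fun s _ => hB s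
    _ = N * B := by simp

end Helper67.Cube
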