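import Pool.Agent.Helper67.CubeTri

/-!
# An explicit triangulation of the 4-cube with 16 simplices
-/

namespace Helper67.Cube

/-- vertex codes, five bits each -/
def codes4 : ℕ := 0x4a98f0194c7812563c062b1e04a86f01943781251bc0628de03298f7152f6346f4a9606292878ca63b0062914600c4928c01

/-- separating functionals, five bits per entry -/
def funs4 : ℕ := 0x845ef8c22f8be117c2108c5ef8460f8423083e1283def83df17c1f17be117be0f8c62f93def849d184251742128c1d08422f845f17c21183e118bdf08c60e846107b9ef7c5f07c9cf849ee83e3183e507ba117c6108c5f0846317422f7c6108be108c5d08462f7c2307c1f07ba4e7be2f7c24e7c1f1845f2839f08be118462e8c23183e1093df0845f0842307c2317bdef83e2f7c22f7be4f7c1d28c1f183df08be318464e8423283a117be308be2f845f083e0e7c9f0749ee7c5ef83e118be4e83e11746308c1f1846117c2108be117c5ef7be117bdf27bdf183e0e8ca0f8be0f845d2842317c611849d08bdf17bdef93def8c1ef8be10746127c5ef8422e84a1183a508c62f7ba0f93dd093dee941f074631745ef7c20f8c6108be308462f842117c21183e308c6108c20f8c61184631842318c5f0845f08c2308c2307c231842318c5f18c630846108c6117c2118be318c6108c6308c1f17bdf08be108460f8423083e3084631846118c231842117c2108c1f08422f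

/-- code of the vertex `i` of the simplex `s` -/
def code4 (s i : ℕ) : ℕ := (codes4 >>> (5 * (5 * s + i))) % 32

/-- functional for the pair `t < s` (the entry `4` is the level) -/
def H4 (s t j : ℕ) : ℤ :=
  Int.ofNat ((funs4 >>> (5 * (5 * (s * (s-1) / 2 + t) + j))) % 32) - 16

theorem tri4_sep :
    allB 16 (fun s => allB s (fun t => sepB 4 code4 s t (H4 s t) (H4 s t 4))) = true := by
  decide +kernel

theorem tri4_det : allB 16 (fun s => !decide (detE 4 code4 s = 0)) = true := by
  decide +kernel

theorem tri4_sum : sumB 16 (fun s => |detE 4 code4 s|) = (4).factorial := by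
  decide +kernel

theorem tri4 : IsTriangulation (fam 4 16 code4) ∧ IsVertexFamily (fam 4 16 code4) :=
  tri_of_check code4 H4 (fun s t => H4 s t 4) tri4_sep tri4_det tri4_sum

end Helper67.Cube
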