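import Pool.Agent.Helper67.CubeDefs

/-!
# Volume of simplices in `Fin d → ℝ`
-/

namespace Helper67.Cube

open MeasureTheory Set

/-- the corner simplex of size `r` -/
def corner (n : ℕ) (r : ℝ) : Set (Fin n → ℝ) := {x | (∀ i, 0 ≤ x i) ∧ ∑ i, x i ≤ r}

lemma measurableSet_corner (n : ℕ) (r : ℝ) : MeasurableSet (corner n r) := by
  have h1 : IsClosed {x : Fin n → ℝ | ∀ i, 0 ≤ x i} := by
    have : {x : Fin n → ℝ | ∀ i, 0 ≤ x i} = ⋂ i, {x | 0 ≤ x i} := by ext; simp
    rw [this]
    exact isClosed_iInter fun i => isClosed_le continuous_const (continuous_apply i)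
  have h2 : IsClosed {x : Fin n → ℝ | ∑ i, x i ≤ r} :=
    isClosed_le (by fun_prop) continuous_const
  exact (h1.inter h2).measurableSet

lemma volume_corner (n : ℕ) : ∀ r : ℝ, 0 ≤ r →
    volume (corner n r) = ENNReal.ofReal (r ^ n / n.factorial) := by
  induction n with
  | zero =>
    intro r hr
    have : corner 0 r = univ := by
      ext x; simp [corner, hr]
    rw [this, volume_pi, Measure.pi_of_empty]
    simp
  | succ n ih =>
    intro r hr
    have e := volume_preserving_piFinSuccAbove (fun _ : Fin (n+1) => ℝ) 0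
    have hpre : corner (n+1) r = (MeasurableEquiv.piFinSuccAbove (fun _ : Fin (n+1) => ℝ) 0) ⁻¹'
        {p : ℝ × (Fin n → ℝ) | 0 ≤ p.1 ∧ p.2 ∈ corner n (r - p.1)} := by
      ext x
      simp only [corner, mem_ofPred_eq, mem_preimage, MeasurableEquiv.piFinSuccAbove_apply,
        Fin.forall_fin_succ, Fin.sum_univ_succ, Fin.insertNthEquiv_zero, Fin.consEquiv_symm_apply]
      simp [Fin.tail, le_sub_iff_add_le', and_assoc]
    have hm : MeasurableSet {p : ℝ × (Fin n → ℝ) | 0 ≤ p.1 ∧ p.2 ∈ corner n (r - p.1)} := by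
      have hc : IsClosed {p : ℝ × (Fin n → ℝ) | 0 ≤ p.1 ∧ p.2 ∈ corner n (r - p.1)} := by
        have : {p : ℝ × (Fin n → ℝ) | 0 ≤ p.1 ∧ p.2 ∈ corner n (r - p.1)} =
            {p : ℝ × (Fin n → ℝ) | 0 ≤ p.1} ∩ ((⋂ i, {p : ℝ × (Fin n → ℝ) | 0 ≤ p.2 i}) ∩
              {p : ℝ × (Fin n → ℝ) | ∑ i, p.2 i ≤ r - p.1}) := by
          ext p; simp [corner]
        rw [this]
        refine (isClosed_le continuous_const continuous_fst).inter ((isClosed_iInter fun i => ?_).inter
          ?_)
        · exact isClosed_le continuous_const (by fun_prop)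
        · exact isClosed_le (by fun_prop) (by fun_prop)
      exact hc.measurableSet
    rw [hpre, e.measure_preimage hm.nullMeasurableSet, Measure.volume_eq_prod, Measure.prod_apply hm]
    have hs : ∀ t : ℝ, volume (Prod.mk t ⁻¹' {p : ℝ × (Fin n → ℝ) | 0 ≤ p.1 ∧ p.2 ∈ corner n (r - p.1)})
        = (Icc 0 r).indicator (fun t => ENNReal.ofReal ((r - t) ^ n / n.factorial)) t := by
      intro t
      by_cases h : t ∈ Icc 0 r
      · rw [indicator_of_mem h, ← ih (r - t) (by linarith [h.2])]
        congr 1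
        ext y
        simp [h.1]
      · rw [indicator_of_notMem h]
        have : (Prod.mk t ⁻¹' {p : ℝ × (Fin n → ℝ) | 0 ≤ p.1 ∧ p.2 ∈ corner n (r - p.1)}) = ∅ := by
          ext y
          simp only [mem_preimage, mem_ofPred_eq, mem_empty_iff_false, iff_false, corner]
          rintro ⟨h1, h2, h3⟩
          apply h
          refine ⟨h1, ?_⟩
          have : 0 ≤ ∑ i, y i := Finset.sum_nonneg fun i _ => h2 i
          linarith
        rw [this]; simp
    simp_rw [hs]
    rw [lintegral_indicator measurableSet_Icc,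
      ← ofReal_integral_eq_lintegral_ofReal (μ := volume.restrict (Icc 0 r))]
    · congr 1
      rw [integral_Icc_eq_integral_Ioc, ← intervalIntegral.integral_of_le hr]
      rw [intervalIntegral.integral_div,
        intervalIntegral.integral_comp_sub_left (fun x => x ^ n) r]
      simp only [sub_zero, sub_self, integral_pow]
      rw [Nat.factorial_succ]
      push_cast
      have h1 : (n.factorial : ℝ) ≠ 0 := by positivity
      have h2 : (n : ℝ) + 1 ≠ 0 := by positivity
      field_simp
      simp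
    · refine Continuous.integrableOn_Icc ?_
      fun_prop
    · refine (ae_restrict_iff' measurableSet_Icc).2 (Filter.Eventually.of_forall fun t ht => ?_)
      have : 0 ≤ r - t := by linarith [ht.2]
      simp only [Pi.zero_apply]
      positivity

/-- the bordered vertex matrix `[1 | w]` -/
def bord {d : ℕ} (w : Fin (d+1) → Fin d → ℝ) : Matrix (Fin (d+1)) (Fin (d+1)) ℝ :=
  Matrix.of fun i => Fin.cons 1 (w i)

/-- the edge matrix `w (i+1) - w 0` -/
def edge {d : ℕ} (w : Fin (d+1) → Fin d → ℝ) : Matrix (Fin d) (Fin d) ℝ :=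
  Matrix.of fun i j => w i.succ j - w 0 j

lemma det_bord {d : ℕ} (w : Fin (d+1) → Fin d → ℝ) : (bord w).det = (edge w).det := by
  have h : (bord w).det = (Matrix.of fun (i : Fin (d+1)) (j : Fin (d+1)) =>
      if i = 0 then bord w i j else bord w i j - bord w 0 j).det := by
    refine Matrix.det_eq_of_forall_row_eq_smul_add_const (fun i => if i = 0 then 0 else 1) 0
      (by simp) ?_
    intro i j
    by_cases hi : i = 0 <;> simp [hi]
  rw [h, Matrix.det_succ_column_zero, Fin.sum_univ_succ]
  have : ∀ i : Fin d, bord w i.succ 0 - bord w 0 0 = 0 := by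
    intro i; simp [bord]
  simp [this, Fin.succ_ne_zero]
  have h0 : bord w 0 0 = 1 := by simp [bord]
  rw [h0, one_mul]
  rfl

lemma mem_hull_range {ι E : Type*} [Fintype ι] [AddCommGroup E] [Module ℝ E] (v : ι → E) (x : E) :
    x ∈ convexHull ℝ (range v) ↔
      ∃ t : ι → ℝ, (∀ i, 0 ≤ t i) ∧ ∑ i, t i = 1 ∧ ∑ i, t i • v i = x := by
  classical
  constructor
  · intro hx
    have hsub : convexHull ℝ (range v) ⊆
        {x | ∃ t : ι → ℝ, (∀ i, 0 ≤ t i) ∧ ∑ i, t i = 1 ∧ ∑ i, t i • v i = x} := by
      refine convexHull_min ?_ ?_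
      · rintro _ ⟨i, rfl⟩
        exact ⟨fun j => if j = i then 1 else 0, fun j => by positivity, by simp, by simp⟩
      · rintro _ ⟨s, hs0, hs1, rfl⟩ _ ⟨t, ht0, ht1, rfl⟩ a b ha hb hab
        refine ⟨fun i => a * s i + b * t i, fun i => ?_, ?_, ?_⟩
        · have := hs0 i; have := ht0 i; positivity
        · rw [Finset.sum_add_distrib, ← Finset.mul_sum, ← Finset.mul_sum, hs1, ht1]; linarith
        · simp only [add_smul, Finset.sum_add_distrib, mul_smul, Finset.smul_sum]
    exact hsub hx
  · rintro ⟨t, h0, h1, rfl⟩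
    exact (convex_convexHull ℝ _).sum_mem (fun i _ => h0 i) h1
      (fun i _ => subset_convexHull ℝ _ (mem_range_self i))

lemma body_eq_image {d : ℕ} (w : Fin (d+1) → Fin d → ℝ) :
    body w = (fun x => w 0 + x) '' ((Matrix.toLin' (edge w).transpose) '' corner d 1) := by
  ext x
  unfold body
  rw [mem_hull_range]
  simp only [mem_image, exists_exists_and_eq_and]
  constructor
  · rintro ⟨t, h0, h1, rfl⟩
    refine ⟨fun i => t i.succ, ⟨fun i => h0 _, ?_⟩, ?_⟩
    · rw [Fin.sum_univ_succ] at h1
      have := h0 0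
      linarith
    · rw [Fin.sum_univ_succ] at h1 ⊢
      ext j
      simp only [Matrix.toLin'_apply, Pi.add_apply, Matrix.mulVec, dotProduct, edge,
        Matrix.transpose_apply, Matrix.of_apply, Finset.sum_apply, Pi.smul_apply, smul_eq_mul]
      have e : t 0 = 1 - ∑ i : Fin d, t i.succ := by linarith
      rw [e]
      have : ∑ i : Fin d, (w i.succ j - w 0 j) * t i.succ
          = ∑ i : Fin d, t i.succ * w i.succ j - (∑ i : Fin d, t i.succ) * w 0 j := by
        rw [Finset.sum_mul, ← Finset.sum_sub_distrib]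
        exact Finset.sum_congr rfl fun i _ => by ring
      rw [this]; ring
  · rintro ⟨s, ⟨h0, h1⟩, rfl⟩
    refine ⟨Fin.cons (1 - ∑ i, s i) s, ?_, ?_, ?_⟩
    · intro i
      refine Fin.cases ?_ (fun i => ?_) i
      · simpa using h1
      · simpa using h0 i
    · rw [Fin.sum_univ_succ]; simp
    · rw [Fin.sum_univ_succ]
      ext j
      simp only [Matrix.toLin'_apply, Pi.add_apply, Matrix.mulVec, dotProduct, edge,
        Matrix.transpose_apply, Matrix.of_apply, Finset.sum_apply, Pi.smul_apply, smul_eq_mul,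
        Fin.cons_zero, Fin.cons_succ]
      have : ∑ i : Fin d, (w i.succ j - w 0 j) * s i
          = ∑ i : Fin d, s i * w i.succ j - (∑ i : Fin d, s i) * w 0 j := by
        rw [Finset.sum_mul, ← Finset.sum_sub_distrib]
        exact Finset.sum_congr rfl fun i _ => by ring
      rw [this]; ring

/-- `d!` times the volume of the simplex with vertex list `w` -/
noncomputable def vdet {d : ℕ} (w : Fin (d+1) → Fin d → ℝ) : ℝ := |(bord w).det|

lemma volume_body {d : ℕ} (w : Fin (d+1) → Fin d → ℝ) :
    volume (body w) = ENNReal.ofReal (vdet w / d.factorial) := by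
  rw [body_eq_image, image_add_left, measure_preimage_add, Measure.addHaar_image_linearMap,
    volume_corner _ _ zero_le_one, LinearMap.det_toLin', Matrix.det_transpose, vdet, det_bord,
    ← ENNReal.ofReal_mul (abs_nonneg _)]
  congr 1
  simp [div_eq_mul_inv]

end Helper67.Cube
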