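import Pool.Agent.Helper67.RRHurwitz
import Pool.Agent.Helper5.RRD1

/-!
# The Hurwitz inequality (module RR-D2), with weak approximation and integrality of traces inserted
-/

set_option autoImplicit false
set_option linter.style.haveILetI false

namespace Pool.Agent.Helper47.RR

open Pool.Agent.Helper16 Pool.Agent.Helper45.S4

variable {k L M : Type} [Field k] [Field L] [Field M] [Algebra k L] [Algebra k M] [Algebra L M]
  [IsScalarTower k L M]

/-- The Hurwitz inequality for a finite separable extension; `hL`, `hM` are the Riemann-Roch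
outputs for `L` and `M`. -/
theorem hurwitz_of_RR [IsAlgClosed k] (hN : IsFunctionField k L) [FiniteDimensional L M]
    [Algebra.IsSeparable L M]
    (hL : ∃ (W : Dv k L) (ω : Ad k L →ₗ[k] k), ω ∈ Om W ∧ ω ≠ 0 ∧ degD W = 2 * genus k L - 2)
    (hM : ∀ (D : Dv k M) (ω : Ad k M →ₗ[k] k), ω ∈ Om D → ω ≠ 0 →
      degD D ≤ 2 * genus k M - 2) :
    (Module.finrank L M : ℤ) * (2 * genus k L - 2) ≤ 2 * genus k M - 2 :=
  hurwitz_core hN (fun S a n => weak_approx (isFunctionField_ext hN) S a n)
    (fun v m x hx => trace_val hN v m x hx) hL hM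

end Pool.Agent.Helper47.RR
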